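import Pool.Agent.H631.EX.Defs

open Set Metric Filter Topology MeasureTheory

namespace ExtStar

noncomputable section

theorem aux_int_exp (d : ℕ) (b : ℝ) (hb : 0 < b) :
    Integrable (fun z : E d => Real.exp (-b * ‖z‖ ^ 2)) := by
  have h := GaussianFourier.integrable_cexp_neg_mul_sq_norm_add (V := E d) (b := (b : ℂ))
    (by simpa using hb) 0 0
  have h2 := h.norm
  refine h2.congr (Filter.Eventually.of_forall fun z => ?_)
  simp only [inner_zero_left, Complex.ofReal_zero, mul_zero, add_zero]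
  rw [Complex.norm_exp]
  congr 1
  have : (-(b : ℂ) * (‖z‖ : ℂ) ^ 2) = ((-b * ‖z‖ ^ 2 : ℝ) : ℂ) := by push_cast; ring
  rw [this, Complex.ofReal_re]

theorem aux_bd1 (t : ℝ) (ht : 0 ≤ t) :
    t * Real.exp (-(t ^ 2) / 2) ≤ 4 * Real.exp (-(1 / 4) * t ^ 2) := by
  have h1 : Real.exp (-(t ^ 2) / 2) = Real.exp (-(1 / 4) * t ^ 2) * Real.exp (-(t ^ 2 / 4)) := by
    rw [← Real.exp_add]; congr 1; ring
  have h2 : t ^ 2 / 4 + 1 ≤ Real.exp (t ^ 2 / 4) := Real.add_one_le_exp _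
  have h3 : Real.exp (-(t ^ 2 / 4)) * Real.exp (t ^ 2 / 4) = 1 := by
    rw [← Real.exp_add]; simp
  have h4 : 0 < Real.exp (-(t ^ 2 / 4)) := Real.exp_pos _
  have h5 : t * Real.exp (-(t ^ 2 / 4)) ≤ 4 := by
    have h6 : t ≤ 4 * Real.exp (t ^ 2 / 4) := by nlinarith [sq_nonneg (t - 1)]
    calc t * Real.exp (-(t ^ 2 / 4)) ≤ (4 * Real.exp (t ^ 2 / 4)) * Real.exp (-(t ^ 2 / 4)) :=
          mul_le_mul_of_nonneg_right h6 h4.le
      _ = 4 * (Real.exp (-(t ^ 2 / 4)) * Real.exp (t ^ 2 / 4)) := by ring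
      _ = 4 := by rw [h3]; ring
  rw [h1]
  have h7 : 0 < Real.exp (-(1 / 4) * t ^ 2) := Real.exp_pos _
  calc t * (Real.exp (-(1 / 4) * t ^ 2) * Real.exp (-(t ^ 2 / 4)))
      = Real.exp (-(1 / 4) * t ^ 2) * (t * Real.exp (-(t ^ 2 / 4))) := by ring
    _ ≤ Real.exp (-(1 / 4) * t ^ 2) * 4 := mul_le_mul_of_nonneg_left h5 h7.le
    _ = 4 * Real.exp (-(1 / 4) * t ^ 2) := by ring

theorem aux_bd2 (t : ℝ) :
    t ^ 2 * Real.exp (-(t ^ 2) / 2) ≤ 4 * Real.exp (-(1 / 4) * t ^ 2) := by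
  have h1 : Real.exp (-(t ^ 2) / 2) = Real.exp (-(1 / 4) * t ^ 2) * Real.exp (-(t ^ 2 / 4)) := by
    rw [← Real.exp_add]; congr 1; ring
  have h2 : t ^ 2 / 4 + 1 ≤ Real.exp (t ^ 2 / 4) := Real.add_one_le_exp _
  have h3 : Real.exp (-(t ^ 2 / 4)) * Real.exp (t ^ 2 / 4) = 1 := by
    rw [← Real.exp_add]; simp
  have h4 : 0 < Real.exp (-(t ^ 2 / 4)) := Real.exp_pos _
  have h5 : t ^ 2 * Real.exp (-(t ^ 2 / 4)) ≤ 4 := by
    have h6 : t ^ 2 ≤ 4 * Real.exp (t ^ 2 / 4) := by nlinarith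
    calc t ^ 2 * Real.exp (-(t ^ 2 / 4)) ≤ (4 * Real.exp (t ^ 2 / 4)) * Real.exp (-(t ^ 2 / 4)) :=
          mul_le_mul_of_nonneg_right h6 h4.le
      _ = 4 * (Real.exp (-(t ^ 2 / 4)) * Real.exp (t ^ 2 / 4)) := by ring
      _ = 4 := by rw [h3]; ring
  rw [h1]
  have h7 : 0 < Real.exp (-(1 / 4) * t ^ 2) := Real.exp_pos _
  calc t ^ 2 * (Real.exp (-(1 / 4) * t ^ 2) * Real.exp (-(t ^ 2 / 4)))
      = Real.exp (-(1 / 4) * t ^ 2) * (t ^ 2 * Real.exp (-(t ^ 2 / 4))) := by ring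
    _ ≤ Real.exp (-(1 / 4) * t ^ 2) * 4 := mul_le_mul_of_nonneg_left h5 h7.le
    _ = 4 * Real.exp (-(1 / 4) * t ^ 2) := by ring

theorem gauss_facts (d : ℕ) : Continuous (gauss (d := d)) ∧ (∀ z : E d, 0 < gauss z) ∧
    Integrable (gauss (d := d)) ∧ (∫ z : E d, gauss z) = 1 ∧
    Integrable (fun z : E d => ‖z‖ * gauss z) ∧ Integrable (fun z : E d => ‖z‖ ^ 2 * gauss z) ∧
    ∀ z v : E d, HasFDerivAt (gauss (d := d)) (-(gauss z) • (innerSL ℝ z)) z := by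
  have hc : 0 < (2 * Real.pi) ^ (-(d : ℝ) / 2) := Real.rpow_pos_of_pos (by positivity) _
  have hcont : Continuous (gauss (d := d)) := by
    unfold gauss
    fun_prop
  have hpos : ∀ z : E d, 0 < gauss z := fun z => mul_pos hc (Real.exp_pos _)
  have hgauss : (gauss (d := d)) = fun z : E d =>
      (2 * Real.pi) ^ (-(d : ℝ) / 2) * Real.exp (-(1 / 2) * ‖z‖ ^ 2) := by
    funext z
    unfold gauss
    congr 2
    ring
  have hI4 := aux_int_exp d (1 / 4) (by norm_num)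
  refine ⟨hcont, hpos, ?_, ?_, ?_, ?_, ?_⟩
  · rw [hgauss]
    exact (aux_int_exp d (1 / 2) (by norm_num)).const_mul _
  · rw [hgauss, integral_const_mul, GaussianFourier.integral_rexp_neg_mul_sq_norm (by norm_num)]
    rw [finrank_euclideanSpace, Fintype.card_fin]
    have : Real.pi / (1 / 2) = 2 * Real.pi := by ring
    rw [this, ← Real.rpow_add (by positivity)]
    have h0 : -(d : ℝ) / 2 + (d : ℝ) / 2 = 0 := by ring
    rw [h0, Real.rpow_zero]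
  · refine Integrable.mono' (hI4.const_mul ((2 * Real.pi) ^ (-(d : ℝ) / 2) * 4)) ?_ ?_
    · exact (continuous_norm.mul hcont).aestronglyMeasurable
    · refine Filter.Eventually.of_forall fun z => ?_
      have h1 := aux_bd1 ‖z‖ (norm_nonneg z)
      rw [Real.norm_of_nonneg (mul_nonneg (norm_nonneg _) (hpos z).le)]
      unfold gauss
      calc ‖z‖ * ((2 * Real.pi) ^ (-(d : ℝ) / 2) * Real.exp (-(‖z‖ ^ 2) / 2))
          = (2 * Real.pi) ^ (-(d : ℝ) / 2) * (‖z‖ * Real.exp (-(‖z‖ ^ 2) / 2)) := by ring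
        _ ≤ (2 * Real.pi) ^ (-(d : ℝ) / 2) * (4 * Real.exp (-(1 / 4) * ‖z‖ ^ 2)) :=
            mul_le_mul_of_nonneg_left h1 hc.le
        _ = (2 * Real.pi) ^ (-(d : ℝ) / 2) * 4 * Real.exp (-(1 / 4) * ‖z‖ ^ 2) := by ring
  · refine Integrable.mono' (hI4.const_mul ((2 * Real.pi) ^ (-(d : ℝ) / 2) * 4)) ?_ ?_
    · exact ((continuous_norm.pow 2).mul hcont).aestronglyMeasurable
    · refine Filter.Eventually.of_forall fun z => ?_
      have h1 := aux_bd2 ‖z‖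
      rw [Real.norm_of_nonneg (mul_nonneg (by positivity) (hpos z).le)]
      unfold gauss
      calc ‖z‖ ^ 2 * ((2 * Real.pi) ^ (-(d : ℝ) / 2) * Real.exp (-(‖z‖ ^ 2) / 2))
          = (2 * Real.pi) ^ (-(d : ℝ) / 2) * (‖z‖ ^ 2 * Real.exp (-(‖z‖ ^ 2) / 2)) := by ring
        _ ≤ (2 * Real.pi) ^ (-(d : ℝ) / 2) * (4 * Real.exp (-(1 / 4) * ‖z‖ ^ 2)) :=
            mul_le_mul_of_nonneg_left h1 hc.le
        _ = (2 * Real.pi) ^ (-(d : ℝ) / 2) * 4 * Real.exp (-(1 / 4) * ‖z‖ ^ 2) := by ring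
  · intro z v
    rw [hgauss]
    have h1 : HasFDerivAt (fun w : E d => ‖w‖ ^ 2) (2 • (innerSL ℝ z)) z :=
      (hasStrictFDerivAt_norm_sq z).hasFDerivAt
    have h2 := ((h1.const_mul (-(1 / 2 : ℝ))).exp).const_mul ((2 * Real.pi) ^ (-(d : ℝ) / 2))
    refine h2.congr_fderiv ?_
    ext w
    simp
    ring

end

end ExtStar
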