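import Pool.Agent.H631.EX.Defs
import Pool.Agent.H631.EX.Y01

open Set Metric Filter Topology MeasureTheory

namespace ExtStar

noncomputable section

/-! TARGET: prove the following -/

theorem hc1_bound {d : ℕ} (a a0 : E d) (h : ‖a - a0‖ ≤ 1) :
    ‖a‖ * gauss a ≤ Real.exp (1/2) * ((Real.sqrt 2 * ‖(Real.sqrt 2)⁻¹ • a0‖ + 1) *
      gauss ((Real.sqrt 2)⁻¹ • a0)) := by
  have h2 : (0:ℝ) < Real.sqrt 2 := by positivity
  have hn : ‖(Real.sqrt 2)⁻¹ • a0‖ = (Real.sqrt 2)⁻¹ * ‖a0‖ := by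
    rw [norm_smul, Real.norm_of_nonneg (by positivity)]
  have hn2 : Real.sqrt 2 * ‖(Real.sqrt 2)⁻¹ • a0‖ = ‖a0‖ := by
    rw [hn, ← mul_assoc, mul_inv_cancel₀ h2.ne', one_mul]
  have hn3 : ‖(Real.sqrt 2)⁻¹ • a0‖ ^ 2 = ‖a0‖ ^ 2 / 2 := by
    rw [hn, mul_pow, inv_pow, Real.sq_sqrt (by norm_num)]; ring
  rw [hn2]
  unfold gauss
  rw [hn3]
  have hc : (0:ℝ) ≤ (2 * Real.pi) ^ (-(d : ℝ) / 2) := by positivity
  have ha1 : ‖a‖ ≤ ‖a0‖ + 1 := by
    have := norm_le_norm_add_norm_sub a0 a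
    rw [norm_sub_rev] at this
    linarith
  have ha2 : ‖a0‖ ≤ ‖a‖ + 1 := by
    have := norm_le_norm_add_norm_sub a a0
    linarith
  have hexp : Real.exp (-(‖a‖ ^ 2) / 2) ≤ Real.exp (1/2) * Real.exp (-(‖a0‖ ^ 2 / 2) / 2) := by
    rw [← Real.exp_add]
    apply Real.exp_le_exp.2
    have h3 : ‖a0‖ ^ 2 ≤ (‖a‖ + 1) ^ 2 := pow_le_pow_left₀ (norm_nonneg _) ha2 2
    nlinarith [sq_nonneg (‖a‖ - 1)]
  calc ‖a‖ * ((2 * Real.pi) ^ (-(d : ℝ) / 2) * Real.exp (-(‖a‖ ^ 2) / 2))
      ≤ (‖a0‖ + 1) * ((2 * Real.pi) ^ (-(d : ℝ) / 2) * (Real.exp (1/2) * Real.exp (-(‖a0‖ ^ 2 / 2) / 2))) := by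
        apply mul_le_mul ha1 _ (by positivity) (by positivity)
        exact mul_le_mul_of_nonneg_left hexp hc
    _ = _ := by ring

theorem heat_C1 (d : ℕ) : ∃ C : ℝ, 0 < C ∧ ∀ (g : E d → ℝ) (M t : ℝ), Continuous g →
    (∀ x, |g x| ≤ M) → 0 < t → ContDiff ℝ 1 (heat t g) ∧
      (∀ x, |heat t g x| ≤ M) ∧ (∀ x, ‖fderiv ℝ (heat t g) x‖ ≤ C * M / Real.sqrt t) ∧
      ∀ x v : E d, fderiv ℝ (heat t g) x v =
        (Real.sqrt (2 * t))⁻¹ * ∫ z : E d, inner ℝ z v * gauss z * g (x + Real.sqrt (2 * t) • z) := by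
  obtain ⟨gc, gpos, gint, gone, gint1, gint2, gder⟩ := gauss_facts d
  obtain ⟨C0, hC0⟩ : ∃ C0 : ℝ, C0 = ∫ z : E d, ‖z‖ * gauss z := ⟨_, rfl⟩
  have hC0n : 0 ≤ C0 := by
    rw [hC0]; exact integral_nonneg (fun z => mul_nonneg (norm_nonneg _) (gpos z).le)
  refine ⟨C0 + 1, by linarith, ?_⟩
  intro g M t hg hM ht
  obtain ⟨s, hs⟩ : ∃ s : ℝ, s = Real.sqrt (2 * t) := ⟨_, rfl⟩
  have hs0 : 0 < s := by rw [hs]; positivity
  have hM0 : 0 ≤ M := (abs_nonneg _).trans (hM 0)
  have hgf : Continuous (fun z : E d => gauss z) := gc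
  have htr : ∀ x : E d, heat t g x = ∫ w : E d, gauss (w - s⁻¹ • x) * g (s • w) := by
    intro x
    rw [heat, ← hs]
    rw [← integral_sub_right_eq_self (fun z => gauss z * g (x + s • z)) (s⁻¹ • x)]
    congr 1; ext w
    congr 2
    rw [smul_sub, smul_smul, mul_inv_cancel₀ hs0.ne', one_smul]; abel
  obtain ⟨D, hD⟩ : ∃ D : E d → (E d →L[ℝ] ℝ),
      D = fun x => ∫ z : E d, (g (x + s • z) * s⁻¹ * gauss z) • innerSL ℝ z := ⟨_, rfl⟩
  have hDtr : ∀ x : E d, D x = ∫ w : E d, (g (s • w) * s⁻¹ * gauss (w - s⁻¹ • x)) • innerSL ℝ (w - s⁻¹ • x) := by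
    intro x
    rw [hD]
    simp only
    rw [← integral_sub_right_eq_self (fun z => (g (x + s • z) * s⁻¹ * gauss z) • innerSL ℝ z) (s⁻¹ • x)]
    congr 1; ext1 w
    congr 4
    rw [smul_sub, smul_smul, mul_inv_cancel₀ hs0.ne', one_smul]; abel
  have hcontD : ∀ x : E d, Continuous (fun z : E d => (g (x + s • z) * s⁻¹ * gauss z) • innerSL ℝ z) := by
    intro x
    have h1 : Continuous (fun z : E d => innerSL ℝ z) := (innerSL ℝ).continuous
    have h2 : Continuous (fun z : E d => g (x + s • z)) := hg.comp (by fun_prop)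
    exact ((h2.mul continuous_const).mul hgf).smul h1
  have hbD : ∀ x z : E d, ‖(g (x + s • z) * s⁻¹ * gauss z) • innerSL ℝ z‖ ≤ M * s⁻¹ * (‖z‖ * gauss z) := by
    intro x z
    rw [norm_smul, innerSL_apply_norm, Real.norm_eq_abs, abs_mul, abs_mul,
      abs_of_pos (gpos z), abs_of_pos (inv_pos.2 hs0)]
    have h1 := hM (x + s • z)
    have h2 := (gpos z).le
    have h3 := inv_pos.2 hs0
    calc |g (x + s • z)| * s⁻¹ * gauss z * ‖z‖ ≤ M * s⁻¹ * gauss z * ‖z‖ := by gcongr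
      _ = _ := by ring
  have hintb : Integrable (fun z : E d => M * s⁻¹ * (‖z‖ * gauss z)) := gint1.const_mul _
  have hder : ∀ x0 : E d, HasFDerivAt (heat t g) (D x0) x0 := by
    intro x0
    have heq : heat t g = fun x => ∫ w, gauss (w - s⁻¹ • x) * g (s • w) := funext htr
    rw [heq, hDtr x0]
    apply hasFDerivAt_integral_of_dominated_of_fderiv_le (s := ball x0 s)
      (F' := fun x w => (g (s • w) * s⁻¹ * gauss (w - s⁻¹ • x)) • innerSL ℝ (w - s⁻¹ • x))
      (bound := fun w => M * s⁻¹ * (Real.exp (1/2) * ((Real.sqrt 2 * ‖(Real.sqrt 2)⁻¹ • (w - s⁻¹ • x0)‖ + 1) *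
        gauss ((Real.sqrt 2)⁻¹ • (w - s⁻¹ • x0)))))
    · exact ball_mem_nhds _ hs0
    · refine Eventually.of_forall fun x => Continuous.aestronglyMeasurable ?_
      exact (hgf.comp (by fun_prop)).mul (hg.comp (by fun_prop))
    · refine ((gint.comp_sub_right (s⁻¹ • x0)).const_mul M).mono' ?_ ?_
      · apply Continuous.aestronglyMeasurable
        exact (hgf.comp (by fun_prop)).mul (hg.comp (by fun_prop))
      · refine Eventually.of_forall fun w => ?_
        rw [Real.norm_eq_abs, abs_mul, abs_of_pos (gpos _), mul_comm]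
        exact mul_le_mul_of_nonneg_right (hM _) (gpos _).le
    · apply Continuous.aestronglyMeasurable
      have h1 : Continuous (fun z : E d => innerSL ℝ (z - s⁻¹ • x0)) := (innerSL ℝ).continuous.comp (by fun_prop)
      have h2 : Continuous (fun z : E d => g (s • z)) := hg.comp (by fun_prop)
      have h3 : Continuous (fun z : E d => gauss (z - s⁻¹ • x0)) := hgf.comp (by fun_prop)
      exact ((h2.mul continuous_const).mul h3).smul h1
    · refine Eventually.of_forall fun w x hx => ?_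
      rw [norm_smul, innerSL_apply_norm, Real.norm_eq_abs, abs_mul, abs_mul,
        abs_of_pos (gpos _), abs_of_pos (inv_pos.2 hs0)]
      have h1 := hM (s • w)
      have h3 := inv_pos.2 hs0
      have h4 : ‖(w - s⁻¹ • x) - (w - s⁻¹ • x0)‖ ≤ 1 := by
        have : (w - s⁻¹ • x) - (w - s⁻¹ • x0) = s⁻¹ • (x0 - x) := by rw [smul_sub]; abel
        rw [this, norm_smul, Real.norm_of_nonneg h3.le]
        rw [mem_ball, dist_eq_norm, norm_sub_rev] at hx
        calc s⁻¹ * ‖x0 - x‖ ≤ s⁻¹ * s := by gcongr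
          _ = 1 := inv_mul_cancel₀ hs0.ne'
      have h5 := hc1_bound (w - s⁻¹ • x) (w - s⁻¹ • x0) h4
      have h6 := (gpos (w - s⁻¹ • x)).le
      calc |g (s • w)| * s⁻¹ * gauss (w - s⁻¹ • x) * ‖w - s⁻¹ • x‖
          ≤ M * s⁻¹ * gauss (w - s⁻¹ • x) * ‖w - s⁻¹ • x‖ := by gcongr
        _ = M * s⁻¹ * (‖w - s⁻¹ • x‖ * gauss (w - s⁻¹ • x)) := by ring
        _ ≤ _ := by gcongr
    · have hG : Integrable (fun b : E d => (Real.sqrt 2 * ‖b‖ + 1) * gauss b) := by
        have := (gint1.const_mul (Real.sqrt 2)).add gint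
        refine this.congr (Eventually.of_forall fun b => ?_)
        simp only [Pi.add_apply]
        ring
      have h2 : (Real.sqrt 2)⁻¹ ≠ 0 := by positivity
      exact (((hG.comp_smul h2).comp_sub_right (s⁻¹ • x0)).const_mul (Real.exp (1/2))).const_mul (M * s⁻¹)
    · refine Eventually.of_forall fun w x _ => ?_
      have h1 : HasFDerivAt (fun x : E d => w - s⁻¹ • x) (-(s⁻¹ • ContinuousLinearMap.id ℝ (E d))) x :=
        ((hasFDerivAt_id x).const_smul s⁻¹).const_sub w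
      have h2 := ((gder (w - s⁻¹ • x) 0).comp x h1).mul_const (g (s • w))
      refine HasFDerivAt.congr_fderiv h2 ?_
      ext v
      simp [inner_neg_right, inner_smul_right]
      ring
  have hfd : fderiv ℝ (heat t g) = D := funext fun x => (hder x).fderiv
  refine ⟨?_, ?_, ?_, ?_⟩
  · rw [contDiff_one_iff_fderiv]
    refine ⟨fun x => (hder x).differentiableAt, ?_⟩
    rw [hfd, hD]
    apply continuous_of_dominated (bound := fun z : E d => M * s⁻¹ * (‖z‖ * gauss z))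
    · intro x; exact (hcontD x).aestronglyMeasurable
    · intro x; exact Eventually.of_forall (hbD x)
    · exact hintb
    · refine Eventually.of_forall fun z => ?_
      have h2 : Continuous (fun x : E d => g (x + s • z)) := hg.comp (by fun_prop)
      exact ((h2.mul continuous_const).mul continuous_const).smul continuous_const
  · intro x
    rw [heat, ← Real.norm_eq_abs]
    refine (norm_integral_le_of_norm_le (gint.const_mul M) (Eventually.of_forall fun z => ?_)).trans ?_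
    · rw [Real.norm_eq_abs, abs_mul, abs_of_pos (gpos _), mul_comm]
      exact mul_le_mul_of_nonneg_right (hM _) (gpos _).le
    · rw [integral_const_mul, gone, mul_one]
  · intro x
    rw [hfd, hD]
    refine (norm_integral_le_of_norm_le hintb (Eventually.of_forall (hbD x))).trans ?_
    rw [integral_const_mul, ← hC0]
    have h1 : Real.sqrt t ≤ s := by rw [hs]; exact Real.sqrt_le_sqrt (by linarith)
    have h2 : 0 < Real.sqrt t := Real.sqrt_pos.2 ht
    have h3 : s⁻¹ ≤ (Real.sqrt t)⁻¹ := inv_anti₀ h2 h1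
    calc M * s⁻¹ * C0 ≤ M * (Real.sqrt t)⁻¹ * (C0 + 1) := by
          have : 0 ≤ s⁻¹ := (inv_pos.2 hs0).le
          gcongr
          linarith
      _ = _ := by rw [div_eq_mul_inv]; ring
  · intro x v
    rw [hfd, hD, ← hs]
    simp only
    rw [ContinuousLinearMap.integral_apply (hintb.mono' (hcontD x).aestronglyMeasurable (Eventually.of_forall (hbD x))),
      ← integral_const_mul]
    congr 1
    ext z
    simp
    ring

end

end ExtStar
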