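import Pool.Agent.H631.EX.Defs
import Pool.Agent.H631.EX.Y01
import Pool.Agent.H631.EX.Y02

open Set Metric Filter Topology MeasureTheory

namespace ExtStar

noncomputable section

/-! TARGET: prove the following -/

theorem heat_cont_t {d : ℕ} (g : E d → ℝ) (hg : Continuous g) (M : ℝ) (hM : ∀ x, |g x| ≤ M) :
    ContinuousOn (fun p : ℝ × E d => heat p.1 g p.2) (Ici (0 : ℝ) ×ˢ univ) ∧
      (∀ x, heat 0 g x = g x) ∧
      ContinuousOn (fun p : ℝ × E d => fderiv ℝ (heat p.1 g) p.2) (Ioi (0 : ℝ) ×ˢ univ) := by
  obtain ⟨gc, gpos, gint, gone, gint1, gint2, gder⟩ := gauss_facts d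
  have hM0 : 0 ≤ M := (abs_nonneg _).trans (hM 0)
  have hFc : Continuous (fun q : (ℝ × E d) × E d => g (q.1.2 + Real.sqrt (2 * q.1.1) • q.2)) := by
    apply hg.comp
    fun_prop
  refine ⟨?_, ?_, ?_⟩
  · apply Continuous.continuousOn
    unfold heat
    apply continuous_of_dominated (bound := fun z : E d => M * gauss z)
    · intro p
      have h1 : Continuous (fun z : E d => g (p.2 + Real.sqrt (2 * p.1) • z)) :=
        hFc.comp (Continuous.prodMk continuous_const continuous_id)
      exact (gc.mul h1).aestronglyMeasurable
    · intro p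
      refine Filter.Eventually.of_forall (fun z => ?_)
      rw [Real.norm_eq_abs, abs_mul, abs_of_pos (gpos z), mul_comm]
      exact mul_le_mul_of_nonneg_right (hM _) (gpos z).le
    · exact gint.const_mul M
    · refine Filter.Eventually.of_forall (fun z => ?_)
      have h1 : Continuous (fun p : ℝ × E d => g (p.2 + Real.sqrt (2 * p.1) • z)) :=
        hFc.comp (Continuous.prodMk continuous_id continuous_const)
      exact continuous_const.mul h1
  · intro x
    unfold heat
    simp only [mul_zero, Real.sqrt_zero, zero_smul, add_zero]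
    rw [integral_mul_const, gone, one_mul]
  · rw [continuousOn_clm_apply]
    intro v
    obtain ⟨C, hC, hh⟩ := heat_C1 d
    have hcont : Continuous (fun p : ℝ × E d =>
        ∫ z : E d, inner ℝ z v * gauss z * g (p.2 + Real.sqrt (2 * p.1) • z)) := by
      apply continuous_of_dominated (bound := fun z : E d => (M * ‖v‖) * (‖z‖ * gauss z))
      · intro p
        have h1 : Continuous (fun z : E d => g (p.2 + Real.sqrt (2 * p.1) • z)) :=
          hFc.comp (Continuous.prodMk continuous_const continuous_id)
        have h2 : Continuous (fun z : E d => (inner ℝ z v : ℝ)) := by fun_prop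
        exact ((h2.mul gc).mul h1).aestronglyMeasurable
      · intro p
        refine Filter.Eventually.of_forall (fun z => ?_)
        rw [Real.norm_eq_abs, abs_mul, abs_mul, abs_of_pos (gpos z)]
        have h1 : |inner ℝ z v| ≤ ‖z‖ * ‖v‖ := abs_real_inner_le_norm z v
        have h2 := hM (p.2 + Real.sqrt (2 * p.1) • z)
        calc |inner ℝ z v| * gauss z * |g (p.2 + Real.sqrt (2 * p.1) • z)|
            ≤ (‖z‖ * ‖v‖) * gauss z * M := by
              apply mul_le_mul _ h2 (abs_nonneg _)
              · exact mul_nonneg (mul_nonneg (norm_nonneg _) (norm_nonneg _)) (gpos z).le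
              · exact mul_le_mul_of_nonneg_right h1 (gpos z).le
          _ = (M * ‖v‖) * (‖z‖ * gauss z) := by ring
      · exact gint1.const_mul _
      · refine Filter.Eventually.of_forall (fun z => ?_)
        have h1 : Continuous (fun p : ℝ × E d => g (p.2 + Real.sqrt (2 * p.1) • z)) :=
          hFc.comp (Continuous.prodMk continuous_id continuous_const)
        exact continuous_const.mul h1
    have hmain : ContinuousOn (fun p : ℝ × E d => (Real.sqrt (2 * p.1))⁻¹ *
        ∫ z : E d, inner ℝ z v * gauss z * g (p.2 + Real.sqrt (2 * p.1) • z))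
        (Ioi (0 : ℝ) ×ˢ univ) := by
      apply ContinuousOn.mul _ hcont.continuousOn
      apply ContinuousOn.inv₀
      · apply Continuous.continuousOn
        fun_prop
      · intro p hp
        have hp1 : 0 < p.1 := hp.1
        exact (Real.sqrt_pos.mpr (by linarith)).ne'
    refine hmain.congr ?_
    intro p hp
    have hp1 : 0 < p.1 := hp.1
    exact (hh g M p.1 hg hM hp1).2.2.2 p.2 v

end

end ExtStar
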