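import Pool.Agent.H631.EX.Defs
import Pool.Agent.H631.EX.Y01
import Pool.Agent.H631.EX.Y02
import Pool.Agent.H631.ES.X03

open Set Metric Filter Topology MeasureTheory

namespace ExtStar

noncomputable section

/-! TARGET: prove the following -/

theorem hg_aux1 {d : ℕ} (g : E d → ℝ) (hg : ContDiff ℝ 1 g) (M M' : ℝ) (hM : ∀ x, |g x| ≤ M)
    (hM' : ∀ x, ‖fderiv ℝ g x‖ ≤ M') (t : ℝ) (x : E d) :
    HasFDerivAt (heat t g) (∫ z : E d, gauss z • fderiv ℝ g (x + Real.sqrt (2 * t) • z)) x := by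
  obtain ⟨gc, gp, gi, g1, gi1, gi2, gd⟩ := gauss_facts d
  have hgc : Continuous g := hg.continuous
  have hfc : Continuous (fderiv ℝ g) := hg.continuous_fderiv (by norm_num)
  have hgd : Differentiable ℝ g := hg.differentiable (by norm_num)
  have key := hasFDerivAt_integral_of_dominated_of_fderiv_le (𝕜 := ℝ) (μ := (volume : Measure (E d)))
    (F := fun (x : E d) (z : E d) => gauss z * g (x + Real.sqrt (2 * t) • z))
    (F' := fun (x : E d) (z : E d) => gauss z • fderiv ℝ g (x + Real.sqrt (2 * t) • z))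
    (x₀ := x) (s := univ) (bound := fun z => M' * gauss z) univ_mem ?_ ?_ ?_ ?_ ?_ ?_
  · exact key
  · refine Filter.Eventually.of_forall (fun y => ?_)
    exact (gc.mul (hgc.comp (by fun_prop))).aestronglyMeasurable
  · refine Integrable.mono' (gi.const_mul M) ?_ ?_
    · exact (gc.mul (hgc.comp (by fun_prop))).aestronglyMeasurable
    · refine Filter.Eventually.of_forall (fun z => ?_)
      rw [Real.norm_eq_abs, abs_mul, abs_of_pos (gp z), mul_comm]
      exact mul_le_mul_of_nonneg_right (hM _) (gp z).le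
  · exact (gc.smul (hfc.comp (by fun_prop))).aestronglyMeasurable
  · refine Filter.Eventually.of_forall (fun z y _ => ?_)
    rw [norm_smul, Real.norm_eq_abs, abs_of_pos (gp z), mul_comm]
    exact mul_le_mul_of_nonneg_right (hM' _) (gp z).le
  · exact gi.const_mul M'
  · refine Filter.Eventually.of_forall (fun z y _ => ?_)
    have h1 : HasFDerivAt g (fderiv ℝ g (y + Real.sqrt (2 * t) • z)) (y + Real.sqrt (2 * t) • z) :=
      (hgd _).hasFDerivAt
    have h2 : HasFDerivAt (fun y : E d => y + Real.sqrt (2 * t) • z)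
        (ContinuousLinearMap.id ℝ (E d)) y := (hasFDerivAt_id y).add_const _
    have h3 := (h1.comp y h2).const_mul (gauss z)
    simpa using h3

theorem hg_aux2 {d : ℕ} (g : E d → ℝ) (hg : ContDiff ℝ 1 g) (M M' : ℝ) (hM : ∀ x, |g x| ≤ M)
    (hM' : ∀ x, ‖fderiv ℝ g x‖ ≤ M') (t : ℝ) (x v : E d) :
    fderiv ℝ (heat t g) x v = heat t (fun y => fderiv ℝ g y v) x := by
  obtain ⟨gc, gp, gi, g1, gi1, gi2, gd⟩ := gauss_facts d
  have hfc : Continuous (fderiv ℝ g) := hg.continuous_fderiv (by norm_num)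
  rw [(hg_aux1 g hg M M' hM hM' t x).fderiv]
  rw [ContinuousLinearMap.integral_apply]
  · rfl
  · refine Integrable.mono' (gi.const_mul M') ?_ ?_
    · exact (gc.smul (hfc.comp (by fun_prop))).aestronglyMeasurable
    · refine Filter.Eventually.of_forall (fun z => ?_)
      rw [norm_smul, Real.norm_eq_abs, abs_of_pos (gp z), mul_comm]
      exact mul_le_mul_of_nonneg_right (hM' _) (gp z).le

theorem hg_aux3 {d : ℕ} (g : E d → ℝ) (hg : ContDiff ℝ 1 g) (M M' : ℝ) (hM : ∀ x, |g x| ≤ M)
    (hM' : ∀ x, ‖fderiv ℝ g x‖ ≤ M') (t : ℝ) (ht : 0 < t) : ContDiff ℝ 2 (heat t g) := by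
  obtain ⟨C, hC, hall⟩ := heat_C1 d
  have hfc : Continuous (fderiv ℝ g) := hg.continuous_fderiv (by norm_num)
  have h1 := (hall g M t hg.continuous hM ht).1
  have h2 : ContDiff ℝ (1 + 1) (heat t g) := by
    rw [contDiff_succ_iff_fderiv]
    refine ⟨h1.differentiable (by norm_num), by simp, ?_⟩
    rw [contDiff_clm_apply_iff]
    intro v
    have h3 : (fun x => fderiv ℝ (heat t g) x v) = heat t (fun y => fderiv ℝ g y v) := by
      funext x
      exact hg_aux2 g hg M M' hM hM' t x v
    rw [h3]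
    refine (hall (fun y => fderiv ℝ g y v) (M' * ‖v‖) t (hfc.clm_apply continuous_const) ?_ ht).1
    intro x
    rw [← Real.norm_eq_abs]
    exact ((fderiv ℝ g x).le_opNorm v).trans (mul_le_mul_of_nonneg_right (hM' x) (norm_nonneg v))
  have h4 : (1 + 1 : WithTop ℕ∞) = 2 := by norm_num
  rwa [h4] at h2

theorem hg_aux4 {d : ℕ} (g : E d → ℝ) (hg : ContDiff ℝ 1 g) (M M' : ℝ) (hM : ∀ x, |g x| ≤ M)
    (hM' : ∀ x, ‖fderiv ℝ g x‖ ≤ M') (t : ℝ) (ht : 0 < t) (x : E d) :
    HasDerivAt (fun s => heat s g x)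
      (∫ z : E d, gauss z * ((Real.sqrt (2 * t))⁻¹ * fderiv ℝ g (x + Real.sqrt (2 * t) • z) z)) t := by
  obtain ⟨gc, gp, gi, g1, gi1, gi2, gd⟩ := gauss_facts d
  have hgc : Continuous g := hg.continuous
  have hfc : Continuous (fderiv ℝ g) := hg.continuous_fderiv (by norm_num)
  have hgd : Differentiable ℝ g := hg.differentiable (by norm_num)
  have key := hasDerivAt_integral_of_dominated_loc_of_deriv_le (𝕜 := ℝ)
    (μ := (volume : Measure (E d)))
    (F := fun (s : ℝ) (z : E d) => gauss z * g (x + Real.sqrt (2 * s) • z))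
    (F' := fun (s : ℝ) (z : E d) =>
      gauss z * ((Real.sqrt (2 * s))⁻¹ * fderiv ℝ g (x + Real.sqrt (2 * s) • z) z))
    (x₀ := t) (s := Ioi (t / 2)) (bound := fun z => (Real.sqrt t)⁻¹ * M' * (‖z‖ * gauss z))
    (Ioi_mem_nhds (by linarith)) ?_ ?_ ?_ ?_ ?_ ?_
  · exact key.2
  · refine Filter.Eventually.of_forall (fun y => ?_)
    exact (gc.mul (hgc.comp (by fun_prop))).aestronglyMeasurable
  · refine Integrable.mono' (gi.const_mul M) ?_ ?_
    · exact (gc.mul (hgc.comp (by fun_prop))).aestronglyMeasurable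
    · refine Filter.Eventually.of_forall (fun z => ?_)
      rw [Real.norm_eq_abs, abs_mul, abs_of_pos (gp z), mul_comm]
      exact mul_le_mul_of_nonneg_right (hM _) (gp z).le
  · refine (gc.mul (continuous_const.mul ?_)).aestronglyMeasurable
    exact (hfc.comp (by fun_prop)).clm_apply continuous_id
  · refine Filter.Eventually.of_forall (fun z s hs => ?_)
    have hs' : t / 2 < s := hs
    have hst : Real.sqrt t ≤ Real.sqrt (2 * s) := Real.sqrt_le_sqrt (by linarith)
    have hpt : 0 < Real.sqrt t := Real.sqrt_pos.mpr ht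
    have hinv : (Real.sqrt (2 * s))⁻¹ ≤ (Real.sqrt t)⁻¹ := inv_anti₀ hpt hst
    have hinv0 : 0 ≤ (Real.sqrt (2 * s))⁻¹ := by positivity
    have h1 : ‖fderiv ℝ g (x + Real.sqrt (2 * s) • z) z‖ ≤ M' * ‖z‖ :=
      ((fderiv ℝ g _).le_opNorm z).trans (mul_le_mul_of_nonneg_right (hM' _) (norm_nonneg z))
    rw [norm_mul, norm_mul, Real.norm_eq_abs, Real.norm_eq_abs, abs_of_pos (gp z),
      abs_of_nonneg hinv0]
    calc gauss z * ((Real.sqrt (2 * s))⁻¹ * ‖fderiv ℝ g (x + Real.sqrt (2 * s) • z) z‖)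
        ≤ gauss z * ((Real.sqrt t)⁻¹ * (M' * ‖z‖)) := by
          refine mul_le_mul_of_nonneg_left ?_ (gp z).le
          exact mul_le_mul hinv h1 (norm_nonneg _) (by positivity)
      _ = (Real.sqrt t)⁻¹ * M' * (‖z‖ * gauss z) := by ring
  · exact gi1.const_mul _
  · refine Filter.Eventually.of_forall (fun z s hs => ?_)
    have hs' : t / 2 < s := hs
    have hs0 : (2 * s) ≠ 0 := by
      have : 0 < s := by linarith
      positivity
    have h1 : HasFDerivAt g (fderiv ℝ g (x + Real.sqrt (2 * s) • z)) (x + Real.sqrt (2 * s) • z) :=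
      (hgd _).hasFDerivAt
    have h0 : HasDerivAt (fun s : ℝ => 2 * s) 2 s := by
      simpa using (hasDerivAt_id s).const_mul 2
    have h00 : HasDerivAt (fun s : ℝ => Real.sqrt (2 * s)) ((Real.sqrt (2 * s))⁻¹) s := by
      have := h0.sqrt hs0
      have he : (2 : ℝ) / (2 * Real.sqrt (2 * s)) = (Real.sqrt (2 * s))⁻¹ := by
        rw [mul_comm, div_mul_eq_div_div, inv_eq_one_div]
        rw [div_right_comm]
        norm_num
      rwa [he] at this
    have h2 : HasDerivAt (fun s : ℝ => x + Real.sqrt (2 * s) • z)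
        ((Real.sqrt (2 * s))⁻¹ • z) s := (h00.smul_const z).const_add x
    have h3 := (h1.comp_hasDerivAt s h2).const_mul (gauss z)
    simpa using h3

theorem hg_aux5 {d : ℕ} (z : E d) : z = ∑ i : Fin d, inner ℝ z (EuclideanSpace.single i (1:ℝ)) •
    EuclideanSpace.single i (1:ℝ) := by
  have h := (EuclideanSpace.basisFun (Fin d) ℝ).sum_repr z
  conv_lhs => rw [← h]
  refine Finset.sum_congr rfl (fun i _ => ?_)
  rw [EuclideanSpace.basisFun_repr, EuclideanSpace.basisFun_apply]
  simp [EuclideanSpace.inner_single_right]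

theorem hg_aux6 {d : ℕ} (L : E d →L[ℝ] ℝ) (z : E d) : L z = ∑ i : Fin d,
    inner ℝ z (EuclideanSpace.single i (1:ℝ)) * L (EuclideanSpace.single i (1:ℝ)) := by
  conv_lhs => rw [hg_aux5 z]
  rw [map_sum]
  refine Finset.sum_congr rfl (fun i _ => ?_)
  rw [map_smul, smul_eq_mul]

theorem heat_grad {d : ℕ} (g : E d → ℝ) (hg : ContDiff ℝ 1 g) (M M' : ℝ) (hM : ∀ x, |g x| ≤ M)
    (hM' : ∀ x, ‖fderiv ℝ g x‖ ≤ M') (t : ℝ) (ht : 0 < t) (v : E d) :
    (∀ x, fderiv ℝ (heat t g) x v = heat t (fun y => fderiv ℝ g y v) x) ∧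
      ContDiff ℝ 2 (heat t g) ∧ ∀ x, HasDerivAt (fun s => heat s g x) (lap (heat t g) x) t := by
  obtain ⟨gc, gp, gi, g1, gi1, gi2, gd⟩ := gauss_facts d
  have hfc : Continuous (fderiv ℝ g) := hg.continuous_fderiv (by norm_num)
  have hC2 := hg_aux3 g hg M M' hM hM' t ht
  refine ⟨fun x => hg_aux2 g hg M M' hM hM' t x v, hC2, fun x => ?_⟩
  have h4 := hg_aux4 g hg M M' hM hM' t ht x
  have hlap : lap (heat t g) x =
      ∫ z : E d, gauss z * ((Real.sqrt (2 * t))⁻¹ * fderiv ℝ g (x + Real.sqrt (2 * t) • z) z) := by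
    obtain ⟨C, hC, hall⟩ := heat_C1 d
    have hdd : Differentiable ℝ (fderiv ℝ (heat t g)) := by
      have : ContDiff ℝ 1 (fderiv ℝ (heat t g)) := hC2.fderiv_right (m := 1) (by norm_num)
      exact this.differentiable (by norm_num)
    have hi : ∀ i : Fin d, iteratedFDeriv ℝ 2 (heat t g) x
        (fun _ => EuclideanSpace.single i (1 : ℝ)) =
        ∫ z : E d, (Real.sqrt (2 * t))⁻¹ * (inner ℝ z (EuclideanSpace.single i (1 : ℝ)) * gauss z *
          fderiv ℝ g (x + Real.sqrt (2 * t) • z) (EuclideanSpace.single i (1 : ℝ))) := by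
      intro i
      rw [iteratedFDeriv_two_apply]
      have e1 : fderiv ℝ (fun y => fderiv ℝ (heat t g) y (EuclideanSpace.single i (1 : ℝ))) x
          (EuclideanSpace.single i (1 : ℝ)) =
          fderiv ℝ (fderiv ℝ (heat t g)) x (EuclideanSpace.single i (1 : ℝ))
            (EuclideanSpace.single i (1 : ℝ)) := by
        rw [fderiv_clm_apply (hdd x) (differentiableAt_const _)]
        simp
      rw [← e1]
      have e2 : (fun y => fderiv ℝ (heat t g) y (EuclideanSpace.single i (1 : ℝ))) =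
          heat t (fun y => fderiv ℝ g y (EuclideanSpace.single i (1 : ℝ))) := by
        funext y
        exact hg_aux2 g hg M M' hM hM' t y _
      rw [e2]
      have e3 := (hall (fun y => fderiv ℝ g y (EuclideanSpace.single i (1 : ℝ)))
        (M' * ‖(EuclideanSpace.single i (1 : ℝ) : E d)‖) t (hfc.clm_apply continuous_const) (by
          intro x
          rw [← Real.norm_eq_abs]
          exact ((fderiv ℝ g x).le_opNorm _).trans
            (mul_le_mul_of_nonneg_right (hM' x) (norm_nonneg _))) ht).2.2.2 x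
        (EuclideanSpace.single i (1 : ℝ))
      rw [e3, integral_const_mul]
    unfold lap
    rw [Finset.sum_congr rfl (fun i _ => hi i)]
    rw [← integral_finsetSum]
    · refine integral_congr_ae (Filter.Eventually.of_forall (fun z => ?_))
      show ∑ i : Fin d, (Real.sqrt (2 * t))⁻¹ * (inner ℝ z (EuclideanSpace.single i (1 : ℝ)) *
          gauss z * fderiv ℝ g (x + Real.sqrt (2 * t) • z) (EuclideanSpace.single i (1 : ℝ))) =
        gauss z * ((Real.sqrt (2 * t))⁻¹ * fderiv ℝ g (x + Real.sqrt (2 * t) • z) z)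
      have e4 : fderiv ℝ g (x + Real.sqrt (2 * t) • z) z = ∑ i : Fin d,
          inner ℝ z (EuclideanSpace.single i (1:ℝ)) *
          fderiv ℝ g (x + Real.sqrt (2 * t) • z) (EuclideanSpace.single i (1:ℝ)) := by
        exact hg_aux6 _ z
      rw [e4, Finset.mul_sum, Finset.mul_sum]
      refine Finset.sum_congr rfl (fun i _ => ?_)
      ring
    · intro i _
      refine Integrable.mono' (gi1.const_mul ((Real.sqrt (2 * t))⁻¹ * M')) ?_ ?_
      · refine Continuous.aestronglyMeasurable ?_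
        refine continuous_const.mul (((Continuous.inner continuous_id continuous_const).mul gc).mul ?_)
        exact (hfc.comp (by fun_prop)).clm_apply continuous_const
      · refine Filter.Eventually.of_forall (fun z => ?_)
        have hn1 : ‖(EuclideanSpace.single i (1:ℝ) : E d)‖ = 1 := by simp
        have hin : ‖inner ℝ z (EuclideanSpace.single i (1:ℝ) : E d)‖ ≤ ‖z‖ := by
          have := norm_inner_le_norm (𝕜 := ℝ) z (EuclideanSpace.single i (1:ℝ) : E d)
          rwa [hn1, mul_one] at this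
        have hfd : ‖fderiv ℝ g (x + Real.sqrt (2 * t) • z) (EuclideanSpace.single i (1:ℝ))‖ ≤ M' := by
          have := ((fderiv ℝ g (x + Real.sqrt (2 * t) • z)).le_opNorm
            (EuclideanSpace.single i (1:ℝ)))
          rw [hn1, mul_one] at this
          exact this.trans (hM' _)
        have hinv0 : 0 ≤ (Real.sqrt (2 * t))⁻¹ := by positivity
        rw [norm_mul, norm_mul, norm_mul, Real.norm_of_nonneg hinv0, Real.norm_of_nonneg (gp z).le]
        calc (Real.sqrt (2 * t))⁻¹ * (‖inner ℝ z (EuclideanSpace.single i (1:ℝ) : E d)‖ * gauss z *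
              ‖fderiv ℝ g (x + Real.sqrt (2 * t) • z) (EuclideanSpace.single i (1:ℝ))‖)
            ≤ (Real.sqrt (2 * t))⁻¹ * (‖z‖ * gauss z * M') := by
              refine mul_le_mul_of_nonneg_left ?_ hinv0
              refine mul_le_mul ?_ hfd (norm_nonneg _) ?_
              · exact mul_le_mul_of_nonneg_right hin (gp z).le
              · exact mul_nonneg (norm_nonneg _) (gp z).le
          _ = (Real.sqrt (2 * t))⁻¹ * M' * (‖z‖ * gauss z) := by ring
  rw [hlap]
  exact h4

end

end ExtStar
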