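import Pool.Agent.H631.EX.Defs
import Pool.Agent.H631.EX.Y02
import Pool.Agent.H631.EX.Y03

open Set Metric Filter Topology MeasureTheory

namespace ExtStar

noncomputable section

/-! TARGET: prove the following -/

theorem res_C1 (d : ℕ) (m : ℝ) (hm : 0 < m) : ∃ C : ℝ, 0 < C ∧ ∀ (g : E d → ℝ) (M : ℝ), Continuous g →
    (∀ x, |g x| ≤ M) → ContDiff ℝ 1 (res m g) ∧ (∀ x, |res m g x| ≤ M / m) ∧
      ∀ x, ‖fderiv ℝ (res m g) x‖ ≤ C * M := by
  obtain ⟨C, hC0, hC⟩ := heat_C1 d
  obtain ⟨I, hI⟩ : ∃ I, I = ∫ t in Ioi (0:ℝ), Real.exp (-(m * t)) * (1 / Real.sqrt t) := ⟨_, rfl⟩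
  have hint1 : IntegrableOn (fun t : ℝ => Real.exp (-(m * t))) (Ioi 0) := by
    have h := exp_neg_integrableOn_Ioi 0 hm
    refine h.congr_fun (fun t _ => ?_) measurableSet_Ioi
    show Real.exp (-m * t) = Real.exp (-(m * t))
    rw [neg_mul]
  have hint2 : IntegrableOn (fun t : ℝ => Real.exp (-(m * t)) * (1 / Real.sqrt t)) (Ioi 0) := by
    have h := integrableOn_rpow_mul_exp_neg_mul_rpow (p := 1) (s := -(1/2)) (b := m)
      (by norm_num) one_pos hm
    refine h.congr_fun (fun t ht => ?_) measurableSet_Ioi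
    have ht0 : (0:ℝ) < t := ht
    show t ^ (-(1/2) : ℝ) * Real.exp (-m * t ^ (1:ℝ)) = Real.exp (-(m * t)) * (1 / Real.sqrt t)
    rw [Real.rpow_one, Real.rpow_neg ht0.le, ← Real.sqrt_eq_rpow, one_div, neg_mul, mul_comm]
  have hI0 : 0 ≤ I := by
    rw [hI]
    exact setIntegral_nonneg measurableSet_Ioi (fun t _ => by positivity)
  refine ⟨C * I + 1, by positivity, ?_⟩
  intro g M hg hM
  have hM0 : 0 ≤ M := (abs_nonneg _).trans (hM 0)
  have hct := heat_cont_t g hg M hM
  have hF : ∀ x, ContinuousOn (fun t : ℝ => Real.exp (-(m * t)) * heat t g x) (Ioi 0) := by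
    intro x
    apply ContinuousOn.mul (by fun_prop)
    exact hct.1.comp (by fun_prop : ContinuousOn (fun t : ℝ => (t, x)) (Ioi 0))
      (fun t (ht : (0:ℝ) < t) => ⟨mem_Ici.2 ht.le, mem_univ _⟩)
  have hF' : ∀ x, ContinuousOn (fun t : ℝ => Real.exp (-(m * t)) • fderiv ℝ (heat t g) x)
      (Ioi 0) := by
    intro x
    have h1 : ContinuousOn (fun t : ℝ => Real.exp (-(m * t))) (Ioi 0) := by fun_prop
    have hpair : ContinuousOn (fun t : ℝ => (t, x)) (Ioi (0:ℝ)) := by fun_prop
    have hmaps : MapsTo (fun t : ℝ => (t, x)) (Ioi (0:ℝ)) (Ioi (0:ℝ) ×ˢ univ) :=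
      fun t ht => ⟨ht, mem_univ _⟩
    have h3 := hct.2.2.comp hpair hmaps
    have h2 : ContinuousOn (fun t : ℝ => fderiv ℝ (heat t g) x) (Ioi 0) := h3
    exact h1.smul h2
  have hb1 : ∀ t ∈ Ioi (0:ℝ), ∀ x, ‖Real.exp (-(m * t)) * heat t g x‖ ≤
      Real.exp (-(m * t)) * M := by
    intro t ht x
    rw [norm_mul, Real.norm_eq_abs, Real.norm_eq_abs, abs_of_pos (Real.exp_pos _)]
    exact mul_le_mul_of_nonneg_left ((hC g M t hg hM ht).2.1 x) (Real.exp_pos _).le
  have hFi : ∀ x, Integrable (fun t : ℝ => Real.exp (-(m * t)) * heat t g x)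
      (volume.restrict (Ioi (0:ℝ))) := by
    intro x
    refine Integrable.mono' (hint1.mul_const M) ((hF x).aestronglyMeasurable measurableSet_Ioi) ?_
    rw [ae_restrict_iff' measurableSet_Ioi]
    exact ae_of_all _ fun t ht => hb1 t ht x
  have hb : ∀ t ∈ Ioi (0:ℝ), ∀ x, ‖Real.exp (-(m * t)) • fderiv ℝ (heat t g) x‖ ≤
      (C * M) * (Real.exp (-(m * t)) * (1 / Real.sqrt t)) := by
    intro t ht x
    rw [norm_smul, Real.norm_eq_abs, abs_of_pos (Real.exp_pos _)]
    calc _ ≤ Real.exp (-(m * t)) * (C * M / Real.sqrt t) :=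
          mul_le_mul_of_nonneg_left ((hC g M t hg hM ht).2.2.1 x) (Real.exp_pos _).le
      _ = _ := by ring
  have hder : ∀ x, HasFDerivAt (res m g)
      (∫ t in Ioi (0:ℝ), Real.exp (-(m * t)) • fderiv ℝ (heat t g) x) x := by
    intro x
    refine hasFDerivAt_integral_of_dominated_of_fderiv_le (μ := volume.restrict (Ioi (0:ℝ)))
      (F := fun x t => Real.exp (-(m * t)) * heat t g x)
      (F' := fun x t => Real.exp (-(m * t)) • fderiv ℝ (heat t g) x)
      (bound := fun t => (C * M) * (Real.exp (-(m * t)) * (1 / Real.sqrt t))) (s := univ)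
      univ_mem ?_ (hFi x) ((hF' x).aestronglyMeasurable measurableSet_Ioi) ?_
      (hint2.const_mul _) ?_
    · exact Eventually.of_forall fun y => (hF y).aestronglyMeasurable measurableSet_Ioi
    · rw [ae_restrict_iff' measurableSet_Ioi]
      exact ae_of_all _ fun t ht y _ => hb t ht y
    · rw [ae_restrict_iff' measurableSet_Ioi]
      refine ae_of_all _ fun t ht y _ => ?_
      have h1 := ((contDiff_one_iff_fderiv.1 (hC g M t hg hM ht).1).1 y).hasFDerivAt
      exact h1.const_mul _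
  have hfd : fderiv ℝ (res m g) =
      fun x => ∫ t in Ioi (0:ℝ), Real.exp (-(m * t)) • fderiv ℝ (heat t g) x := by
    funext x
    exact (hder x).fderiv
  refine ⟨contDiff_one_iff_fderiv.2 ⟨fun x => (hder x).differentiableAt, ?_⟩, ?_, ?_⟩
  · rw [hfd]
    refine continuous_of_dominated
      (bound := fun t => (C * M) * (Real.exp (-(m * t)) * (1 / Real.sqrt t)))
      (fun x => (hF' x).aestronglyMeasurable measurableSet_Ioi) (fun x => ?_)
      (hint2.const_mul _) ?_
    · rw [ae_restrict_iff' measurableSet_Ioi]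
      exact ae_of_all _ fun t ht => hb t ht x
    · rw [ae_restrict_iff' measurableSet_Ioi]
      refine ae_of_all _ fun t ht => ?_
      exact (contDiff_one_iff_fderiv.1 (hC g M t hg hM ht).1).2.const_smul (Real.exp (-(m * t)))
  · intro x
    have h1 : ‖∫ t in Ioi (0:ℝ), Real.exp (-(m * t)) * heat t g x‖ ≤
        ∫ t in Ioi (0:ℝ), Real.exp (-(m * t)) * M := by
      refine MeasureTheory.norm_integral_le_of_norm_le (hint1.mul_const M) ?_
      rw [ae_restrict_iff' measurableSet_Ioi]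
      exact ae_of_all _ fun t ht => hb1 t ht x
    have h2 : ∫ t in Ioi (0:ℝ), Real.exp (-(m * t)) * M = M / m := by
      rw [integral_mul_const]
      have h3 := integral_exp_mul_Ioi (neg_neg_of_pos hm) 0
      have h4 : (fun t : ℝ => Real.exp (-(m * t))) = fun t : ℝ => Real.exp (-m * t) := by
        funext t; rw [neg_mul]
      rw [h4, h3]
      simp
      field_simp
    rw [h2] at h1
    exact h1
  · intro x
    rw [hfd]
    have h1 : ‖∫ t in Ioi (0:ℝ), Real.exp (-(m * t)) • fderiv ℝ (heat t g) x‖ ≤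
        ∫ t in Ioi (0:ℝ), (C * M) * (Real.exp (-(m * t)) * (1 / Real.sqrt t)) := by
      refine MeasureTheory.norm_integral_le_of_norm_le (hint2.const_mul (C * M)) ?_
      rw [ae_restrict_iff' measurableSet_Ioi]
      exact ae_of_all _ fun t ht => hb t ht x
    rw [integral_const_mul, ← hI] at h1
    show ‖∫ t in Ioi (0:ℝ), Real.exp (-(m * t)) • fderiv ℝ (heat t g) x‖ ≤ (C * I + 1) * M
    nlinarith


end

end ExtStar
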