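import Pool.Agent.H631.EX.Defs
import Pool.Agent.H631.EX.Y02
import Pool.Agent.H631.EX.Y03
import Pool.Agent.H631.EX.Y04
import Pool.Agent.H631.EX.Y05
import Pool.Agent.H631.ES.X03

open Set Metric Filter Topology MeasureTheory

namespace ExtStar

noncomputable section

/-! TARGET: prove the following -/

theorem aux_bound_int (m : ℝ) (hm : 0 < m) (C M : ℝ) :
    IntegrableOn (fun t : ℝ => Real.exp (-(m * t)) * (C * M / Real.sqrt t)) (Ioi (0:ℝ)) := by
  have h := integrableOn_rpow_mul_exp_neg_mul_rpow (p := 1) (s := -(1/2)) (b := m)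
    (by norm_num) (by norm_num) hm
  have h2 : IntegrableOn (fun x : ℝ => C * M * (x ^ (-(1/2) : ℝ) * Real.exp (-m * x ^ (1:ℝ))))
    (Ioi (0:ℝ)) := h.const_mul (C * M)
  refine IntegrableOn.congr_fun h2 ?_ measurableSet_Ioi
  intro t ht
  have ht' : (0:ℝ) < t := ht
  simp only [Real.rpow_one]
  rw [Real.rpow_neg ht'.le, ← Real.sqrt_eq_rpow, neg_mul]
  field_simp

theorem aux_meas {d : ℕ} (m : ℝ) (k : E d → ℝ) (hk : Continuous k) (M : ℝ) (hM : ∀ x, |k x| ≤ M)
    (x : E d) :
    ContinuousOn (fun t : ℝ => Real.exp (-(m * t)) * heat t k x) (Ioi (0:ℝ)) ∧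
    ContinuousOn (fun t : ℝ => Real.exp (-(m * t)) • fderiv ℝ (heat t k) x) (Ioi (0:ℝ)) := by
  obtain ⟨h1, _, h3⟩ := heat_cont_t k hk M hM
  constructor
  · refine ContinuousOn.mul (by fun_prop) ?_
    have : ContinuousOn (fun t : ℝ => (t, x)) (Ioi (0:ℝ)) := by fun_prop
    exact h1.comp this (fun t ht => ⟨le_of_lt (show (0:ℝ) < t from ht), mem_univ _⟩)
  · refine ContinuousOn.smul (f := fun t : ℝ => Real.exp (-(m * t))) (by fun_prop) ?_
    have : ContinuousOn (fun t : ℝ => (t, x)) (Ioi (0:ℝ)) := by fun_prop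
    exact ContinuousOn.comp (g := fun p : ℝ × E d => fderiv ℝ (heat p.1 k) p.2)
      (f := fun t : ℝ => (t, x)) h3 this (fun t ht => ⟨ht, mem_univ _⟩)

theorem aux_int0 {d : ℕ} (m : ℝ) (hm : 0 < m) (k : E d → ℝ) (hk : Continuous k) (M : ℝ)
    (hM : ∀ x, |k x| ≤ M) (x : E d) :
    IntegrableOn (fun t : ℝ => Real.exp (-(m * t)) * heat t k x) (Ioi (0:ℝ)) := by
  obtain ⟨C, hC, hH⟩ := heat_C1 d
  have hexp : IntegrableOn (fun t : ℝ => Real.exp (-(m * t)) * M) (Ioi (0:ℝ)) := by
    have h1 : IntegrableOn (fun t : ℝ => Real.exp (-m * t)) (Ioi (0:ℝ)) :=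
      integrableOn_exp_mul_Ioi (a := -m) (by linarith) 0
    have h2 : IntegrableOn (fun t : ℝ => Real.exp (-m * t) * M) (Ioi (0:ℝ)) := h1.mul_const M
    simp only [neg_mul] at h2
    exact h2
  refine Integrable.mono' hexp
    ((aux_meas m k hk M hM x).1.aestronglyMeasurable measurableSet_Ioi) ?_
  refine (ae_restrict_iff' measurableSet_Ioi).2 (Eventually.of_forall (fun t ht => ?_))
  rw [norm_mul, Real.norm_eq_abs, Real.norm_eq_abs, Real.abs_exp]
  exact mul_le_mul_of_nonneg_left ((hH k M t hk hM ht).2.1 x) (Real.exp_pos _).le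

theorem aux_int1 {d : ℕ} (m : ℝ) (hm : 0 < m) (k : E d → ℝ) (hk : Continuous k) (M : ℝ)
    (hM : ∀ x, |k x| ≤ M) (x : E d) :
    IntegrableOn (fun t : ℝ => Real.exp (-(m * t)) • fderiv ℝ (heat t k) x) (Ioi (0:ℝ)) := by
  obtain ⟨C, hC, hH⟩ := heat_C1 d
  refine Integrable.mono' (aux_bound_int m hm C M)
    ((aux_meas m k hk M hM x).2.aestronglyMeasurable measurableSet_Ioi) ?_
  refine (ae_restrict_iff' measurableSet_Ioi).2 (Eventually.of_forall (fun t ht => ?_))
  rw [norm_smul, Real.norm_eq_abs, Real.abs_exp]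
  exact mul_le_mul_of_nonneg_left ((hH k M t hk hM ht).2.2.1 x) (Real.exp_pos _).le

theorem aux_res_fderiv {d : ℕ} (m : ℝ) (hm : 0 < m) (k : E d → ℝ) (hk : Continuous k) (M : ℝ)
    (hM : ∀ x, |k x| ≤ M) (x : E d) :
    HasFDerivAt (res m k) (∫ t in Ioi (0:ℝ), Real.exp (-(m * t)) • fderiv ℝ (heat t k) x) x := by
  obtain ⟨C, hC, hH⟩ := heat_C1 d
  have h := hasFDerivAt_integral_of_dominated_of_fderiv_le (𝕜 := ℝ)
    (μ := volume.restrict (Ioi (0:ℝ))) (x₀ := x) (s := univ)
    (F := fun y t => Real.exp (-(m * t)) * heat t k y)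
    (F' := fun y t => Real.exp (-(m * t)) • fderiv ℝ (heat t k) y)
    (bound := fun t => Real.exp (-(m * t)) * (C * M / Real.sqrt t))
    univ_mem
    (Eventually.of_forall (fun y =>
      (aux_meas m k hk M hM y).1.aestronglyMeasurable measurableSet_Ioi))
    (aux_int0 m hm k hk M hM x)
    ((aux_meas m k hk M hM x).2.aestronglyMeasurable measurableSet_Ioi)
    ((ae_restrict_iff' measurableSet_Ioi).2 (Eventually.of_forall (fun t ht y _ => by
      rw [norm_smul, Real.norm_eq_abs, Real.abs_exp]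
      exact mul_le_mul_of_nonneg_left ((hH k M t hk hM ht).2.2.1 y) (Real.exp_pos _).le)))
    (aux_bound_int m hm C M)
    ((ae_restrict_iff' measurableSet_Ioi).2 (Eventually.of_forall (fun t ht y _ => by
      have hd : DifferentiableAt ℝ (heat t k) y :=
        ((hH k M t hk hM ht).1.differentiable (by norm_num)) y
      exact hd.hasFDerivAt.const_smul (Real.exp (-(m * t))))))
  exact h

theorem aux_res_fderiv_apply {d : ℕ} (m : ℝ) (hm : 0 < m) (k : E d → ℝ) (hk : Continuous k) (M : ℝ)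
    (hM : ∀ x, |k x| ≤ M) (x v : E d) :
    fderiv ℝ (res m k) x v = ∫ t in Ioi (0:ℝ), Real.exp (-(m * t)) * fderiv ℝ (heat t k) x v := by
  rw [(aux_res_fderiv m hm k hk M hM x).fderiv,
    ContinuousLinearMap.integral_apply (aux_int1 m hm k hk M hM x)]
  rfl

theorem res_C2 (d : ℕ) (m : ℝ) (hm : 0 < m) (g : E d → ℝ) (hg : ContDiff ℝ 1 g) (M : ℝ)
    (hM : ∀ x, |g x| ≤ M ∧ ‖fderiv ℝ g x‖ ≤ M) :
    ContDiff ℝ 2 (res m g) ∧ ∀ x, m * res m g x - lap (res m g) x = g x := by
  have hgc : Continuous g := hg.continuous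
  have hM1 : ∀ x, |g x| ≤ M := fun x => (hM x).1
  have hM2 : ∀ x, ‖fderiv ℝ g x‖ ≤ M := fun x => (hM x).2
  have hpc : ∀ v : E d, Continuous (fun y => fderiv ℝ g y v) := fun v =>
    (hg.continuous_fderiv (by norm_num)).clm_apply continuous_const
  have hpb : ∀ v x : E d, |fderiv ℝ g x v| ≤ M * ‖v‖ := fun v x =>
    ((fderiv ℝ g x).le_opNorm v).trans (mul_le_mul_of_nonneg_right (hM2 x) (norm_nonneg v))
  obtain ⟨C, hC, hR⟩ := res_C1 d m hm
  -- derivative of the resolvent
  have hB : ∀ v x : E d, fderiv ℝ (res m g) x v = res m (fun y => fderiv ℝ g y v) x := by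
    intro v x
    rw [aux_res_fderiv_apply m hm g hgc M hM1]
    unfold res
    refine setIntegral_congr_fun measurableSet_Ioi (fun t ht => ?_)
    show Real.exp (-(m * t)) * fderiv ℝ (heat t g) x v = _
    rw [(heat_grad g hg M M hM1 hM2 t ht v).1 x]
  have hD1 : ContDiff ℝ 1 (fderiv ℝ (res m g)) := by
    rw [contDiff_clm_apply_iff]
    intro v
    have : (fun x => fderiv ℝ (res m g) x v) = res m (fun y => fderiv ℝ g y v) := by
      funext x; exact hB v x
    rw [this]
    exact (hR _ (M * ‖v‖) (hpc v) (hpb v)).1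
  have hC1 : ContDiff ℝ 1 (res m g) := (hR g M hgc hM1).1
  have hC2 : ContDiff ℝ 2 (res m g) := by
    rw [show (2 : WithTop ℕ∞) = 1 + 1 by norm_num, contDiff_succ_iff_fderiv]
    exact ⟨hC1.differentiable (by norm_num), by simp, hD1⟩
  refine ⟨hC2, fun x => ?_⟩
  -- second derivatives
  have hsec : ∀ (u : E d → ℝ) (_ : ContDiff ℝ 2 u) (x v : E d),
      iteratedFDeriv ℝ 2 u x (fun _ => v) = fderiv ℝ (fun y => fderiv ℝ u y v) x v := by
    intro u hu x v
    rw [iteratedFDeriv_two_apply]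
    have hd : DifferentiableAt ℝ (fderiv ℝ u) x := by
      have : ContDiff ℝ 1 (fderiv ℝ u) := hu.fderiv_right (by norm_num)
      exact (this.differentiable (by norm_num)) x
    rw [fderiv_clm_apply hd (differentiableAt_const v)]
    simp
  have hlapR : lap (res m g) x = ∑ i : Fin d, ∫ t in Ioi (0:ℝ), Real.exp (-(m * t)) *
      fderiv ℝ (heat t (fun y => fderiv ℝ g y (EuclideanSpace.single i (1:ℝ)))) x
        (EuclideanSpace.single i (1:ℝ)) := by
    unfold lap
    refine Finset.sum_congr rfl (fun i _ => ?_)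
    rw [hsec _ hC2]
    have : (fun y => fderiv ℝ (res m g) y (EuclideanSpace.single i (1:ℝ))) =
        res m (fun y => fderiv ℝ g y (EuclideanSpace.single i (1:ℝ))) := by
      funext y; exact hB _ y
    rw [this]
    exact aux_res_fderiv_apply m hm _ (hpc _) _ (hpb _) x _
  have hlapH : ∀ t : ℝ, 0 < t → lap (heat t g) x = ∑ i : Fin d,
      fderiv ℝ (heat t (fun y => fderiv ℝ g y (EuclideanSpace.single i (1:ℝ)))) x
        (EuclideanSpace.single i (1:ℝ)) := by
    intro t ht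
    unfold lap
    refine Finset.sum_congr rfl (fun i _ => ?_)
    have hh := heat_grad g hg M M hM1 hM2 t ht (EuclideanSpace.single i (1:ℝ))
    rw [hsec _ hh.2.1]
    have : (fun y => fderiv ℝ (heat t g) y (EuclideanSpace.single i (1:ℝ))) =
        heat t (fun y => fderiv ℝ g y (EuclideanSpace.single i (1:ℝ))) := by
      funext y; exact hh.1 y
    rw [this]
  have hinti : ∀ i : Fin d, IntegrableOn (fun t : ℝ => Real.exp (-(m * t)) *
      fderiv ℝ (heat t (fun y => fderiv ℝ g y (EuclideanSpace.single i (1:ℝ)))) x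
        (EuclideanSpace.single i (1:ℝ))) (Ioi (0:ℝ)) := by
    intro i
    have := aux_int1 m hm (fun y => fderiv ℝ g y (EuclideanSpace.single i (1:ℝ))) (hpc _) _
      (hpb _) x
    exact this.apply_continuousLinearMap (EuclideanSpace.single i (1:ℝ))
  have hintL : IntegrableOn (fun t : ℝ => Real.exp (-(m * t)) * lap (heat t g) x) (Ioi (0:ℝ)) := by
    have h1 : IntegrableOn (fun t : ℝ => ∑ i : Fin d, Real.exp (-(m * t)) *
      fderiv ℝ (heat t (fun y => fderiv ℝ g y (EuclideanSpace.single i (1:ℝ)))) x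
        (EuclideanSpace.single i (1:ℝ))) (Ioi (0:ℝ)) :=
      integrable_finsetSum _ (fun i _ => hinti i)
    refine h1.congr_fun (fun t ht => ?_) measurableSet_Ioi
    show ∑ i : Fin d, Real.exp (-(m * t)) * _ = _
    rw [← Finset.mul_sum, hlapH t ht]
  have hlapI : lap (res m g) x = ∫ t in Ioi (0:ℝ), Real.exp (-(m * t)) * lap (heat t g) x := by
    rw [hlapR, ← integral_finsetSum _ (fun i _ => hinti i)]
    refine setIntegral_congr_fun measurableSet_Ioi (fun t ht => ?_)
    show ∑ i : Fin d, Real.exp (-(m * t)) * _ = _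
    rw [← Finset.mul_sum, hlapH t ht]
  obtain ⟨C', hC', hH⟩ := heat_C1 d
  obtain ⟨hct, h0, _⟩ := heat_cont_t g hgc M hM1
  have hint0 := aux_int0 m hm g hgc M hM1 x
  -- fundamental theorem
  have hderiv : ∀ t ∈ Ioi (0:ℝ), HasDerivAt (fun t : ℝ => -(Real.exp (-(m * t)) * heat t g x))
      (m * (Real.exp (-(m * t)) * heat t g x) - Real.exp (-(m * t)) * lap (heat t g) x) t := by
    intro t ht
    have h1 : HasDerivAt (fun t : ℝ => Real.exp (-(m * t))) (Real.exp (-(m * t)) * (-m)) t := by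
      have : HasDerivAt (fun t : ℝ => -(m * t)) (-m) t :=
        (((hasDerivAt_id t).const_mul m).neg).congr_deriv (by simp)
      exact this.exp
    have h2 := (heat_grad g hg M M hM1 hM2 t ht 0).2.2 x
    have h3 := (h1.mul h2).neg
    refine h3.congr_deriv ?_
    ring
  have hcont : ContinuousWithinAt (fun t : ℝ => -(Real.exp (-(m * t)) * heat t g x)) (Ici 0) 0 := by
    refine ContinuousWithinAt.neg (ContinuousWithinAt.mul (by fun_prop) ?_)
    have h1 : ContinuousWithinAt (fun t : ℝ => (t, x)) (Ici (0:ℝ)) 0 := by fun_prop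
    have h2 : ContinuousWithinAt (fun p : ℝ × E d => heat p.1 g p.2) (Ici (0 : ℝ) ×ˢ univ) (0, x) :=
      hct (0, x) ⟨self_mem_Ici, mem_univ _⟩
    show ContinuousWithinAt ((fun p : ℝ × E d => heat p.1 g p.2) ∘ (fun t : ℝ => (t, x))) (Ici 0) 0
    exact ContinuousWithinAt.comp (g := fun p : ℝ × E d => heat p.1 g p.2)
      (f := fun t : ℝ => (t, x)) (x := (0:ℝ)) h2 h1 (fun t ht => ⟨ht, mem_univ _⟩)
  have hlim : Tendsto (fun t : ℝ => -(Real.exp (-(m * t)) * heat t g x)) atTop (𝓝 0) := by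
    have h1 : Tendsto (fun t : ℝ => Real.exp (-(m * t)) * M) atTop (𝓝 0) := by
      have h2 : Tendsto (fun t : ℝ => Real.exp (-(m * t))) atTop (𝓝 0) :=
        Real.tendsto_exp_neg_atTop_nhds_zero.comp (tendsto_id.const_mul_atTop hm)
      simpa using h2.mul_const M
    rw [← neg_zero]
    refine Tendsto.neg (squeeze_zero_norm' ?_ h1)
    filter_upwards [eventually_gt_atTop (0:ℝ)] with t ht
    rw [norm_mul, Real.norm_eq_abs, Real.norm_eq_abs, Real.abs_exp]
    exact mul_le_mul_of_nonneg_left ((hH g M t hgc hM1 ht).2.1 x) (Real.exp_pos _).le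
  have hfin := integral_Ioi_of_hasDerivAt_of_tendsto hcont hderiv
    ((hint0.const_mul m).sub hintL) hlim
  rw [integral_sub (hint0.const_mul m) hintL, integral_const_mul] at hfin
  rw [hlapI]
  show m * (∫ t in Ioi (0:ℝ), Real.exp (-(m * t)) * heat t g x) - _ = _
  rw [hfin, h0]
  simp

end

end ExtStar
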