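import Pool.Agent.H631.EX.Defs
import Pool.Agent.H631.EX.Y01
import Pool.Agent.H631.EX.Y02
import Pool.Agent.H631.EX.Y03

open Set Metric Filter Topology MeasureTheory

namespace ExtStar

noncomputable section

/-! TARGET: prove the following -/

theorem res_mono_int {d : ℕ} (g : E d → ℝ) (hg : Continuous g) (M : ℝ) (hM : ∀ x, |g x| ≤ M)
    (t : ℝ) (x : E d) :
    Integrable (fun z : E d => gauss z * g (x + Real.sqrt (2 * t) • z)) ∧ |heat t g x| ≤ M := by
  obtain ⟨h1, h2, h3, h4, -, -, -⟩ := gauss_facts d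
  have hcont : Continuous (fun z : E d => gauss z * g (x + Real.sqrt (2 * t) • z)) := by
    fun_prop
  have hb : ∀ z : E d, ‖gauss z * g (x + Real.sqrt (2 * t) • z)‖ ≤ gauss z * M := by
    intro z
    rw [norm_mul, Real.norm_eq_abs, Real.norm_eq_abs, abs_of_pos (h2 z)]
    exact mul_le_mul_of_nonneg_left (hM _) (h2 z).le
  have hint : Integrable (fun z : E d => gauss z * M) := h3.mul_const M
  refine ⟨hint.mono' hcont.aestronglyMeasurable (Eventually.of_forall hb), ?_⟩
  unfold heat
  rw [← Real.norm_eq_abs]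
  refine (norm_integral_le_of_norm_le hint (Eventually.of_forall hb)).trans ?_
  rw [integral_mul_const, h4, one_mul]

theorem res_mono_exp (m : ℝ) (hm : 0 < m) (M : ℝ) :
    IntegrableOn (fun t : ℝ => Real.exp (-(m * t)) * M) (Ioi (0 : ℝ)) := by
  have h := exp_neg_integrableOn_Ioi (0 : ℝ) hm
  have e : (fun t : ℝ => Real.exp (-(m * t)) * M) = fun t : ℝ => Real.exp (-m * t) * M := by
    funext t
    rw [neg_mul]
  rw [e]
  exact h.mul_const M

theorem res_mono_meas {d : ℕ} (m : ℝ) (M : ℝ) (g : E d → ℝ) (hg : Continuous g)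
    (hM : ∀ x, |g x| ≤ M) (x : E d) :
    AEStronglyMeasurable (fun t : ℝ => Real.exp (-(m * t)) * heat t g x)
      (volume.restrict (Ioi (0 : ℝ))) := by
  have h1 := (heat_cont_t g hg M hM).1
  have h2 : ContinuousOn (fun t : ℝ => heat t g x) (Ioi (0 : ℝ)) := by
    have h3 : ContinuousOn (fun t : ℝ => ((t, x) : ℝ × E d)) (Ioi (0 : ℝ)) :=
      (Continuous.prodMk continuous_id continuous_const).continuousOn
    exact h1.comp h3 (fun t ht => ⟨show (0:ℝ) ≤ t from le_of_lt (show (0:ℝ) < t from ht), mem_univ _⟩)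
  have h4 : ContinuousOn (fun t : ℝ => Real.exp (-(m * t)) * heat t g x) (Ioi (0 : ℝ)) :=
    ContinuousOn.mul (by fun_prop) h2
  exact h4.aestronglyMeasurable measurableSet_Ioi

theorem res_mono_bd {d : ℕ} (m : ℝ) (M : ℝ) (g : E d → ℝ) (hg : Continuous g)
    (hM : ∀ x, |g x| ≤ M) (x : E d) (t : ℝ) :
    ‖Real.exp (-(m * t)) * heat t g x‖ ≤ Real.exp (-(m * t)) * M := by
  rw [norm_mul, Real.norm_eq_abs, Real.norm_eq_abs, abs_of_pos (Real.exp_pos _)]
  exact mul_le_mul_of_nonneg_left (res_mono_int g hg M hM t x).2 (Real.exp_pos _).le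

theorem res_mono_intOn {d : ℕ} (m : ℝ) (hm : 0 < m) (M : ℝ) (g : E d → ℝ) (hg : Continuous g)
    (hM : ∀ x, |g x| ≤ M) (x : E d) :
    IntegrableOn (fun t : ℝ => Real.exp (-(m * t)) * heat t g x) (Ioi (0 : ℝ)) :=
  (res_mono_exp m hm M).mono' (res_mono_meas m M g hg hM x)
    (Eventually.of_forall (res_mono_bd m M g hg hM x))

theorem res_mono {d : ℕ} (m : ℝ) (hm : 0 < m) (M : ℝ) :
    (∀ g h : E d → ℝ, Continuous g → Continuous h → (∀ x, |g x| ≤ M) → (∀ x, |h x| ≤ M) →
      (∀ x, g x ≤ h x) → ∀ x, res m g x ≤ res m h x) ∧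
    (∀ (c : ℝ) (x : E d), res m (fun _ : E d => c) x = c / m) ∧
    (∀ (g : ℕ → E d → ℝ) (h : E d → ℝ), (∀ n, Continuous (g n)) → Continuous h →
      (∀ n x, |g n x| ≤ M) → (∀ x, Tendsto (fun n => g n x) atTop (𝓝 (h x))) →
      ∀ x, Tendsto (fun n => res m (g n) x) atTop (𝓝 (res m h x))) := by
  obtain ⟨h1, h2, h3, h4, -, -, -⟩ := gauss_facts d
  refine ⟨?_, ?_, ?_⟩
  · intro g h hg hh hgM hhM hgh x
    unfold res
    refine setIntegral_mono_on (res_mono_intOn m hm M g hg hgM x)
      (res_mono_intOn m hm M h hh hhM x) measurableSet_Ioi ?_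
    intro t _
    refine mul_le_mul_of_nonneg_left ?_ (Real.exp_pos _).le
    unfold heat
    exact integral_mono (res_mono_int g hg M hgM t x).1 (res_mono_int h hh M hhM t x).1
      (fun z => mul_le_mul_of_nonneg_left (hgh _) (h2 z).le)
  · intro c x
    unfold res heat
    have e : ∀ t : ℝ, Real.exp (-(m * t)) * (∫ z : E d, gauss z * c) = Real.exp (-m * t) * c := by
      intro t
      rw [integral_mul_const, h4, one_mul, neg_mul]
    simp only [e]
    rw [integral_mul_const, integral_exp_mul_Ioi (by linarith) 0]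
    rw [mul_zero, Real.exp_zero]
    field_simp
  · intro g h hg hh hgM hlim x
    have hhM : ∀ x, |h x| ≤ M := by
      intro x
      exact le_of_tendsto (hlim x).abs (Eventually.of_forall (fun n => hgM n x))
    unfold res
    refine tendsto_integral_of_dominated_convergence (fun t => Real.exp (-(m * t)) * M)
      (fun n => res_mono_meas m M (g n) (hg n) (hgM n) x) (res_mono_exp m hm M)
      (fun n => Eventually.of_forall (res_mono_bd m M (g n) (hg n) (hgM n) x)) ?_
    refine Eventually.of_forall (fun t => ?_)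
    refine Tendsto.const_mul _ ?_
    unfold heat
    refine tendsto_integral_of_dominated_convergence (fun z => gauss z * M)
      (fun n => (res_mono_int (g n) (hg n) M (hgM n) t x).1.aestronglyMeasurable)
      (h3.mul_const M) (fun n => Eventually.of_forall (fun z => ?_)) ?_
    · rw [norm_mul, Real.norm_eq_abs, Real.norm_eq_abs, abs_of_pos (h2 z)]
      exact mul_le_mul_of_nonneg_left (hgM n _) (h2 z).le
    · refine Eventually.of_forall (fun z => ?_)
      exact Tendsto.const_mul _ (hlim _)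

end

end ExtStar
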