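import Pool.Agent.H631.EX.Defs
import Pool.Agent.H631.ES.X02
import Pool.Agent.H631.ES.X03
import Pool.Agent.H631.ES.X05

open Set Metric Filter Topology MeasureTheory

namespace ExtStar

noncomputable section

/-! TARGET: prove the following -/

theorem whole_max {d : ℕ} (w : E d → ℝ) (hw : ContDiff ℝ 2 w) (B c : ℝ) (hB : ∀ x, -B ≤ w x)
    (hc : 0 < c) (h : ∀ x, w x < 0 → lap w x ≤ c * w x) : ∀ x, 0 ≤ w x := by
  by_contra hcon
  push Not at hcon
  obtain ⟨x₀, hx₀⟩ := hcon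
  have hbdd : BddBelow (Set.range w) := ⟨-B, by rintro _ ⟨x, rfl⟩; exact hB x⟩
  set m : ℝ := -(⨅ x, w x) with hm
  have hwm : ∀ x, -m ≤ w x := by
    intro x
    rw [hm, neg_neg]
    exact ciInf_le hbdd x
  have hmpos : 0 < m := by
    have := hwm x₀
    linarith
  obtain ⟨x₁, hx₁⟩ : ∃ x₁, w x₁ < -m / 2 := by
    apply exists_lt_of_ciInf_lt
    have : (⨅ x, w x) = -m := by rw [hm, neg_neg]
    rw [this]
    linarith
  have hd0 : (0:ℝ) ≤ (d:ℝ) := Nat.cast_nonneg d
  have hR : 0 < 4 * (d:ℝ) / c + 1 := by positivity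
  set ρ : ℝ := Real.sqrt (4 * (d:ℝ) / c + 1) with hρ
  have hρpos : 0 < ρ := Real.sqrt_pos.mpr hR
  have hρsq : ρ ^ 2 = 4 * (d:ℝ) / c + 1 := Real.sq_sqrt hR.le
  set κ : ℝ := m / ρ ^ 2 with hκ
  have hκpos : 0 < κ := by positivity
  have hκρ : κ * ρ ^ 2 = m := by
    rw [hκ]
    field_simp
  set τ : ℝ := (w x₁ - m / 2) / 2 with hτ
  have hτ1 : w x₁ < τ := by rw [hτ]; linarith
  have hτ2 : τ < -m / 2 := by rw [hτ]; linarith
  have hnC : ContDiff ℝ 2 (fun y : E d => ‖y - x₁‖ ^ 2) := (contDiff_id.sub contDiff_const).norm_sq ℝ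
  have hkC : ContDiff ℝ 2 (fun y : E d => κ * ‖y - x₁‖ ^ 2) := contDiff_const.mul hnC
  have hzC : ContDiff ℝ 2 (fun y : E d => w y + κ * ‖y - x₁‖ ^ 2 - τ) :=
    (hw.add hkC).sub contDiff_const
  have hmain := comp_compact (closedBall x₁ ρ) (isCompact_closedBall x₁ ρ)
    (fun y : E d => w y + κ * ‖y - x₁‖ ^ 2 - τ) hzC.continuous.continuousOn ?_ x₁
    (mem_closedBall_self hρpos.le)
  · simp only [sub_self, norm_zero] at hmain
    have : κ * (0:ℝ) ^ 2 = 0 := by ring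
    linarith
  · intro y hy hzy
    have hzy' : w y + κ * ‖y - x₁‖ ^ 2 - τ < 0 := hzy
    refine ⟨?_, hzC.contDiffAt, ?_⟩
    · apply ball_subset_interior_closedBall
      rw [mem_ball, dist_eq_norm]
      rw [mem_closedBall, dist_eq_norm] at hy
      refine lt_of_le_of_ne hy ?_
      intro heq
      rw [heq, hκρ] at hzy'
      have := hwm y
      linarith
    · have e1 : lap (fun y : E d => w y + κ * ‖y - x₁‖ ^ 2 - τ) y =
          lap w y + κ * (2 * (d:ℝ)) - 0 := by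
        rw [lap_sub (fun y : E d => w y + κ * ‖y - x₁‖ ^ 2) (fun _ => τ) y
          (hw.add hkC).contDiffAt contDiff_const.contDiffAt,
          lap_add w (fun y : E d => κ * ‖y - x₁‖ ^ 2) y hw.contDiffAt hkC.contDiffAt,
          lap_smul κ (fun y : E d => ‖y - x₁‖ ^ 2) y hnC.contDiffAt, lap_const, lap_normsq]
      rw [e1]
      have hk0 : 0 ≤ κ * ‖y - x₁‖ ^ 2 := by positivity
      have hwy : w y < -m / 2 := by linarith
      have h1 := h y (by linarith)
      have h2 : c * w y < c * (-m / 2) := mul_lt_mul_of_pos_left hwy hc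
      have h3 : κ * (2 * (d:ℝ)) ≤ c * m / 2 := by
        have h4 : 4 * (d:ℝ) ≤ c * ρ ^ 2 := by
          rw [hρsq, mul_add, mul_div_cancel₀ _ hc.ne']
          linarith
        have h5 : κ * (4 * (d:ℝ)) ≤ κ * (c * ρ ^ 2) := mul_le_mul_of_nonneg_left h4 hκpos.le
        have h6 : κ * (c * ρ ^ 2) = c * m := by rw [← hκρ]; ring
        linarith
      linarith

end

end ExtStar
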