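import Pool.Agent.H631.EX.Defs
import Pool.Agent.H631.EX.Y05
import Pool.Agent.H631.EX.Y06
import Pool.Agent.H631.EX.Y07
import Pool.Agent.H631.EX.Y08
import Pool.Agent.H631.ES.X02
import Pool.Agent.H631.ES.X03
import Pool.Agent.H631.ES.X05

open Set Metric Filter Topology MeasureTheory

namespace ExtStar

noncomputable section

/-- the nonlinear term -/
def TT {d : ℕ} (f : ℝ → ℝ) (a : E d → ℝ) (n : ℕ) (Λ : ℝ) (v : E d → ℝ) (x : E d) : ℝ :=
  (Λ - n * a x) * v x + f (v x)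

theorem TT_mono {d : ℕ} (f : ℝ → ℝ) (L c ε c₁ : ℝ) (hR : RC f L c ε c₁) (a : E d → ℝ)
    (ha1 : ∀ x, 0 ≤ a x ∧ a x ≤ 1) (n : ℕ) (v w : E d → ℝ) (x : E d)
    (hv : 0 ≤ v x) (hvw : v x ≤ w x) (hw : w x ≤ 1) :
    TT f a n (n + L + 1) v x ≤ TT f a n (n + L + 1) w x := by
  unfold TT
  obtain ⟨hL, -, -, -, -, -, -, hlip, -, -⟩ := hR
  have h1 := hlip (v x) ⟨hv, hvw.trans hw⟩ (w x) ⟨hv.trans hvw, hw⟩
  have h2 : |v x - w x| = w x - v x := by rw [abs_sub_comm, abs_of_nonneg (by linarith)]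
  rw [h2] at h1
  have h3 := (abs_le.1 h1).2
  have h4 : (n:ℝ) * a x ≤ n := by
    have := (ha1 x).2
    nlinarith [Nat.cast_nonneg (α := ℝ) n]
  have h5 : 0 ≤ (w x - v x) * ((n:ℝ) - n * a x) := mul_nonneg (by linarith) (by linarith)
  nlinarith

theorem TT_bd {d : ℕ} (f : ℝ → ℝ) (L c ε c₁ : ℝ) (hR : RC f L c ε c₁) (a : E d → ℝ)
    (ha1 : ∀ x, 0 ≤ a x ∧ a x ≤ 1) (n : ℕ) (v : E d → ℝ) (x : E d)
    (hv : 0 ≤ v x ∧ v x ≤ 1) :
    0 ≤ TT f a n (n + L + 1) v x ∧ TT f a n (n + L + 1) v x ≤ (n + L + 1) := by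
  have h0 := TT_mono f L c ε c₁ hR a ha1 n (fun _ => 0) v x le_rfl hv.1 hv.2
  have h1 := TT_mono f L c ε c₁ hR a ha1 n v (fun _ => 1) x hv.1 hv.2 le_rfl
  obtain ⟨hL, -, -, -, -, hf0, hf1, hlip, -, -⟩ := hR
  have e0 : TT f a n (n + L + 1) (fun _ => 0) x = 0 := by
    unfold TT
    simp [hf0]
  have e1 : TT f a n (n + L + 1) (fun _ => 1) x ≤ n + L + 1 := by
    unfold TT
    have h3 : 0 ≤ (n:ℝ) * a x := mul_nonneg (Nat.cast_nonneg _) (ha1 x).1
    simp only [hf1]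
    linarith
  rw [e0] at h0
  exact ⟨h0, h1.trans e1⟩

theorem TT_C1 {d : ℕ} (f : ℝ → ℝ) (hf : ContDiff ℝ 1 f) (a : E d → ℝ) (ha : ContDiff ℝ 1 a)
    (n : ℕ) (Λ : ℝ) (v : E d → ℝ) (hv : ContDiff ℝ 1 v) : ContDiff ℝ 1 (TT f a n Λ v) := by
  unfold TT
  exact ((contDiff_const.sub (contDiff_const.mul ha)).mul hv).add (hf.comp hv)

theorem TT_cont {d : ℕ} (f : ℝ → ℝ) (hf : ContDiff ℝ 1 f) (a : E d → ℝ) (ha : ContDiff ℝ 1 a)
    (n : ℕ) (Λ : ℝ) (v : E d → ℝ) (hv : Continuous v) : Continuous (TT f a n Λ v) := by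
  unfold TT
  exact ((continuous_const.sub (continuous_const.mul ha.continuous)).mul hv).add
    (hf.continuous.comp hv)

theorem TT_grad {d : ℕ} (f : ℝ → ℝ) (hf : ContDiff ℝ 1 f) (L c ε c₁ : ℝ) (hR : RC f L c ε c₁)
    (a : E d → ℝ) (ha : ContDiff ℝ 1 a)
    (ha1 : ∀ x, 0 ≤ a x ∧ a x ≤ 1) (Ma : ℝ) (hMa : ∀ x, ‖fderiv ℝ a x‖ ≤ Ma)
    (n : ℕ) (G : ℝ) (v : E d → ℝ) (hv : ContDiff ℝ 1 v)
    (hv1 : ∀ x, 0 ≤ v x ∧ v x ≤ 1) (hG : ∀ x, ‖fderiv ℝ v x‖ ≤ G) :
    ∃ M : ℝ, ∀ x, |TT f a n (n + L + 1) v x| ≤ M ∧ ‖fderiv ℝ (TT f a n (n + L + 1) v) x‖ ≤ M := by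
  obtain ⟨Mf, hMf⟩ := isCompact_Icc.exists_bound_of_continuousOn (s := Icc (0:ℝ) 1)
    (hf.continuous_deriv le_rfl).continuousOn
  have hL : 0 < L := hR.1
  have hG0 : 0 ≤ G := (norm_nonneg _).trans (hG 0)
  have hMa0 : 0 ≤ Ma := (norm_nonneg _).trans (hMa 0)
  have hMf0 : 0 ≤ Mf := (norm_nonneg _).trans (hMf 0 ⟨le_rfl, zero_le_one⟩)
  have hn : (0:ℝ) ≤ n := Nat.cast_nonneg n
  have hΛ : (0:ℝ) < n + L + 1 := by linarith
  refine ⟨(n + L + 1) + ((n + L + 1) * G + n * Ma + Mf * G), fun x => ⟨?_, ?_⟩⟩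
  · have h := TT_bd f L c ε c₁ hR a ha1 n v x (hv1 x)
    rw [abs_of_nonneg h.1]
    have : 0 ≤ (n + L + 1) * G + n * Ma + Mf * G := by positivity
    linarith [h.2]
  · have h1 : HasFDerivAt a (fderiv ℝ a x) x := (ha.differentiable one_ne_zero x).hasFDerivAt
    have h2 : HasFDerivAt v (fderiv ℝ v x) x := (hv.differentiable one_ne_zero x).hasFDerivAt
    have h3 : HasDerivAt f (deriv f (v x)) (v x) := (hf.differentiable one_ne_zero (v x)).hasDerivAt
    have h4 : HasFDerivAt (TT f a n (n + L + 1) v)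
        (((n + L + 1 - n * a x) • fderiv ℝ v x + v x • (-((n:ℝ) • fderiv ℝ a x)))
          + deriv f (v x) • fderiv ℝ v x) x := by
      unfold TT
      have e1 : HasFDerivAt (fun y => ((n:ℝ) + L + 1 - n * a y)) (-((n:ℝ) • fderiv ℝ a x)) x :=
        (h1.const_mul (n:ℝ)).const_sub _
      exact (e1.mul h2).add (h3.comp_hasFDerivAt x h2)
    rw [h4.fderiv]
    have b1 : |(n:ℝ) + L + 1 - n * a x| ≤ n + L + 1 := by
      have h5 : 0 ≤ (n:ℝ) * a x := mul_nonneg hn (ha1 x).1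
      have h6 : (n:ℝ) * a x ≤ n := by
        have := (ha1 x).2
        nlinarith
      rw [abs_of_nonneg (by linarith)]
      linarith
    have b2 : |v x| ≤ 1 := by rw [abs_of_nonneg (hv1 x).1]; exact (hv1 x).2
    have b3 : |deriv f (v x)| ≤ Mf := by
      have := hMf (v x) (hv1 x)
      rwa [Real.norm_eq_abs] at this
    calc _ ≤ ‖((n:ℝ) + L + 1 - n * a x) • fderiv ℝ v x‖ + ‖v x • (-((n:ℝ) • fderiv ℝ a x))‖
          + ‖deriv f (v x) • fderiv ℝ v x‖ := norm_add₃_le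
      _ ≤ (n + L + 1) * G + n * Ma + Mf * G := by
          rw [norm_smul, norm_smul, norm_smul, norm_neg, norm_smul, Real.norm_eq_abs,
            Real.norm_eq_abs, Real.norm_eq_abs, Real.norm_eq_abs, abs_of_nonneg hn]
          have c1 : |(n:ℝ) + L + 1 - n * a x| * ‖fderiv ℝ v x‖ ≤ (n + L + 1) * G :=
            mul_le_mul b1 (hG x) (norm_nonneg _) hΛ.le
          have c2 : |v x| * ((n:ℝ) * ‖fderiv ℝ a x‖) ≤ 1 * (n * Ma) :=
            mul_le_mul b2 (mul_le_mul_of_nonneg_left (hMa x) hn)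
              (mul_nonneg hn (norm_nonneg _)) zero_le_one
          have c3 : |deriv f (v x)| * ‖fderiv ℝ v x‖ ≤ Mf * G :=
            mul_le_mul b3 (hG x) (norm_nonneg _) hMf0
          linarith
      _ ≤ _ := by linarith

/-- the iteration -/
def sq {d : ℕ} (f : ℝ → ℝ) (a : E d → ℝ) (n : ℕ) (Λ : ℝ) : ℕ → E d → ℝ
  | 0 => fun _ => 1
  | j + 1 => res Λ (TT f a n Λ (sq f a n Λ j))

/-! TARGET: prove the following -/

theorem approx {d : ℕ} (f : ℝ → ℝ) (L c ε c₁ : ℝ) (hf : React f) (hR : RC f L c ε c₁) (a : E d → ℝ)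
    (ha : ContDiff ℝ 1 a) (ha1 : ∀ x, 0 ≤ a x ∧ a x ≤ 1) (Ma : ℝ) (hMa : ∀ x, ‖fderiv ℝ a x‖ ≤ Ma)
    (n : ℕ) : ∃ u : E d → ℝ, App f a n u ∧
      (∀ w : E d → ℝ, ContDiff ℝ 2 w → (∀ x, 0 ≤ w x ∧ w x ≤ 1) →
        (∀ x, -lap w x ≤ f (w x) - n * a x * w x) → ∀ x, w x ≤ u x) ∧
      ∀ (x₀ : E d) (R : ℝ) (ψ : E d → ℝ), 0 < R → (∀ x ∈ closedBall x₀ R, a x = 0) →
        ContDiff ℝ 2 ψ → (∀ x ∈ closedBall x₀ R, 0 ≤ ψ x ∧ ψ x ≤ 1) →
        (∀ x, ‖x - x₀‖ = R → ψ x = 0) → (∀ x ∈ ball x₀ R, -lap ψ x ≤ f (ψ x)) →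
        ∀ x ∈ closedBall x₀ R, ψ x ≤ u x := by
  have hf1 : ContDiff ℝ 1 f := hf.1
  have hL : 0 < L := hR.1
  have hn : (0:ℝ) ≤ n := Nat.cast_nonneg n
  set Λ : ℝ := n + L + 1 with hΛdef
  have hΛ : 0 < Λ := by rw [hΛdef]; linarith
  obtain ⟨C, hC, hres1⟩ := res_C1 d Λ hΛ
  obtain ⟨hmon, hconst, hlim⟩ := res_mono (d := d) Λ hΛ Λ
  have hbd : ∀ (v : E d → ℝ), (∀ x, 0 ≤ v x ∧ v x ≤ 1) → ∀ x, 0 ≤ TT f a n Λ v x ∧
      TT f a n Λ v x ≤ Λ := fun v hv x => TT_bd f L c ε c₁ hR a ha1 n v x (hv x)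
  have habs : ∀ (v : E d → ℝ), (∀ x, 0 ≤ v x ∧ v x ≤ 1) → ∀ x, |TT f a n Λ v x| ≤ Λ := by
    intro v hv x
    rw [abs_of_nonneg (hbd v hv x).1]
    exact (hbd v hv x).2
  have hTmono : ∀ (v w : E d → ℝ) (x : E d), 0 ≤ v x → v x ≤ w x → w x ≤ 1 →
      TT f a n Λ v x ≤ TT f a n Λ w x := fun v w x h1 h2 h3 =>
    TT_mono f L c ε c₁ hR a ha1 n v w x h1 h2 h3
  have hcont : ∀ v : E d → ℝ, Continuous v → Continuous (TT f a n Λ v) := fun v hv =>
    TT_cont f hf1 a ha n Λ v hv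
  -- C^1 step
  have hstep1 : ∀ v : E d → ℝ, Continuous v → (∀ x, 0 ≤ v x ∧ v x ≤ 1) →
      ContDiff ℝ 1 (res Λ (TT f a n Λ v)) ∧ (∀ x, 0 ≤ res Λ (TT f a n Λ v) x ∧
        res Λ (TT f a n Λ v) x ≤ 1) ∧ ∀ x, ‖fderiv ℝ (res Λ (TT f a n Λ v)) x‖ ≤ C * Λ := by
    intro v hv hv1
    obtain ⟨r1, r2, r3⟩ := hres1 (TT f a n Λ v) Λ (hcont v hv) (habs v hv1)
    refine ⟨r1, fun x => ⟨?_, ?_⟩, r3⟩
    · have h := hmon (fun _ => 0) (TT f a n Λ v) continuous_const (hcont v hv)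
        (fun x => by simp [hΛ.le]) (habs v hv1) (fun x => (hbd v hv1 x).1) x
      rw [hconst 0 x, zero_div] at h
      exact h
    · have h := (abs_le.1 (r2 x)).2
      rwa [div_self hΛ.ne'] at h
  -- C^2 step
  have hstep2 : ∀ v : E d → ℝ, ContDiff ℝ 1 v → (∀ x, 0 ≤ v x ∧ v x ≤ 1) →
      (∀ x, ‖fderiv ℝ v x‖ ≤ C * Λ) →
      ContDiff ℝ 2 (res Λ (TT f a n Λ v)) ∧ ∀ x, Λ * res Λ (TT f a n Λ v) x -
        lap (res Λ (TT f a n Λ v)) x = TT f a n Λ v x := by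
    intro v hv hv1 hvG
    obtain ⟨M, hM⟩ := TT_grad f hf1 L c ε c₁ hR a ha ha1 Ma hMa n (C * Λ) v hv hv1 hvG
    exact res_C2 d Λ hΛ _ (TT_C1 f hf1 a ha n Λ v hv) M hM
  -- the sequence
  have hseq : ∀ j, ContDiff ℝ 1 (sq f a n Λ j) ∧ (∀ x, 0 ≤ sq f a n Λ j x ∧ sq f a n Λ j x ≤ 1) ∧
      ∀ x, ‖fderiv ℝ (sq f a n Λ j) x‖ ≤ C * Λ := by
    intro j
    induction j with
    | zero =>
      refine ⟨contDiff_const, fun x => ⟨zero_le_one, le_rfl⟩, fun x => ?_⟩
      have : fderiv ℝ (sq f a n Λ 0) x = 0 := by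
        show fderiv ℝ (fun _ : E d => (1:ℝ)) x = 0
        simp
      rw [this, norm_zero]
      positivity
    | succ j ih => exact hstep1 _ ih.1.continuous ih.2.1
  have hanti : ∀ j x, sq f a n Λ (j + 1) x ≤ sq f a n Λ j x := by
    intro j
    induction j with
    | zero =>
      intro x
      exact ((hseq 1).2.1 x).2
    | succ j ih =>
      intro x
      exact hmon _ _ (hcont _ (hseq (j+1)).1.continuous) (hcont _ (hseq j).1.continuous)
        (habs _ (hseq (j+1)).2.1) (habs _ (hseq j).2.1)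
        (fun y => hTmono _ _ y ((hseq (j+1)).2.1 y).1 (ih y) ((hseq j).2.1 y).2) x
  have hantix : ∀ x, Antitone (fun j => sq f a n Λ j x) := fun x =>
    antitone_nat_of_succ_le (fun j => hanti j x)
  have hbb : ∀ x, BddBelow (Set.range (fun j => sq f a n Λ j x)) := fun x =>
    ⟨0, by rintro _ ⟨j, rfl⟩; exact ((hseq j).2.1 x).1⟩
  let U : E d → ℝ := fun x => ⨅ j, sq f a n Λ j x
  have hU : ∀ x, Tendsto (fun j => sq f a n Λ j x) atTop (𝓝 (U x)) := fun x =>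
    tendsto_atTop_ciInf (hantix x) (hbb x)
  have hUle : ∀ j x, U x ≤ sq f a n Λ j x := fun j x => ciInf_le (hbb x) j
  have hU01 : ∀ x, 0 ≤ U x ∧ U x ≤ 1 := by
    intro x
    exact ⟨le_ciInf (fun j => ((hseq j).2.1 x).1), (hUle 0 x).trans ((hseq 0).2.1 x).2⟩
  have hlip : ∀ x y, ‖U x - U y‖ ≤ C * Λ * ‖x - y‖ := by
    intro x y
    have h1 : Tendsto (fun j => ‖sq f a n Λ j x - sq f a n Λ j y‖) atTop (𝓝 ‖U x - U y‖) :=
      ((hU x).sub (hU y)).norm
    refine le_of_tendsto h1 (Eventually.of_forall fun j => ?_)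
    exact Convex.norm_image_sub_le_of_norm_fderiv_le (𝕜 := ℝ) (f := sq f a n Λ j)
      (s := Set.univ) (fun z _ => (hseq j).1.differentiable one_ne_zero z)
      (fun z _ => (hseq j).2.2 z) convex_univ (Set.mem_univ y) (Set.mem_univ x)
  have hUcont : Continuous U := by
    have hl : LipschitzWith (Real.toNNReal (C * Λ)) U := by
      refine LipschitzWith.of_dist_le_mul fun x y => ?_
      rw [dist_eq_norm, dist_eq_norm, Real.coe_toNNReal _ (by positivity)]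
      exact hlip x y
    exact hl.continuous
  have hUres : U = res Λ (TT f a n Λ U) := by
    funext x
    have h1 : Tendsto (fun j => sq f a n Λ (j + 1) x) atTop (𝓝 (U x)) :=
      (hU x).comp (tendsto_add_atTop_nat 1)
    have h2 : Tendsto (fun j => res Λ (TT f a n Λ (sq f a n Λ j)) x) atTop
        (𝓝 (res Λ (TT f a n Λ U) x)) := by
      refine hlim (fun j => TT f a n Λ (sq f a n Λ j)) (TT f a n Λ U)
        (fun j => hcont _ (hseq j).1.continuous) (hcont U hUcont)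
        (fun j y => habs _ (hseq j).2.1 y) (fun y => ?_) x
      unfold TT
      exact ((hU y).const_mul _).add ((hf1.continuous.tendsto _).comp (hU y))
    exact tendsto_nhds_unique h1 h2
  have hU1 := hstep1 U hUcont hU01
  rw [← hUres] at hU1
  have hU2 := hstep2 U hU1.1 hU01 hU1.2.2
  rw [← hUres] at hU2
  refine ⟨U, ⟨hU2.1, hU01, fun x => ?_⟩, ?_, ?_⟩
  · have h := hU2.2 x
    unfold TT at h
    linarith
  · intro w hw hw01 hsub x
    have key : ∀ j x, w x ≤ sq f a n Λ j x := by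
      intro j
      induction j with
      | zero => intro x; exact (hw01 x).2
      | succ j ih =>
        have hs2 := hstep2 (sq f a n Λ j) (hseq j).1 (hseq j).2.1 (hseq j).2.2
        have hz := whole_max (fun x => sq f a n Λ (j+1) x - w x) (hs2.1.sub hw) 1 Λ
          (fun x => by
            have h1 := ((hseq (j+1)).2.1 x).1
            have h2 := (hw01 x).2
            linarith) hΛ
          (fun x _ => by
            have hl := lap_sub (sq f a n Λ (j+1)) w x hs2.1.contDiffAt hw.contDiffAt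
            rw [hl]
            have h1 := hs2.2 x
            have h2 := hsub x
            have h3 := hTmono w (sq f a n Λ j) x (hw01 x).1 (ih x) ((hseq j).2.1 x).2
            have h4 : TT f a n Λ w x = (Λ - n * a x) * w x + f (w x) := rfl
            have h5 : lap (sq f a n Λ (j+1)) x = lap (res Λ (TT f a n Λ (sq f a n Λ j))) x := rfl
            have h6 : sq f a n Λ (j+1) x = res Λ (TT f a n Λ (sq f a n Λ j)) x := rfl
            rw [h5, h6]
            nlinarith)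
        intro x
        have := hz x
        linarith
    exact le_ciInf (fun j => key j x)
  · intro x₀ R ψ hRpos haz hψ hψ01 hψ0 hsub x hx
    have key : ∀ j, ∀ x ∈ closedBall x₀ R, ψ x ≤ sq f a n Λ j x := by
      intro j
      induction j with
      | zero => intro x hx; exact (hψ01 x hx).2
      | succ j ih =>
        have hs2 := hstep2 (sq f a n Λ j) (hseq j).1 (hseq j).2.1 (hseq j).2.2
        have hz2 : ContDiff ℝ 2 (fun x => sq f a n Λ (j+1) x - ψ x) := hs2.1.sub hψ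
        have hz := comp_compact (closedBall x₀ R) (isCompact_closedBall x₀ R)
          (fun x => sq f a n Λ (j+1) x - ψ x) hz2.continuous.continuousOn
          (fun x hx hneg => by
            have hneg' : sq f a n Λ (j+1) x - ψ x < 0 := hneg
            have hne : ‖x - x₀‖ ≠ R := by
              intro h
              have h1 := hψ0 x h
              have h2 := ((hseq (j+1)).2.1 x).1
              linarith
            have hxb : x ∈ ball x₀ R := by
              rw [mem_ball, dist_eq_norm]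
              rw [mem_closedBall, dist_eq_norm] at hx
              exact lt_of_le_of_ne hx hne
            refine ⟨ball_subset_interior_closedBall hxb, hz2.contDiffAt, ?_⟩
            have hl := lap_sub (sq f a n Λ (j+1)) ψ x hs2.1.contDiffAt hψ.contDiffAt
            rw [hl]
            have h1 := hs2.2 x
            have h2 := hsub x hxb
            have h3 := hTmono ψ (sq f a n Λ j) x (hψ01 x hx).1 (ih x hx) ((hseq j).2.1 x).2
            have h4 : TT f a n Λ ψ x = (Λ - n * a x) * ψ x + f (ψ x) := rfl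
            rw [haz x hx] at h4
            have h5 : lap (sq f a n Λ (j+1)) x = lap (res Λ (TT f a n Λ (sq f a n Λ j))) x := rfl
            have h6 : sq f a n Λ (j+1) x = res Λ (TT f a n Λ (sq f a n Λ j)) x := rfl
            rw [h6] at hneg'
            rw [h5]
            have h7 : Λ * (res Λ (TT f a n Λ (sq f a n Λ j)) x - ψ x) < 0 :=
              mul_neg_of_pos_of_neg hΛ hneg'
            nlinarith)
        intro x hx
        have := hz x hx
        linarith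
    exact le_ciInf (fun j => key j x hx)

end

end ExtStar
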