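import Pool.Agent.H631.EX.Defs

open Set Metric Filter Topology MeasureTheory

namespace ExtStar

noncomputable section

/-! TARGET: prove the following -/

theorem cutoff {d : ℕ} (Ω : Set (E d)) : ∃ a : E d → ℝ, ContDiff ℝ 1 a ∧
    (∀ x, 0 ≤ a x ∧ a x ≤ 1) ∧ (∃ M : ℝ, ∀ x, ‖fderiv ℝ a x‖ ≤ M) ∧
    (∀ x ∈ closure Ω, a x = 0) ∧ ∀ x, x ∉ closure Ω → 0 < a x := by
  classical
  set s : Set (E d) := (closure Ω)ᶜ with hsdef
  have hs : IsOpen s := isClosed_closure.isOpen_compl
  rcases Set.eq_empty_or_nonempty s with h's | h's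
  · refine ⟨fun _ => 0, contDiff_const, fun x => ⟨le_refl _, zero_le_one⟩, ⟨0, fun x => by simp⟩,
      fun x _ => rfl, fun x hx => ?_⟩
    exfalso
    have : x ∈ s := hx
    rw [h's] at this
    exact this
  let ι := { f : E d → ℝ // Function.support f ⊆ s ∧ HasCompactSupport f ∧ ContDiff ℝ 1 f ∧ Set.range f ⊆ Set.Icc 0 1 }
  obtain ⟨T, T_count, hT⟩ : ∃ T : Set ι, T.Countable ∧ ⋃ f ∈ T, Function.support (f : E d → ℝ) = s := by
    have : ⋃ f : ι, Function.support (f : E d → ℝ) = s := by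
      refine Set.Subset.antisymm (Set.iUnion_subset fun f => f.2.1) ?_
      intro x hx
      rcases exists_contDiff_tsupport_subset (n := 1) (hs.mem_nhds hx) with ⟨f, hf⟩
      let g : ι := ⟨f, (subset_tsupport f).trans hf.1, hf.2.1, hf.2.2.1, hf.2.2.2.1⟩
      have : x ∈ Function.support (g : E d → ℝ) := by
        simp only [g, hf.2.2.2.2, Function.mem_support, Ne, one_ne_zero, not_false_iff]
      exact Set.mem_iUnion_of_mem _ this
    simp_rw [← this]
    apply TopologicalSpace.isOpen_iUnion_countable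
    rintro ⟨f, hf⟩
    exact hf.2.2.1.continuous.isOpen_support
  obtain ⟨g0, hg⟩ : ∃ g0 : ℕ → ι, T = Set.range g0 := by
    apply Set.Countable.exists_eq_range T_count
    rcases Set.eq_empty_or_nonempty T with (rfl | hT')
    · exfalso
      simp only [Set.mem_empty_iff_false, Set.iUnion_of_empty, Set.iUnion_empty] at hT
      rw [← hT] at h's
      exact Set.not_nonempty_empty h's
    · exact hT'
  let g : ℕ → E d → ℝ := fun n => (g0 n).1
  have g_s : ∀ n, Function.support (g n) ⊆ s := fun n => (g0 n).2.1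
  have s_g : ∀ x ∈ s, ∃ n, x ∈ Function.support (g n) := fun x hx ↦ by
    rw [← hT] at hx
    obtain ⟨i, iT, hi⟩ : ∃ i ∈ T, x ∈ Function.support (i : E d → ℝ) := by
      simpa only [Set.mem_iUnion, exists_prop] using! hx
    rw [hg] at iT
    obtain ⟨n, rfl⟩ := iT
    exact ⟨n, hi⟩
  have g_smooth : ∀ n, ContDiff ℝ 1 (g n) := fun n => (g0 n).2.2.2.1
  have g_comp_supp : ∀ n, HasCompactSupport (g n) := fun n => (g0 n).2.2.1
  have g_nonneg : ∀ n x, 0 ≤ g n x := fun n x => ((g0 n).2.2.2.2 (Set.mem_range_self x)).1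
  obtain ⟨δ, δpos, c, δc, c_lt⟩ :
      ∃ δ : ℕ → NNReal, (∀ i : ℕ, 0 < δ i) ∧ ∃ c : NNReal, HasSum δ c ∧ c < 1 :=
    NNReal.exists_pos_sum_of_countable one_ne_zero ℕ
  have : ∀ n : ℕ, ∃ r : ℝ, 0 < r ∧ (∀ x, |r * g n x| ≤ δ n) ∧ ∀ x, ‖fderiv ℝ (fun y => r * g n y) x‖ ≤ δ n := by
    intro n
    have h0 : BddAbove (Set.range fun x => ‖g n x‖) :=
      (g_smooth n).continuous.norm.bddAbove_range_of_hasCompactSupport
        (HasCompactSupport.comp_left (g_comp_supp n) norm_zero)
    have h1 : BddAbove (Set.range fun x => ‖fderiv ℝ (g n) x‖) :=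
      ((g_smooth n).continuous_fderiv one_ne_zero).norm.bddAbove_range_of_hasCompactSupport
        (HasCompactSupport.comp_left ((g_comp_supp n).fderiv ℝ) norm_zero)
    obtain ⟨R0, hR0⟩ := h0
    obtain ⟨R1, hR1⟩ := h1
    set M : ℝ := max (max R0 R1) 1 with hM
    have hMpos : 0 < M := lt_of_lt_of_le one_pos (le_max_right _ _)
    have hM0 : ∀ x, ‖g n x‖ ≤ M := fun x =>
      (hR0 (Set.mem_range_self x)).trans ((le_max_left _ _).trans (le_max_left _ _))
    have hM1 : ∀ x, ‖fderiv ℝ (g n) x‖ ≤ M := fun x =>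
      (hR1 (Set.mem_range_self x)).trans ((le_max_right _ _).trans (le_max_left _ _))
    have δnpos : (0 : ℝ) < δ n := by exact_mod_cast δpos n
    refine ⟨M⁻¹ * δ n, by positivity, fun x => ?_, fun x => ?_⟩
    · rw [abs_mul, abs_of_pos (by positivity : 0 < M⁻¹ * (δ n : ℝ))]
      calc M⁻¹ * (δ n : ℝ) * |g n x| ≤ M⁻¹ * (δ n : ℝ) * M := by
            gcongr; exact hM0 x
        _ = δ n := by field_simp
    · have hd : fderiv ℝ (fun y => M⁻¹ * (δ n : ℝ) * g n y) x = (M⁻¹ * (δ n : ℝ)) • fderiv ℝ (g n) x := by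
        rw [fderiv_const_mul]
        exact ((g_smooth n).differentiable one_ne_zero).differentiableAt
      rw [hd, norm_smul, Real.norm_of_nonneg (by positivity)]
      calc M⁻¹ * (δ n : ℝ) * ‖fderiv ℝ (g n) x‖ ≤ M⁻¹ * (δ n : ℝ) * M := by
            gcongr; exact hM1 x
        _ = δ n := by field_simp
  choose r rpos hr0 hr1 using this
  have hδs : Summable (fun n => (δ n : ℝ)) := (NNReal.hasSum_coe.2 δc).summable
  have S : ∀ x, Summable fun n => r n * g n x := fun x =>
    Summable.of_norm_bounded hδs (fun n => hr0 n x)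
  have hdiff : ∀ n, Differentiable ℝ (fun y => r n * g n y) := fun n =>
    ((g_smooth n).differentiable one_ne_zero).const_mul _
  refine ⟨fun x => ∑' n, r n * g n x, ?_, ?_, ?_, ?_, ?_⟩
  · have h := contDiff_tsum (𝕜 := ℝ) (N := 1) (f := fun n x => r n * g n x) (v := fun _ n => (δ n : ℝ))
      (fun n => by exact_mod_cast (contDiff_const.mul (g_smooth n)))
      (fun k _ => hδs) (by
        intro k n x hk
        have hk' : k ≤ 1 := by exact_mod_cast hk
        interval_cases k
        · rw [norm_iteratedFDeriv_zero]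
          exact hr0 n x
        · rw [norm_iteratedFDeriv_one]
          exact hr1 n x)
    exact_mod_cast h
  · intro x
    refine ⟨tsum_nonneg fun n => mul_nonneg (rpos n).le (g_nonneg n x), ?_⟩
    have A : HasSum (fun n => (δ n : ℝ)) c := NNReal.hasSum_coe.2 δc
    calc ∑' n, r n * g n x ≤ ∑' n, (δ n : ℝ) :=
          Summable.tsum_le_tsum (fun n => (le_abs_self _).trans (hr0 n x)) (S x) A.summable
      _ = c := A.tsum_eq
      _ ≤ 1 := by exact_mod_cast c_lt.le
  · refine ⟨∑' n, (δ n : ℝ), fun x => ?_⟩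
    rw [fderiv_tsum_apply hδs hdiff hr1 (S 0) x]
    exact tsum_of_norm_bounded hδs.hasSum (fun n => hr1 n x)
  · intro x hx
    have : ∀ n, r n * g n x = 0 := by
      intro n
      have : g n x = 0 := by
        by_contra h
        exact (g_s n h) hx
      rw [this, mul_zero]
    simp [this]
  · intro x hx
    obtain ⟨n, hn⟩ := s_g x hx
    have I : 0 < r n * g n x := mul_pos (rpos n) (lt_of_le_of_ne (g_nonneg n x) (Ne.symm hn))
    exact (S x).tsum_pos (fun i => mul_nonneg (rpos i).le (g_nonneg i x)) n I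

end

end ExtStar
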