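import Pool.Agent.H631.EX.Defs
import Pool.Agent.H631.ES.X02
import Pool.Agent.H631.ES.X03
import Pool.Agent.H631.ES.X05

open Set Metric Filter Topology MeasureTheory

namespace ExtStar

noncomputable section

/-! TARGET: prove the following -/

theorem out_decay {d : ℕ} (f : ℝ → ℝ) (L c ε c₁ : ℝ) (hR : RC f L c ε c₁) (a : E d → ℝ)
    (ha : Continuous a) (K : Set (E d)) (hK : IsCompact K) (hpos : ∀ x ∈ K, 0 < a x)
    (ha0 : ∀ x, 0 ≤ a x) (e : ℝ) (he : 0 < e) :
    ∃ N : ℕ, ∀ n : ℕ, N ≤ n → ∀ u : E d → ℝ, App f a n u → ∀ x ∈ K, u x ≤ e := by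
  rcases K.eq_empty_or_nonempty with hKe | hKne
  · exact ⟨0, fun n _ u _ x hx => by rw [hKe] at hx; exact absurd hx (notMem_empty x)⟩
  obtain ⟨hL0, _, _, _, _, hf0, _, hLip, _, _⟩ := hR
  obtain ⟨x0, hx0, hmin⟩ := hK.exists_isMinOn hKne ha.continuousOn
  have hm : 0 < a x0 := hpos x0 hx0
  have hU : IsOpen {y | a x0 / 2 < a y} := isOpen_lt continuous_const ha
  have hKU : K ⊆ {y | a x0 / 2 < a y} := by
    intro y hy
    have : a x0 ≤ a y := hmin hy
    show a x0 / 2 < a y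
    linarith
  obtain ⟨η, hη, hηU⟩ := hK.exists_cthickening_subset_open hU hKU
  have hball : ∀ x ∈ K, ∀ y ∈ closedBall x η, a x0 / 2 < a y := by
    intro x hx y hy
    exact hηU (closedBall_subset_cthickening hx η hy)
  obtain ⟨N, hN⟩ := exists_nat_gt ((2 * (d : ℝ) / η ^ 2 + L) / (a x0 / 2 * e))
  refine ⟨N, fun n hn u hu x hx => ?_⟩
  obtain ⟨hu2, hu01, hueq⟩ := hu
  have hae : 0 < a x0 / 2 * e := by positivity
  have hN' : 2 * (d : ℝ) / η ^ 2 + L < n * (a x0 / 2 * e) := by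
    have h1 : (2 * (d : ℝ) / η ^ 2 + L) / (a x0 / 2 * e) < n :=
      lt_of_lt_of_le hN (by exact_mod_cast hn)
    rwa [div_lt_iff₀ hae] at h1
  let z : E d → ℝ := fun y => (η ^ 2)⁻¹ * ‖y - x‖ ^ 2 + (e - u y)
  have hns : ContDiff ℝ 2 (fun y : E d => ‖y - x‖ ^ 2) :=
    (contDiff_norm_sq ℝ).comp (contDiff_id.sub contDiff_const)
  have h1c : ContDiff ℝ 2 (fun y : E d => (η ^ 2)⁻¹ * ‖y - x‖ ^ 2) := contDiff_const.mul hns
  have h2c : ContDiff ℝ 2 (fun y : E d => e - u y) := contDiff_const.sub hu2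
  have hzc : ContDiff ℝ 2 z := h1c.add h2c
  have hlapz : ∀ y, lap z y = (η ^ 2)⁻¹ * (2 * (d : ℝ)) - lap u y := by
    intro y
    have e1 : lap z y = lap (fun y : E d => (η ^ 2)⁻¹ * ‖y - x‖ ^ 2) y +
        lap (fun y : E d => e - u y) y := lap_add _ _ y h1c.contDiffAt h2c.contDiffAt
    rw [e1, lap_smul _ _ y hns.contDiffAt, lap_normsq,
      lap_sub (fun _ => e) u y contDiffAt_const hu2.contDiffAt, lap_const]
    ring
  have key := comp_compact (closedBall x η) (isCompact_closedBall x η) z hzc.continuous.continuousOn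
    (by
      intro y hy hzy
      have hu1 := hu01 y
      have hdist : ‖y - x‖ ≤ η := by rwa [mem_closedBall, dist_eq_norm] at hy
      have hnn : 0 ≤ (η ^ 2)⁻¹ * ‖y - x‖ ^ 2 := by positivity
      have hue : e < u y := by
        have : (η ^ 2)⁻¹ * ‖y - x‖ ^ 2 + (e - u y) < 0 := hzy
        linarith
      refine ⟨?_, hzc.contDiffAt, ?_⟩
      · apply ball_subset_interior_closedBall
        rw [mem_ball, dist_eq_norm]
        refine lt_of_le_of_ne hdist (fun heq => ?_)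
        have h3 : (η ^ 2)⁻¹ * ‖y - x‖ ^ 2 = 1 := by
          rw [heq]; field_simp
        have : (η ^ 2)⁻¹ * ‖y - x‖ ^ 2 + (e - u y) < 0 := hzy
        linarith
      · rw [hlapz y]
        have h4 := hueq y
        have h5 : f (u y) ≤ L := by
          have h6 := hLip (u y) ⟨hu1.1, hu1.2⟩ 0 ⟨le_rfl, zero_le_one⟩
          rw [hf0, sub_zero, sub_zero, abs_of_nonneg hu1.1] at h6
          have h7 := le_abs_self (f (u y))
          nlinarith [hu1.2]
        have h8 : (n : ℝ) * (a x0 / 2 * e) ≤ n * a y * u y := by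
          have h9 : a x0 / 2 * e ≤ a y * u y :=
            mul_le_mul (hball x hx y hy).le hue.le he.le (ha0 y)
          calc (n : ℝ) * (a x0 / 2 * e) ≤ n * (a y * u y) :=
                mul_le_mul_of_nonneg_left h9 (Nat.cast_nonneg n)
            _ = n * a y * u y := by ring
        have h10 : (η ^ 2)⁻¹ * (2 * (d : ℝ)) = 2 * (d : ℝ) / η ^ 2 := by
          rw [div_eq_mul_inv, mul_comm]
        rw [h10]
        linarith)
    x (mem_closedBall_self hη.le)
  have : 0 ≤ (η ^ 2)⁻¹ * ‖x - x‖ ^ 2 + (e - u x) := key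
  simp at this
  exact this

end

end ExtStar
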