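import Pool.Agent.H631.EX.Defs
import Pool.Agent.H631.EX.Y11
import Pool.Agent.H631.ES.X02
import Pool.Agent.H631.ES.X03
import Pool.Agent.H631.ES.X05

open Set Metric Filter Topology MeasureTheory

namespace ExtStar

noncomputable section

/-! TARGET: prove the following -/

theorem bdry_lim_phi {d : ℕ} (α : ℝ) (y : E d) :
    ContDiff ℝ 2 (fun s : E d => Real.exp (-(α * ‖s - y‖ ^ 2))) :=
  (contDiff_const.mul ((contDiff_id.sub contDiff_const).norm_sq ℝ)).neg.exp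

theorem bdry_lim_ann {d : ℕ} (f : ℝ → ℝ) (L c ε c₁ : ℝ) (hR : RC f L c ε c₁) (a : E d → ℝ)
    (ha0 : ∀ x, 0 ≤ a x) (n : ℕ) (v : E d → ℝ) (hv : App f a n v) (y : E d)
    (r ρ α C e : ℝ) (hr : 0 < r) (hρ1 : r / 4 ≤ ρ) (hρ2 : ρ ≤ r / 2) (hα : 0 < α)
    (hα2 : 1 ≤ 4 * α ^ 2 * (r / 4) ^ 2 - 2 * (d : ℝ) * α) (hC : 0 < C)
    (hC1 : L < C * Real.exp (-(α * (2 * r) ^ 2)))
    (hC2 : 1 ≤ C * (Real.exp (-(α * (r / 2) ^ 2)) - Real.exp (-(α * (2 * r) ^ 2))))
    (he : 0 ≤ e) (hin : ∀ s, ‖s - y‖ ≤ ρ → v s ≤ e) :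
    ∀ s, ρ ≤ ‖s - y‖ → ‖s - y‖ ≤ 2 * r →
      v s ≤ C * (Real.exp (-(α * ρ ^ 2)) - Real.exp (-(α * ‖s - y‖ ^ 2))) + e := by
  obtain ⟨hL, -, -, -, -, f0, -, hLip, -, -⟩ := hR
  obtain ⟨v1, v2, v3⟩ := hv
  have hρ0 : 0 < ρ := lt_of_lt_of_le (by positivity) hρ1
  have hcn : Continuous (fun s : E d => ‖s - y‖) := (continuous_id.sub continuous_const).norm
  set c0 : ℝ := C * Real.exp (-(α * ρ ^ 2)) + e with hc0
  set z : E d → ℝ := fun s => (c0 - C * Real.exp (-(α * ‖s - y‖ ^ 2))) - v s with hz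
  set K : Set (E d) := closedBall y (2 * r) ∩ {s | ρ ≤ ‖s - y‖} with hK
  have hKc : IsCompact K :=
    (isCompact_closedBall y (2 * r)).inter_right (isClosed_le continuous_const hcn)
  have hφ := bdry_lim_phi α y
  have hzc : ContDiff ℝ 2 z :=
    (contDiff_const.sub (contDiff_const.mul hφ)).sub v1
  have hzcont : ContinuousOn z K := hzc.continuous.continuousOn
  have key : ∀ x ∈ K, z x < 0 → x ∈ interior K ∧ ContDiffAt ℝ 2 z x ∧ lap z x < 0 := by
    intro x hx hzx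
    obtain ⟨hx1, hx2⟩ := hx
    rw [mem_closedBall, dist_eq_norm] at hx1
    have hx2' : ρ ≤ ‖x - y‖ := hx2
    have hvx := v2 x
    have hzx' : (C * Real.exp (-(α * ρ ^ 2)) + e - C * Real.exp (-(α * ‖x - y‖ ^ 2))) - v x < 0 :=
      hzx
    have hne1 : ρ ≠ ‖x - y‖ := by
      intro h
      have h1 := hin x (le_of_eq h.symm)
      rw [← h] at hzx'
      linarith
    have hne2 : ‖x - y‖ ≠ 2 * r := by
      intro h
      rw [h] at hzx'
      have h1 : Real.exp (-(α * (r / 2) ^ 2)) ≤ Real.exp (-(α * ρ ^ 2)) := by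
        apply Real.exp_le_exp.2
        have h2 : ρ ^ 2 ≤ (r / 2) ^ 2 := pow_le_pow_left₀ hρ0.le hρ2 2
        nlinarith
      have h3 : C * (Real.exp (-(α * (r / 2) ^ 2)) - Real.exp (-(α * (2 * r) ^ 2))) ≤
          C * (Real.exp (-(α * ρ ^ 2)) - Real.exp (-(α * (2 * r) ^ 2))) :=
        mul_le_mul_of_nonneg_left (by linarith) hC.le
      linarith [hvx.2]
    have hlt1 : ρ < ‖x - y‖ := lt_of_le_of_ne hx2' hne1
    have hlt2 : ‖x - y‖ < 2 * r := lt_of_le_of_ne hx1 hne2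
    refine ⟨?_, hzc.contDiffAt, ?_⟩
    · rw [mem_interior]
      refine ⟨{s | ρ < ‖s - y‖} ∩ {s | ‖s - y‖ < 2 * r}, ?_, ?_, ⟨hlt1, hlt2⟩⟩
      · rintro s ⟨hs1, hs2⟩
        have hs1' : ρ < ‖s - y‖ := hs1
        have hs2' : ‖s - y‖ < 2 * r := hs2
        refine ⟨?_, hs1'.le⟩
        rw [mem_closedBall, dist_eq_norm]
        exact hs2'.le
      · exact (isOpen_lt continuous_const hcn).inter (isOpen_lt hcn continuous_const)
    · have hl : lap z x = 0 - C * ((4 * α ^ 2 * ‖x - y‖ ^ 2 - 2 * (d : ℝ) * α) *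
          Real.exp (-(α * ‖x - y‖ ^ 2))) - lap v x := by
        have e1 : lap z x = lap (fun s : E d => c0 - C * Real.exp (-(α * ‖s - y‖ ^ 2))) x -
            lap v x :=
          lap_sub (fun s : E d => c0 - C * Real.exp (-(α * ‖s - y‖ ^ 2))) v x
            (contDiff_const.sub (contDiff_const.mul hφ)).contDiffAt v1.contDiffAt
        have e2 : lap (fun s : E d => c0 - C * Real.exp (-(α * ‖s - y‖ ^ 2))) x =
            lap (fun _ : E d => c0) x - lap (fun s : E d => C * Real.exp (-(α * ‖s - y‖ ^ 2))) x :=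
          lap_sub (fun _ : E d => c0) (fun s : E d => C * Real.exp (-(α * ‖s - y‖ ^ 2))) x
            contDiffAt_const (contDiff_const.mul hφ).contDiffAt
        have e3 : lap (fun s : E d => C * Real.exp (-(α * ‖s - y‖ ^ 2))) x =
            C * lap (fun s : E d => Real.exp (-(α * ‖s - y‖ ^ 2))) x :=
          lap_smul C (fun s : E d => Real.exp (-(α * ‖s - y‖ ^ 2))) x hφ.contDiffAt
        rw [e1, e2, e3, lap_const, lap_gauss]
      rw [hl]
      have h3 := v3 x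
      have hfv : f (v x) ≤ L := by
        have h4 := hLip (v x) ⟨hvx.1, hvx.2⟩ 0 ⟨le_refl _, zero_le_one⟩
        rw [f0, sub_zero, sub_zero, abs_of_nonneg hvx.1] at h4
        have h5 := le_abs_self (f (v x))
        nlinarith [hvx.1, hvx.2]
      have hna : 0 ≤ (n : ℝ) * a x * v x :=
        mul_nonneg (mul_nonneg (Nat.cast_nonneg n) (ha0 x)) hvx.1
      have h6 : 1 ≤ 4 * α ^ 2 * ‖x - y‖ ^ 2 - 2 * (d : ℝ) * α := by
        have h7 : (r / 4) ^ 2 ≤ ‖x - y‖ ^ 2 :=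
          pow_le_pow_left₀ (by positivity) (hρ1.trans hx2') 2
        have h8 : 4 * α ^ 2 * (r / 4) ^ 2 ≤ 4 * α ^ 2 * ‖x - y‖ ^ 2 :=
          mul_le_mul_of_nonneg_left h7 (by positivity)
        linarith
      have h9 : Real.exp (-(α * (2 * r) ^ 2)) ≤ Real.exp (-(α * ‖x - y‖ ^ 2)) := by
        apply Real.exp_le_exp.2
        have h10 : ‖x - y‖ ^ 2 ≤ (2 * r) ^ 2 := pow_le_pow_left₀ (norm_nonneg _) hx1 2
        nlinarith
      have h11 : Real.exp (-(α * (2 * r) ^ 2)) ≤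
          (4 * α ^ 2 * ‖x - y‖ ^ 2 - 2 * (d : ℝ) * α) * Real.exp (-(α * ‖x - y‖ ^ 2)) := by
        calc Real.exp (-(α * (2 * r) ^ 2)) ≤ Real.exp (-(α * ‖x - y‖ ^ 2)) := h9
          _ = 1 * Real.exp (-(α * ‖x - y‖ ^ 2)) := (one_mul _).symm
          _ ≤ _ := mul_le_mul_of_nonneg_right h6 (Real.exp_pos _).le
      have h12 : C * Real.exp (-(α * (2 * r) ^ 2)) ≤
          C * ((4 * α ^ 2 * ‖x - y‖ ^ 2 - 2 * (d : ℝ) * α) * Real.exp (-(α * ‖x - y‖ ^ 2))) :=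
        mul_le_mul_of_nonneg_left h11 hC.le
      linarith
  intro s hs1 hs2
  have hsK : s ∈ K := by
    refine ⟨?_, hs1⟩
    rw [mem_closedBall, dist_eq_norm]
    exact hs2
  have h := comp_compact K hKc z hzcont key s hsK
  have h' : 0 ≤ (C * Real.exp (-(α * ρ ^ 2)) + e - C * Real.exp (-(α * ‖s - y‖ ^ 2))) - v s := h
  linarith

theorem bdry_lim {d : ℕ} (f : ℝ → ℝ) (L c ε c₁ : ℝ) (hR : RC f L c ε c₁) (Ω : Set (E d)) (r : ℝ)
    (hr : 0 < r) (q ν : E d) (hq : TB Ω r q ν) (a : E d → ℝ) (ha : Continuous a)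
    (ha0 : ∀ x, 0 ≤ a x) (hpos : ∀ x, x ∉ closure Ω → 0 < a x) (us : ℕ → E d → ℝ)
    (hus : ∀ n, App f a n (us n)) (u : E d → ℝ)
    (hu : ∀ x, Tendsto (fun n => us n x) atTop (𝓝 (u x))) : u q = 0 ∧ ContinuousAt u q := by
  obtain ⟨hqf, hν, -, hout⟩ := hq
  set y : E d := q - (r / 2) • ν with hy
  have hqy : ‖q - y‖ = r / 2 := by
    rw [hy, sub_sub_cancel, norm_smul, hν, mul_one, Real.norm_eq_abs, abs_of_pos (by positivity)]
  have hcl : ∀ s, ‖s - y‖ < r / 2 → 0 < a s := by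
    intro s hs
    apply hpos
    intro hsc
    have h1 : s ∈ ball (q - r • ν) r := by
      rw [mem_ball, dist_eq_norm]
      have h2 : s - (q - r • ν) = (s - y) + (r / 2) • ν := by
        rw [hy]
        have h3 : r • ν = (r / 2) • ν + (r / 2) • ν := by
          rw [← add_smul]
          congr 1
          ring
        rw [h3]
        abel
      rw [h2]
      refine (norm_add_le _ _).trans_lt ?_
      rw [norm_smul, hν, mul_one, Real.norm_eq_abs, abs_of_pos (by positivity : (0 : ℝ) < r / 2)]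
      linarith
    obtain ⟨x, hx1, hx2⟩ := mem_closure_iff.1 hsc _ isOpen_ball h1
    exact hout hx1 hx2
  set α : ℝ := 1 + (8 * (d : ℝ) + 4) / r ^ 2 with hα
  have hα1 : 1 ≤ α := by
    rw [hα]
    have : 0 ≤ (8 * (d : ℝ) + 4) / r ^ 2 := by positivity
    linarith
  have hα0 : 0 < α := by linarith
  have hα2 : 1 ≤ 4 * α ^ 2 * (r / 4) ^ 2 - 2 * (d : ℝ) * α := by
    have h1 : α * r ^ 2 = r ^ 2 + (8 * (d : ℝ) + 4) := by
      rw [hα]
      field_simp
    have h2 : 4 * α ^ 2 * (r / 4) ^ 2 - 2 * (d : ℝ) * α = α * ((α * r ^ 2) / 4 - 2 * d) := by ring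
    rw [h2, h1]
    have h3 : 1 ≤ (r ^ 2 + (8 * (d : ℝ) + 4)) / 4 - 2 * d := by nlinarith [sq_nonneg r]
    nlinarith
  set E1 : ℝ := Real.exp (-(α * (2 * r) ^ 2)) with hE1
  have hE1p : 0 < E1 := Real.exp_pos _
  set E2 : ℝ := Real.exp (-(α * (r / 2) ^ 2)) - E1 with hE2
  have hE2p : 0 < E2 := by
    rw [hE2, sub_pos, hE1]
    apply Real.exp_lt_exp.2
    have : (r / 2) ^ 2 < (2 * r) ^ 2 := by nlinarith
    nlinarith
  have hL : 0 < L := hR.1
  set C : ℝ := (L + 1) / E1 + 1 / E2 with hC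
  have hC0 : 0 < C := by positivity
  have hC1 : L < C * E1 := by
    have h1 : C * E1 = (L + 1) + 1 / E2 * E1 := by
      rw [hC, add_mul, div_mul_cancel₀ _ hE1p.ne']
    have h2 : 0 < 1 / E2 * E1 := by positivity
    linarith
  have hC2 : 1 ≤ C * E2 := by
    have h1 : C * E2 = (L + 1) / E1 * E2 + 1 := by
      rw [hC, add_mul, div_mul_cancel₀ _ hE2p.ne']
    have h2 : 0 < (L + 1) / E1 * E2 := by positivity
    linarith
  have hmain : ∀ ρ, r / 4 ≤ ρ → ρ < r / 2 → ∀ s, ‖s - y‖ ≤ 2 * r →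
      u s ≤ C * max 0 (Real.exp (-(α * ρ ^ 2)) - Real.exp (-(α * ‖s - y‖ ^ 2))) := by
    intro ρ hρ1 hρ2 s hs
    apply le_of_forall_pos_le_add
    intro e he
    have hKpos : ∀ x ∈ closedBall y ρ, 0 < a x := by
      intro x hx
      rw [mem_closedBall, dist_eq_norm] at hx
      exact hcl x (lt_of_le_of_lt hx hρ2)
    obtain ⟨N, hN⟩ := out_decay f L c ε c₁ hR a ha (closedBall y ρ) (isCompact_closedBall y ρ)
      hKpos ha0 e he
    have hm0 : 0 ≤ C * max 0 (Real.exp (-(α * ρ ^ 2)) - Real.exp (-(α * ‖s - y‖ ^ 2))) :=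
      mul_nonneg hC0.le (le_max_left _ _)
    refine le_of_tendsto (hu s) (eventually_atTop.2 ⟨N, fun n hn => ?_⟩)
    have hin : ∀ x, ‖x - y‖ ≤ ρ → us n x ≤ e := by
      intro x hx
      apply hN n hn (us n) (hus n) x
      rw [mem_closedBall, dist_eq_norm]
      exact hx
    rcases le_total ‖s - y‖ ρ with h | h
    · have := hin s h
      linarith
    · have h1 := bdry_lim_ann f L c ε c₁ hR a ha0 n (us n) (hus n) y r ρ α C e hr hρ1 hρ2.le hα0
        hα2 hC0 hC1 hC2 he.le hin s h hs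
      have h2 : C * (Real.exp (-(α * ρ ^ 2)) - Real.exp (-(α * ‖s - y‖ ^ 2))) ≤
          C * max 0 (Real.exp (-(α * ρ ^ 2)) - Real.exp (-(α * ‖s - y‖ ^ 2))) :=
        mul_le_mul_of_nonneg_left (le_max_right _ _) hC0.le
      linarith
  have hlim : ∀ s, ‖s - y‖ ≤ 2 * r →
      u s ≤ C * max 0 (Real.exp (-(α * (r / 2) ^ 2)) - Real.exp (-(α * ‖s - y‖ ^ 2))) := by
    intro s hs
    have hc : Continuous (fun ρ : ℝ =>
        C * max 0 (Real.exp (-(α * ρ ^ 2)) - Real.exp (-(α * ‖s - y‖ ^ 2)))) := by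
      fun_prop
    have ht : Tendsto (fun ρ : ℝ =>
        C * max 0 (Real.exp (-(α * ρ ^ 2)) - Real.exp (-(α * ‖s - y‖ ^ 2)))) (𝓝[<] (r / 2))
        (𝓝 (C * max 0 (Real.exp (-(α * (r / 2) ^ 2)) - Real.exp (-(α * ‖s - y‖ ^ 2))))) :=
      (hc.tendsto (r / 2)).mono_left nhdsWithin_le_nhds
    refine ge_of_tendsto ht ?_
    have h1 : Ioo (r / 4) (r / 2) ∈ 𝓝[<] (r / 2) := Ioo_mem_nhdsLT (by linarith)
    filter_upwards [h1] with ρ hρ
    exact hmain ρ hρ.1.le hρ.2 s hs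
  have hnn : ∀ s, 0 ≤ u s := fun s =>
    ge_of_tendsto' (hu s) (fun n => ((hus n).2.1 s).1)
  have huq : u q = 0 := by
    have h1 := hlim q (by rw [hqy]; linarith)
    rw [hqy, sub_self, max_self, mul_zero] at h1
    exact le_antisymm h1 (hnn q)
  refine ⟨huq, ?_⟩
  have hcont : Continuous (fun s : E d =>
      C * max 0 (Real.exp (-(α * (r / 2) ^ 2)) - Real.exp (-(α * ‖s - y‖ ^ 2)))) := by
    fun_prop
  have hq0 : C * max 0 (Real.exp (-(α * (r / 2) ^ 2)) - Real.exp (-(α * ‖q - y‖ ^ 2))) = 0 := by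
    rw [hqy, sub_self, max_self, mul_zero]
  have ht := hcont.tendsto q
  rw [hq0] at ht
  show Tendsto u (𝓝 q) (𝓝 (u q))
  rw [huq]
  refine tendsto_of_tendsto_of_tendsto_of_le_of_le' tendsto_const_nhds ht
    (Eventually.of_forall hnn) ?_
  have hnb : ball y (2 * r) ∈ 𝓝 q := by
    apply isOpen_ball.mem_nhds
    rw [mem_ball, dist_eq_norm, hqy]
    linarith
  filter_upwards [hnb] with s hs
  rw [mem_ball, dist_eq_norm] at hs
  exact hlim s hs.le


end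

end ExtStar
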