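import Pool.Agent.H631.EX.Defs
import Pool.Agent.H631.ES.X12

open Set Metric Filter Topology MeasureTheory

namespace ExtStar

noncomputable section

/-! TARGET: prove the following -/

theorem int_lip (d : ℕ) (F ρ : ℝ) (hF : 0 ≤ F) (hρ : 0 < ρ) : ∃ C : ℝ, 0 < C ∧
    ∀ (u : E d → ℝ) (y : E d) (M : ℝ), ContDiffOn ℝ 2 u (ball y ρ) → (∀ x ∈ ball y ρ, |u x| ≤ M) →
      (∀ x ∈ ball y ρ, |lap u x| ≤ F * M) → ∀ x ∈ ball y (ρ / 2), ‖fderiv ℝ u x‖ ≤ C * M := by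
  refine ⟨(d : ℝ) * ((d : ℝ) / (ρ / 2) + ρ / 2 * F) + 1, by positivity, ?_⟩
  intro u y M hu hM hL x hx
  have hM0 : 0 ≤ M := (abs_nonneg (u y)).trans (hM y (mem_ball_self hρ))
  have hsub : ball x (ρ / 2) ⊆ ball y ρ := by
    apply ball_subset_ball'
    have h1 : dist x y < ρ / 2 := hx
    linarith
  have hρ2 : 0 < ρ / 2 := by linarith
  have hg := fun i : Fin d => grad_est u x (ρ / 2) M (F * M) hρ2 (hu.mono hsub)
    (fun z hz => hM z (hsub hz)) (fun z hz => hL z (hsub hz)) i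
  have hK : 0 ≤ (d : ℝ) * M / (ρ / 2) + ρ / 2 * (F * M) := by positivity
  have hop : ‖fderiv ℝ u x‖ ≤ (d : ℝ) * ((d : ℝ) * M / (ρ / 2) + ρ / 2 * (F * M)) := by
    refine ContinuousLinearMap.opNorm_le_bound _ (by positivity) (fun v => ?_)
    have hv : v = ∑ i : Fin d, v i • (EuclideanSpace.single i (1 : ℝ) : E d) := by
      have h := (EuclideanSpace.basisFun (Fin d) ℝ).sum_repr v
      simp only [EuclideanSpace.basisFun_repr, EuclideanSpace.basisFun_apply] at h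
      exact h.symm
    have hlin : fderiv ℝ u x v =
        ∑ i : Fin d, v i * fderiv ℝ u x (EuclideanSpace.single i (1 : ℝ)) := by
      conv_lhs => rw [hv]
      rw [map_sum]
      exact Finset.sum_congr rfl (fun i _ => by rw [map_smul, smul_eq_mul])
    rw [hlin]
    calc ‖∑ i : Fin d, v i * fderiv ℝ u x (EuclideanSpace.single i (1 : ℝ))‖
        ≤ ∑ i : Fin d, ‖v i * fderiv ℝ u x (EuclideanSpace.single i (1 : ℝ))‖ := norm_sum_le _ _
      _ ≤ ∑ i : Fin d, ‖v‖ * ((d : ℝ) * M / (ρ / 2) + ρ / 2 * (F * M)) := by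
          refine Finset.sum_le_sum (fun i _ => ?_)
          rw [norm_mul]
          exact mul_le_mul (PiLp.norm_apply_le v i) (hg i) (norm_nonneg _) (norm_nonneg _)
      _ = (d : ℝ) * ((d : ℝ) * M / (ρ / 2) + ρ / 2 * (F * M)) * ‖v‖ := by
          rw [Finset.sum_const, Finset.card_univ, Fintype.card_fin, nsmul_eq_mul]
          ring
  calc ‖fderiv ℝ u x‖ ≤ (d : ℝ) * ((d : ℝ) * M / (ρ / 2) + ρ / 2 * (F * M)) := hop
    _ = (d : ℝ) * ((d : ℝ) / (ρ / 2) + ρ / 2 * F) * M := by ring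
    _ ≤ ((d : ℝ) * ((d : ℝ) / (ρ / 2) + ρ / 2 * F) + 1) * M := by nlinarith

end

end ExtStar
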