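import Pool.Agent.H631.EX.Defs
import Pool.Agent.H631.EX.Y13
import Pool.Agent.H631.ES.X03
import Pool.Agent.H631.ES.X04

open Set Metric Filter Topology MeasureTheory

namespace ExtStar

noncomputable section

/-! TARGET: prove the following -/

theorem int_lip2 (d : ℕ) (L ρ : ℝ) (hL : 0 ≤ L) (hρ : 0 < ρ) : ∃ C : ℝ, 0 < C ∧
    ∀ (f : ℝ → ℝ) (u : E d → ℝ) (y : E d), ContDiffOn ℝ 2 u (ball y ρ) →
      (∀ x ∈ ball y ρ, 0 ≤ u x ∧ u x ≤ 1) → f 0 = 0 →
      (∀ s ∈ Icc (0 : ℝ) 1, ∀ t ∈ Icc (0 : ℝ) 1, |f s - f t| ≤ L * |s - t|) →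
      (∀ x ∈ ball y ρ, -lap u x = f (u x)) →
      (∀ x ∈ ball y (ρ / 2), ‖fderiv ℝ u x‖ ≤ C) ∧
      ∀ x ∈ ball y (ρ / 4), ∀ x' ∈ ball y (ρ / 4), ‖fderiv ℝ u x - fderiv ℝ u x'‖ ≤ C * ‖x - x'‖ := by
  obtain ⟨C₁, hC₁, h1⟩ := int_lip d L ρ hL hρ
  obtain ⟨C₂, hC₂, h2⟩ := int_lip d L (ρ / 4) hL (by positivity)
  refine ⟨max C₁ (C₂ * C₁), lt_max_of_lt_left hC₁, ?_⟩
  intro f u y hu hu01 hf0 hfL hlap
  have hg : ∀ x ∈ ball y (ρ / 2), ‖fderiv ℝ u x‖ ≤ C₁ := by
    intro x hx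
    have := h1 u y 1 hu (fun x hx => by
      rw [abs_of_nonneg (hu01 x hx).1]; exact (hu01 x hx).2) (fun x hx => by
      have h3 := hfL (u x) (hu01 x hx) 0 ⟨le_rfl, zero_le_one⟩
      rw [← hlap x hx, hf0, sub_zero, sub_zero, abs_neg] at h3
      refine h3.trans ?_
      rw [abs_of_nonneg (hu01 x hx).1]
      exact mul_le_mul_of_nonneg_left (hu01 x hx).2 hL) x hx
    rwa [mul_one] at this
  have hcd : ∀ x ∈ ball y ρ, ContDiffAt ℝ 2 u x := fun x hx => hu.contDiffAt (isOpen_ball.mem_nhds hx)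
  have hsub : ball y (ρ / 2) ⊆ ball y ρ := ball_subset_ball (by linarith)
  have hmv : ∀ p ∈ ball y (ρ / 2), ∀ q ∈ ball y (ρ / 2), |u q - u p| ≤ C₁ * ‖q - p‖ := by
    intro p hp q hq
    rw [← Real.norm_eq_abs]
    exact Convex.norm_image_sub_le_of_norm_fderiv_le (𝕜 := ℝ)
      (fun x hx => (hcd x (hsub hx)).differentiableAt (by norm_num)) hg (convex_ball y (ρ / 2)) hp hq
  refine ⟨fun x hx => (hg x hx).trans (le_max_left _ _), ?_⟩
  intro x hx x' hx'
  obtain ⟨h, hh⟩ : ∃ h, h = x' - x := ⟨_, rfl⟩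
  have hxh : x + h = x' := by rw [hh]; abel
  have hz1 : ∀ z ∈ ball x (ρ / 4), z ∈ ball y (ρ / 2) := by
    intro z hz
    rw [mem_ball] at hz hx ⊢
    linarith [dist_triangle z x y]
  have hz2 : ∀ z ∈ ball x (ρ / 4), z + h ∈ ball y (ρ / 2) := by
    intro z hz
    rw [mem_ball] at hz hx' ⊢
    have e1 : dist (z + h) x' = dist z x := by
      rw [← hxh, dist_add_right]
    linarith [dist_triangle (z + h) x' y]
  have hwd : ∀ z ∈ ball x (ρ / 4), ContDiffAt ℝ 2 (fun y => u (y + h)) z := by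
    intro z hz
    have h3 := hcd (z + h) (hsub (hz2 z hz))
    exact ContDiffAt.comp z h3 (contDiffAt_id.add contDiffAt_const)
  have h3 := h2 (fun z => u (z + h) - u z) x (C₁ * ‖h‖) (fun z hz =>
      ((hwd z hz).sub (hcd z (hsub (hz1 z hz)))).contDiffWithinAt) (fun z hz => by
      have := hmv z (hz1 z hz) (z + h) (hz2 z hz)
      rwa [add_sub_cancel_left] at this) (fun z hz => by
      rw [lap_sub (fun y => u (y + h)) u z (hwd z hz) (hcd z (hsub (hz1 z hz))), lap_shift]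
      have e1 := hlap (z + h) (hsub (hz2 z hz))
      have e2 := hlap z (hsub (hz1 z hz))
      have e3 : lap u (z + h) - lap u z = -(f (u (z + h)) - f (u z)) := by
        rw [← e1, ← e2]; ring
      rw [e3, abs_neg]
      refine (hfL _ (hu01 _ (hsub (hz2 z hz))) _ (hu01 _ (hsub (hz1 z hz)))).trans ?_
      refine mul_le_mul_of_nonneg_left ?_ hL
      have := hmv z (hz1 z hz) (z + h) (hz2 z hz)
      rwa [add_sub_cancel_left] at this) x (by
      rw [mem_ball, dist_self]; positivity)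
  have hx0 : x ∈ ball x (ρ / 4) := by rw [mem_ball, dist_self]; positivity
  have e4 : fderiv ℝ (fun z => u (z + h) - u z) x = fderiv ℝ u x' - fderiv ℝ u x := by
    rw [fderiv_fun_sub ((hwd x hx0).differentiableAt (by norm_num))
      ((hcd x (hsub (hz1 x hx0))).differentiableAt (by norm_num)), fderiv_comp_add_right, hxh]
  rw [e4] at h3
  rw [norm_sub_rev]
  refine h3.trans ?_
  rw [hh, norm_sub_rev x' x, ← mul_assoc]
  exact mul_le_mul_of_nonneg_right (le_max_right _ _) (norm_nonneg _)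

end

end ExtStar
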