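import Pool.Agent.H631.EX.Defs
import Pool.Agent.H631.EX.Y14
import Pool.Agent.H631.ES.X03
import Pool.Agent.H631.ES.X04
import Pool.Agent.H631.ES.X12

open Set Metric Filter Topology MeasureTheory

namespace ExtStar

noncomputable section

theorem shiftCD' {d : ℕ} (u : E d → ℝ) (a z : E d) (h : ContDiffAt ℝ 2 u (z + a)) :
    ContDiffAt ℝ 2 (fun z => u (z + a)) z :=
  ContDiffAt.comp z h (contDiffAt_id.add contDiffAt_const)

theorem shiftFD' {d : ℕ} (u : E d → ℝ) (a z : E d) (h : DifferentiableAt ℝ u (z + a)) :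
    HasFDerivAt (fun z => u (z + a)) (fderiv ℝ u (z + a)) z := by
  have := HasFDerivAt.comp (f := fun z : E d => z + a) z h.hasFDerivAt
    ((hasFDerivAt_id z).add_const a)
  rw [ContinuousLinearMap.comp_id] at this
  exact this

theorem key35671 {d : ℕ} (L ρ C₁ : ℝ) (hL : 0 ≤ L) (hρ : 0 < ρ) (hC₁ : 0 < C₁) (f : ℝ → ℝ)
    (u : E d → ℝ) (y : E d) (hcd : ∀ z ∈ ball y ρ, ContDiffAt ℝ 2 u z)
    (hu01 : ∀ x ∈ ball y ρ, 0 ≤ u x ∧ u x ≤ 1)
    (hfL : ∀ s ∈ Icc (0 : ℝ) 1, ∀ t ∈ Icc (0 : ℝ) 1, |f s - f t| ≤ L * |s - t|)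
    (heq : ∀ x ∈ ball y ρ, -lap u x = f (u x))
    (hD : ∀ x ∈ ball y (ρ / 2), ‖fderiv ℝ u x‖ ≤ C₁)
    (hDL : ∀ x ∈ ball y (ρ / 4), ∀ x' ∈ ball y (ρ / 4),
      ‖fderiv ℝ u x - fderiv ℝ u x'‖ ≤ C₁ * ‖x - x'‖)
    (x x' : E d) (hx : x ∈ ball y (ρ / 16)) (hx' : x' ∈ ball y (ρ / 16)) (hne : x ≠ x')
    (i : Fin d) (e : E d) (he : ‖e‖ = 1) :
    |fderiv ℝ (fderiv ℝ u) x' e (EuclideanSpace.single i (1 : ℝ)) -
      fderiv ℝ (fderiv ℝ u) x e (EuclideanSpace.single i (1 : ℝ))| ≤
      (8 * d * C₁ / Real.sqrt ρ + L * C₁ * Real.sqrt ρ / 4) * Real.sqrt ‖x - x'‖ := by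
  have hdiff : ∀ z ∈ ball y ρ, DifferentiableAt ℝ u z := fun z hz =>
    (hcd z hz).differentiableAt (by norm_num)
  have hdiffD : ∀ z ∈ ball y ρ, DifferentiableAt ℝ (fderiv ℝ u) z := fun z hz =>
    ((hcd z hz).fderiv_right (m := 1) (by norm_num)).differentiableAt (by norm_num)
  have hsub : ∀ r : ℝ, r ≤ ρ → ball y r ⊆ ball y ρ := fun r hr => ball_subset_ball hr
  have hLip : ∀ a ∈ ball y (ρ / 2), ∀ b ∈ ball y (ρ / 2), |u b - u a| ≤ C₁ * ‖b - a‖ := by
    intro a ha b hb
    have := Convex.norm_image_sub_le_of_norm_fderiv_le (𝕜 := ℝ) (f := u) (C := C₁)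
      (s := ball y (ρ / 2)) (fun z hz => hdiff z (hsub _ (by linarith) hz)) hD (convex_ball y (ρ / 2)) ha hb
    simpa [Real.norm_eq_abs] using this
  set k : E d := x' - x with hk
  have hk0 : 0 < ‖k‖ := by
    rw [norm_pos_iff, hk, sub_ne_zero]
    exact fun h => hne h.symm
  have hxd : dist x y < ρ / 16 := hx
  have hxd' : dist x' y < ρ / 16 := hx'
  have hkρ : ‖k‖ < ρ / 8 := by
    rw [hk, ← dist_eq_norm]
    have := dist_triangle_right x' x y
    linarith
  have hnk : ‖x - x'‖ = ‖k‖ := by rw [hk, norm_sub_rev]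
  rw [hnk]
  set sk := Real.sqrt ‖k‖ with hsk
  set sρ := Real.sqrt ρ with hsρ
  have hskpos : 0 < sk := Real.sqrt_pos.mpr hk0
  have hsρpos : 0 < sρ := Real.sqrt_pos.mpr hρ
  have hsk2 : sk * sk = ‖k‖ := Real.mul_self_sqrt hk0.le
  have hsρ2 : sρ * sρ = ρ := Real.mul_self_sqrt hρ.le
  set R := sk * sρ / 8 with hR
  have hRpos : 0 < R := by positivity
  have hRlt : R < ρ / 16 := by
    have h1 : sk < sρ / 2 := by
      by_contra h
      push Not at h
      have h2 : (sρ / 2) * (sρ / 2) ≤ sk * sk := mul_self_le_mul_self (by positivity) h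
      rw [hsk2] at h2
      nlinarith
    rw [hR]
    nlinarith
  -- the estimate for fixed h
  have main : ∀ h : ℝ, 0 < h → h < ρ / 16 →
      |h⁻¹ * (((fderiv ℝ u (x' + h • e) (EuclideanSpace.single i (1 : ℝ)) -
        fderiv ℝ u (x + h • e) (EuclideanSpace.single i (1 : ℝ))) -
        (fderiv ℝ u x' (EuclideanSpace.single i (1 : ℝ)) -
          fderiv ℝ u x (EuclideanSpace.single i (1 : ℝ)))))| ≤
      (8 * d * C₁ / sρ + L * C₁ * sρ / 4) * sk := by
    intro h hh hhρ
    have hhe : ‖h • e‖ = h := by rw [norm_smul, he, mul_one, Real.norm_of_nonneg hh.le]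
    have hzb : ∀ z ∈ ball x R, dist z y < ρ / 8 := by
      intro z hz
      have h1 : dist z x < R := hz
      have := dist_triangle z x y
      linarith
    have hzk : ∀ z ∈ ball x R, dist (z + k) y < ρ / 8 := by
      intro z hz
      have h1 : dist z x < R := hz
      have h2 : dist (z + k) x' = dist z x := by
        rw [dist_eq_norm, dist_eq_norm, hk]; congr 1; abel
      have := dist_triangle (z + k) x' y
      linarith
    have hadd : ∀ z : E d, dist z y < ρ / 8 → dist (z + h • e) y < 3 * ρ / 16 := by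
      intro z hz
      have h1 : dist (z + h • e) z = h := by
        rw [dist_eq_norm, add_sub_cancel_left, hhe]
      have := dist_triangle (z + h • e) z y
      linarith
    have m4 : ∀ z : E d, dist z y < 3 * ρ / 16 → z ∈ ball y (ρ / 4) := fun z hz => by
      show dist z y < ρ / 4
      linarith
    have m1 : ∀ z : E d, dist z y < 3 * ρ / 16 → z ∈ ball y ρ := fun z hz => by
      show dist z y < ρ
      linarith
    have m2 : ∀ z : E d, dist z y < 3 * ρ / 16 → z ∈ ball y (ρ / 2) := fun z hz => by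
      show dist z y < ρ / 2
      linarith
    have l8 : ∀ z : E d, dist z y < ρ / 8 → dist z y < 3 * ρ / 16 := fun z hz => by linarith
    set W : E d → ℝ := fun z => h⁻¹ * ((u (z + (k + h • e)) - u (z + h • e)) - (u (z + k) - u z)) with hW
    have hassoc : ∀ z : E d, z + (k + h • e) = (z + k) + h • e := fun z => by abel
    have c1 : ∀ z ∈ ball x R, ContDiffAt ℝ 2 (fun z => u (z + (k + h • e))) z := fun z hz =>
      shiftCD' u _ z (by rw [hassoc]; exact hcd _ (m1 _ (hadd _ (hzk z hz))))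
    have c2 : ∀ z ∈ ball x R, ContDiffAt ℝ 2 (fun z => u (z + h • e)) z := fun z hz =>
      shiftCD' u _ z (hcd _ (m1 _ (hadd _ (hzb z hz))))
    have c3 : ∀ z ∈ ball x R, ContDiffAt ℝ 2 (fun z => u (z + k)) z := fun z hz =>
      shiftCD' u _ z (hcd _ (m1 _ (l8 _ (hzk z hz))))
    have c4 : ∀ z ∈ ball x R, ContDiffAt ℝ 2 u z := fun z hz => hcd _ (m1 _ (l8 _ (hzb z hz)))
    have cW : ContDiffOn ℝ 2 W (ball x R) := by
      intro z hz
      apply ContDiffAt.contDiffWithinAt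
      exact contDiffAt_const.mul (((c1 z hz).sub (c2 z hz)).sub ((c3 z hz).sub (c4 z hz)))
    -- size of W
    have bW : ∀ z ∈ ball x R, |W z| ≤ C₁ * ‖k‖ := by
      intro z hz
      have hψ := Convex.norm_image_sub_le_of_norm_hasFDerivWithin_le (𝕜 := ℝ)
        (f := fun z => u (z + h • e) - u z)
        (f' := fun z => fderiv ℝ u (z + h • e) - fderiv ℝ u z) (C := C₁ * h)
        (s := ball y (ρ / 8)) (fun w hw => by
          have hw' : dist w y < ρ / 8 := hw
          exact ((shiftFD' u _ w (hdiff _ (m1 _ (hadd _ hw')))).sub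
            (hdiff _ (m1 _ (l8 _ hw'))).hasFDerivAt).hasFDerivWithinAt)
        (fun w hw => by
          have hw' : dist w y < ρ / 8 := hw
          have := hDL (w + h • e) (m4 _ (hadd _ hw')) w (m4 _ (l8 _ hw'))
          rw [add_sub_cancel_left, hhe] at this
          exact this) (convex_ball y (ρ / 8)) (hzb z hz) (hzk z hz)
      rw [add_sub_cancel_left, Real.norm_eq_abs] at hψ
      have hWz : W z = h⁻¹ * ((u (z + k + h • e) - u (z + k)) - (u (z + h • e) - u z)) := by
        simp only [hW]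
        rw [hassoc]
        ring
      rw [hWz, abs_mul, abs_of_pos (inv_pos.mpr hh)]
      calc h⁻¹ * |(u (z + k + h • e) - u (z + k)) - (u (z + h • e) - u z)|
          ≤ h⁻¹ * (C₁ * h * ‖k‖) := mul_le_mul_of_nonneg_left hψ (inv_pos.mpr hh).le
        _ = C₁ * ‖k‖ := by field_simp
    -- size of the Laplacian
    have lW : ∀ z ∈ ball x R, |lap W z| ≤ 2 * L * C₁ := by
      intro z hz
      have e1 : lap W z = h⁻¹ * ((lap u (z + (k + h • e)) - lap u (z + h • e)) -
          (lap u (z + k) - lap u z)) := by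
        simp only [hW]
        rw [lap_smul h⁻¹ (fun z => (u (z + (k + h • e)) - u (z + h • e)) - (u (z + k) - u z)) z
          (((c1 z hz).sub (c2 z hz)).sub ((c3 z hz).sub (c4 z hz))),
          lap_sub (fun z => u (z + (k + h • e)) - u (z + h • e)) (fun z => u (z + k) - u z) z
            ((c1 z hz).sub (c2 z hz)) ((c3 z hz).sub (c4 z hz)),
          lap_sub (fun z => u (z + (k + h • e))) (fun z => u (z + h • e)) z (c1 z hz) (c2 z hz),
          lap_sub (fun z => u (z + k)) u z (c3 z hz) (c4 z hz),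
          lap_shift, lap_shift, lap_shift]
      have q : ∀ w : E d, dist w y < 3 * ρ / 16 → lap u w = - f (u w) := fun w hw => by
        rw [← heq w (m1 _ hw), neg_neg]
      have fl : ∀ w w' : E d, dist w y < 3 * ρ / 16 → dist w' y < 3 * ρ / 16 → w' - w = h • e →
          |f (u w') - f (u w)| ≤ L * (C₁ * h) := by
        intro w w' hw hw' hww
        have a1 := hfL (u w') ⟨(hu01 _ (m1 _ hw')).1, (hu01 _ (m1 _ hw')).2⟩ (u w)
          ⟨(hu01 _ (m1 _ hw)).1, (hu01 _ (m1 _ hw)).2⟩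
        have a2 := hLip w (m2 _ hw) w' (m2 _ hw')
        rw [hww, hhe] at a2
        exact a1.trans (mul_le_mul_of_nonneg_left a2 hL)
      have t1 := fl (z + k) (z + (k + h • e)) (l8 _ (hzk z hz))
        (by rw [hassoc]; exact hadd _ (hzk z hz)) (by rw [hassoc, add_sub_cancel_left])
      have t2 := fl z (z + h • e) (l8 _ (hzb z hz)) (hadd _ (hzb z hz)) (by rw [add_sub_cancel_left])
      rw [e1, q _ (by rw [hassoc]; exact hadd _ (hzk z hz)), q _ (hadd _ (hzb z hz)),
        q _ (l8 _ (hzk z hz)), q _ (l8 _ (hzb z hz)), abs_mul, abs_of_pos (inv_pos.mpr hh)]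
      have e2 : |(-f (u (z + (k + h • e))) - -f (u (z + h • e))) - (-f (u (z + k)) - -f (u z))| ≤
          2 * (L * (C₁ * h)) := by
        have e3 : (-f (u (z + (k + h • e))) - -f (u (z + h • e))) - (-f (u (z + k)) - -f (u z)) =
          (f (u (z + h • e)) - f (u z)) - (f (u (z + (k + h • e))) - f (u (z + k))) := by ring
        rw [e3]
        have := abs_sub (f (u (z + h • e)) - f (u z)) (f (u (z + (k + h • e))) - f (u (z + k)))
        linarith
      calc h⁻¹ * |(-f (u (z + (k + h • e))) - -f (u (z + h • e))) - (-f (u (z + k)) - -f (u z))|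
          ≤ h⁻¹ * (2 * (L * (C₁ * h))) := mul_le_mul_of_nonneg_left e2 (inv_pos.mpr hh).le
        _ = 2 * L * C₁ := by field_simp
    have hg := grad_est W x R (C₁ * ‖k‖) (2 * L * C₁) hRpos cW bW lW i
    have hxR : x ∈ ball x R := mem_ball_self hRpos
    have hfd : HasFDerivAt W (h⁻¹ • ((fderiv ℝ u (x + (k + h • e)) - fderiv ℝ u (x + h • e)) -
        (fderiv ℝ u (x + k) - fderiv ℝ u x))) x := by
      have s1 := shiftFD' u (k + h • e) x (hdiff _ (m1 _ (by rw [hassoc]; exact hadd _ (hzk x hxR))))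
      have s2 := shiftFD' u (h • e) x (hdiff _ (m1 _ (hadd _ (hzb x hxR))))
      have s3 := shiftFD' u k x (hdiff _ (m1 _ (l8 _ (hzk x hxR))))
      have s4 := (hdiff _ (m1 _ (l8 _ (hzb x hxR)))).hasFDerivAt
      exact ((s1.sub s2).sub (s3.sub s4)).const_mul h⁻¹
    rw [hfd.fderiv] at hg
    have ex1 : x + k = x' := by rw [hk]; abel
    have ex2 : x + (k + h • e) = x' + h • e := by rw [hk]; abel
    rw [ex1, ex2] at hg
    have hgoal : (h⁻¹ • ((fderiv ℝ u (x' + h • e) - fderiv ℝ u (x + h • e)) -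
        (fderiv ℝ u x' - fderiv ℝ u x))) (EuclideanSpace.single i (1 : ℝ)) =
        h⁻¹ * (((fderiv ℝ u (x' + h • e) (EuclideanSpace.single i (1 : ℝ)) -
        fderiv ℝ u (x + h • e) (EuclideanSpace.single i (1 : ℝ))) -
        (fderiv ℝ u x' (EuclideanSpace.single i (1 : ℝ)) -
          fderiv ℝ u x (EuclideanSpace.single i (1 : ℝ))))) := rfl
    rw [hgoal] at hg
    refine hg.trans (le_of_eq ?_)
    rw [hR, ← hsk2]
    field_simp
    ring
  -- pass to the limit
  have hxρ : x ∈ ball y ρ := hsub _ (by linarith) hx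
  have hxρ' : x' ∈ ball y ρ := hsub _ (by linarith) hx'
  have line : ∀ z : E d, z ∈ ball y ρ → HasDerivAt
      (fun t : ℝ => fderiv ℝ u (z + t • e) (EuclideanSpace.single i (1 : ℝ)))
      (fderiv ℝ (fderiv ℝ u) z e (EuclideanSpace.single i (1 : ℝ))) 0 := by
    intro z hz
    have h1 : HasDerivAt (fun t : ℝ => z + t • e) e 0 := by
      have := ((hasDerivAt_id (0:ℝ)).smul_const e).const_add z
      simpa using this
    have h2 : HasFDerivAt (fderiv ℝ u) (fderiv ℝ (fderiv ℝ u) z) (z + (0:ℝ) • e) := by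
      rw [zero_smul, add_zero]; exact (hdiffD z hz).hasFDerivAt
    have h3 : HasDerivAt (fun t : ℝ => fderiv ℝ u (z + t • e)) (fderiv ℝ (fderiv ℝ u) z e) 0 := by
      have := HasFDerivAt.comp_hasDerivAt (f := fun t : ℝ => z + t • e) (0:ℝ) h2 h1
      exact this
    have h4 := h3.clm_apply (hasDerivAt_const (0:ℝ) (EuclideanSpace.single i (1 : ℝ)))
    simpa using h4
  have hT := (line x' hxρ').sub (line x hxρ)
  have hlim := hT.tendsto_slope_zero_right
  refine le_of_tendsto hlim.abs ?_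
  have hev : ∀ᶠ h : ℝ in 𝓝[>] 0, h < ρ / 16 :=
    mem_nhdsWithin_of_mem_nhds (Iio_mem_nhds (by positivity))
  filter_upwards [hev, self_mem_nhdsWithin] with h h1 h2
  have := main h h2 h1
  simpa using this

/-! TARGET: prove the following -/

theorem int_holder (d : ℕ) (L ρ : ℝ) (hL : 0 ≤ L) (hρ : 0 < ρ) : ∃ C : ℝ, 0 < C ∧
    ∀ (f : ℝ → ℝ) (u : E d → ℝ) (y : E d), ContDiffOn ℝ 2 u (ball y ρ) →
      (∀ x ∈ ball y ρ, 0 ≤ u x ∧ u x ≤ 1) → f 0 = 0 →
      (∀ s ∈ Icc (0 : ℝ) 1, ∀ t ∈ Icc (0 : ℝ) 1, |f s - f t| ≤ L * |s - t|) →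
      (∀ x ∈ ball y ρ, -lap u x = f (u x)) →
      ∀ x ∈ ball y (ρ / 16), ‖fderiv ℝ (fderiv ℝ u) x‖ ≤ C ∧ ∀ x' ∈ ball y (ρ / 16),
        ‖fderiv ℝ (fderiv ℝ u) x - fderiv ℝ (fderiv ℝ u) x'‖ ≤ C * Real.sqrt ‖x - x'‖ := by
  obtain ⟨C₁, hC₁, H⟩ := int_lip2 d L ρ hL hρ
  have hC₂0 : 0 ≤ 8 * d * C₁ / Real.sqrt ρ + L * C₁ * Real.sqrt ρ / 4 := by positivity
  refine ⟨C₁ + d * (8 * d * C₁ / Real.sqrt ρ + L * C₁ * Real.sqrt ρ / 4), by positivity, ?_⟩
  intro f u y hu hu01 hf0 hfL heq x hx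
  obtain ⟨hD, hDL⟩ := H f u y hu hu01 hf0 hfL heq
  have hcd : ∀ z ∈ ball y ρ, ContDiffAt ℝ 2 u z := fun z hz =>
    (hu z hz).contDiffAt (isOpen_ball.mem_nhds hz)
  have hdC : 0 ≤ d * (8 * d * C₁ / Real.sqrt ρ + L * C₁ * Real.sqrt ρ / 4) :=
    mul_nonneg (Nat.cast_nonneg d) hC₂0
  constructor
  · have h1 : ‖fderiv ℝ (fderiv ℝ u) x‖ ≤ C₁ := by
      have hx4 : x ∈ ball y (ρ / 4) := ball_subset_ball (by linarith) hx
      apply norm_fderiv_le_of_lip' ℝ hC₁.le
      filter_upwards [isOpen_ball.mem_nhds hx4] with z hz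
      exact hDL z hz x hx4
    linarith
  · intro x' hx'
    by_cases hne : x = x'
    · subst hne
      have hz : ∀ v w : E d, (fderiv ℝ (fderiv ℝ u) x - fderiv ℝ (fderiv ℝ u) x) v w = 0 :=
        fun v w => sub_self (fderiv ℝ (fderiv ℝ u) x v w)
      have h0 : ‖fderiv ℝ (fderiv ℝ u) x - fderiv ℝ (fderiv ℝ u) x‖ ≤ 0 := by
        apply ContinuousLinearMap.opNorm_le_bound _ le_rfl
        intro v
        rw [zero_mul]
        apply ContinuousLinearMap.opNorm_le_bound _ le_rfl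
        intro w
        rw [hz, norm_zero, zero_mul]
      refine h0.trans ?_
      positivity
    · have hsq : 0 ≤ Real.sqrt ‖x - x'‖ := Real.sqrt_nonneg _
      have K := fun (i : Fin d) (e : E d) (he : ‖e‖ = 1) =>
        key35671 L ρ C₁ hL hρ hC₁ f u y hcd hu01 hfL heq hD hDL x x' hx hx' hne i e he
      generalize hC₂ : 8 * d * C₁ / Real.sqrt ρ + L * C₁ * Real.sqrt ρ / 4 = C₂ at *
      generalize Real.sqrt ‖x - x'‖ = q at *
      have hT1 : ∀ (i : Fin d) (v : E d),
          |(fderiv ℝ (fderiv ℝ u) x - fderiv ℝ (fderiv ℝ u) x') v (EuclideanSpace.single i (1 : ℝ))|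
            ≤ C₂ * q * ‖v‖ := by
        intro i v
        by_cases hv : v = 0
        · subst hv; simp
        · have hvn : 0 < ‖v‖ := norm_pos_iff.mpr hv
          have he : ‖(‖v‖⁻¹ : ℝ) • v‖ = 1 := by
            rw [norm_smul, norm_inv, norm_norm, inv_mul_cancel₀ hvn.ne']
          have h1 := K i (‖v‖⁻¹ • v) he
          have h2 : (fderiv ℝ (fderiv ℝ u) x - fderiv ℝ (fderiv ℝ u) x') v
              (EuclideanSpace.single i (1 : ℝ)) =
              - (‖v‖ * (fderiv ℝ (fderiv ℝ u) x' (‖v‖⁻¹ • v) (EuclideanSpace.single i (1 : ℝ)) -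
                fderiv ℝ (fderiv ℝ u) x (‖v‖⁻¹ • v) (EuclideanSpace.single i (1 : ℝ)))) := by
            rw [map_smul, map_smul]
            show fderiv ℝ (fderiv ℝ u) x v (EuclideanSpace.single i (1 : ℝ)) -
              fderiv ℝ (fderiv ℝ u) x' v (EuclideanSpace.single i (1 : ℝ)) =
              - (‖v‖ * (‖v‖⁻¹ * (fderiv ℝ (fderiv ℝ u) x' v (EuclideanSpace.single i (1 : ℝ))) -
                ‖v‖⁻¹ * (fderiv ℝ (fderiv ℝ u) x v (EuclideanSpace.single i (1 : ℝ)))))
            field_simp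
            ring
          rw [h2, abs_neg, abs_mul, abs_of_pos hvn]
          calc ‖v‖ * |_| ≤ ‖v‖ * (C₂ * q) := mul_le_mul_of_nonneg_left h1 hvn.le
            _ = C₂ * q * ‖v‖ := by ring
      have hT : ‖fderiv ℝ (fderiv ℝ u) x - fderiv ℝ (fderiv ℝ u) x'‖ ≤ d * (C₂ * q) := by
        apply ContinuousLinearMap.opNorm_le_bound _ (by positivity)
        intro v
        apply ContinuousLinearMap.opNorm_le_bound _ (by positivity)
        intro w
        have hw : w = ∑ i, w i • (EuclideanSpace.single i (1 : ℝ) : E d) := by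
          have := (EuclideanSpace.basisFun (Fin d) ℝ).sum_repr w
          simpa using this.symm
        have hsum : (fderiv ℝ (fderiv ℝ u) x - fderiv ℝ (fderiv ℝ u) x') v w =
            ∑ i, w i * ((fderiv ℝ (fderiv ℝ u) x - fderiv ℝ (fderiv ℝ u) x') v
              (EuclideanSpace.single i (1 : ℝ))) := by
          conv_lhs => rw [hw]
          rw [map_sum]
          apply Finset.sum_congr rfl
          intro i _
          rw [map_smul, smul_eq_mul]
        rw [hsum, Real.norm_eq_abs]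
        refine (Finset.abs_sum_le_sum_abs _ _).trans ?_
        calc ∑ i : Fin d, |w i * ((fderiv ℝ (fderiv ℝ u) x - fderiv ℝ (fderiv ℝ u) x') v
              (EuclideanSpace.single i (1 : ℝ)))| ≤ ∑ _i : Fin d, ‖w‖ * (C₂ * q * ‖v‖) := by
              apply Finset.sum_le_sum
              intro i _
              rw [abs_mul]
              apply mul_le_mul _ (hT1 i v) (abs_nonneg _) (norm_nonneg _)
              have := PiLp.norm_apply_le w i
              rwa [Real.norm_eq_abs] at this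
          _ = d * (C₂ * q) * ‖v‖ * ‖w‖ := by
              rw [Finset.sum_const, Finset.card_univ, Fintype.card_fin, nsmul_eq_mul]; ring
      calc ‖fderiv ℝ (fderiv ℝ u) x - fderiv ℝ (fderiv ℝ u) x'‖ ≤ d * (C₂ * q) := hT
        _ ≤ (C₁ + d * C₂) * q := by
            have : 0 ≤ C₁ * q := mul_nonneg hC₁.le hsq
            nlinarith

end

end ExtStar
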