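import Pool.Agent.H631.EX.Defs

open Set Metric Filter Topology MeasureTheory

namespace ExtStar

noncomputable section

/-! TARGET: prove the following -/

theorem holder_lim {d : ℕ} {F : Type*} [NormedAddCommGroup F] [NormedSpace ℝ F] [CompleteSpace F]
    (y : E d) (ρ K : ℝ) (hρ : 0 < ρ) (hK0 : 0 ≤ K) (f : ℕ → E d → F)
    (f' : ℕ → E d → (E d →L[ℝ] F)) (g : E d → F)
    (hd : ∀ n, ∀ x ∈ ball y ρ, HasFDerivAt (f n) (f' n x) x)
    (hK : ∀ n, ∀ x ∈ ball y ρ, ∀ x' ∈ ball y ρ, ‖f' n x - f' n x'‖ ≤ K * Real.sqrt ‖x - x'‖)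
    (hlim : ∀ x ∈ ball y ρ, Tendsto (fun n => f n x) atTop (𝓝 (g x))) :
    ∃ g' : E d → (E d →L[ℝ] F),
      (∀ x ∈ ball y ρ, Tendsto (fun n => f' n x) atTop (𝓝 (g' x))) ∧
      (∀ x ∈ ball y ρ, HasFDerivAt g (g' x) x) ∧
      (∀ x ∈ ball y ρ, ∀ x' ∈ ball y ρ, ‖g' x - g' x'‖ ≤ K * Real.sqrt ‖x - x'‖) := by
  classical
  have s1 : ∀ n, ∀ x ∈ ball y ρ, ∀ z ∈ ball y ρ,
      ‖f n z - f n x - f' n x (z - x)‖ ≤ K * Real.sqrt ‖z - x‖ * ‖z - x‖ := by
    intro n x hx z hz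
    have hconv : Convex ℝ (closedBall x ‖z - x‖ ∩ ball y ρ) :=
      (convex_closedBall x _).inter (convex_ball y ρ)
    refine hconv.norm_image_sub_le_of_norm_hasFDerivWithin_le' (f' := f' n) (φ := f' n x)
      (fun w hw => (hd n w hw.2).hasFDerivWithinAt) ?_ ⟨mem_closedBall_self (norm_nonneg _), hx⟩
      ⟨?_, hz⟩
    · intro w hw
      refine (hK n w hw.2 x hx).trans ?_
      apply mul_le_mul_of_nonneg_left _ hK0
      apply Real.sqrt_le_sqrt
      exact mem_closedBall_iff_norm.mp hw.1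
    · exact mem_closedBall_iff_norm.mpr le_rfl
  have s2 : ∀ x ∈ ball y ρ, ∀ v : E d, CauchySeq (fun n => f' n x v) := by
    intro x hx v
    rw [Metric.cauchySeq_iff]
    intro ε hε
    have hcont : Tendsto (fun t : ℝ => 2 * (K * Real.sqrt (t * ‖v‖) * ‖v‖)) (𝓝[>] 0) (𝓝 0) := by
      have hc : Continuous (fun t : ℝ => 2 * (K * Real.sqrt (t * ‖v‖) * ‖v‖)) := by fun_prop
      have h := hc.tendsto 0
      simp only [zero_mul, Real.sqrt_zero, mul_zero] at h
      exact h.mono_left nhdsWithin_le_nhds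
    have hball : ∀ᶠ t : ℝ in 𝓝[>] 0, x + t • v ∈ ball y ρ := by
      have hc : Continuous (fun t : ℝ => x + t • v) := by fun_prop
      have h := hc.tendsto 0
      simp only [zero_smul, add_zero] at h
      exact (h.mono_left nhdsWithin_le_nhds).eventually (isOpen_ball.mem_nhds hx)
    have hself : ∀ᶠ t : ℝ in 𝓝[>] 0, 0 < t := self_mem_nhdsWithin
    obtain ⟨t, ht1, ht2, ht3⟩ := ((hcont.eventually (gt_mem_nhds (half_pos hε))).and
      (hball.and hself)).exists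
    have hq : CauchySeq (fun n => t⁻¹ • (f n (x + t • v) - f n x)) :=
      (((hlim _ ht2).sub (hlim x hx)).const_smul t⁻¹).cauchySeq
    obtain ⟨N, hN⟩ := Metric.cauchySeq_iff.mp hq (ε / 2) (half_pos hε)
    refine ⟨N, fun m hm n hn => ?_⟩
    have hb : ∀ n, ‖t⁻¹ • (f n (x + t • v) - f n x) - f' n x v‖
        ≤ K * Real.sqrt (t * ‖v‖) * ‖v‖ := by
      intro n
      have h := s1 n x hx (x + t • v) ht2
      rw [add_sub_cancel_left, norm_smul, Real.norm_of_nonneg ht3.le, map_smul] at h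
      have h6 : t⁻¹ • (f n (x + t • v) - f n x) - f' n x v
          = t⁻¹ • (f n (x + t • v) - f n x - t • f' n x v) := by
        rw [smul_sub t⁻¹ _ (t • f' n x v), smul_smul, inv_mul_cancel₀ ht3.ne', one_smul]
      rw [h6, norm_smul, norm_inv, Real.norm_of_nonneg ht3.le]
      calc t⁻¹ * ‖f n (x + t • v) - f n x - t • f' n x v‖
          ≤ t⁻¹ * (K * Real.sqrt (t * ‖v‖) * (t * ‖v‖)) :=
            mul_le_mul_of_nonneg_left h (inv_nonneg.mpr ht3.le)
        _ = (t⁻¹ * t) * (K * Real.sqrt (t * ‖v‖) * ‖v‖) := by ring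
        _ = K * Real.sqrt (t * ‖v‖) * ‖v‖ := by rw [inv_mul_cancel₀ ht3.ne', one_mul]
    have hbm := hb m
    have hbn := hb n
    have hmn := hN m hm n hn
    rw [dist_eq_norm] at hmn ⊢
    have e1 : f' m x v - f' n x v = ((t⁻¹ • (f m (x + t • v) - f m x))
        - (t⁻¹ • (f n (x + t • v) - f n x)))
        - (t⁻¹ • (f m (x + t • v) - f m x) - f' m x v)
        + (t⁻¹ • (f n (x + t • v) - f n x) - f' n x v) := by abel
    rw [e1]
    have e2 := norm_add_le (((t⁻¹ • (f m (x + t • v) - f m x))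
        - (t⁻¹ • (f n (x + t • v) - f n x)))
        - (t⁻¹ • (f m (x + t • v) - f m x) - f' m x v))
        (t⁻¹ • (f n (x + t • v) - f n x) - f' n x v)
    have e3 := norm_sub_le ((t⁻¹ • (f m (x + t • v) - f m x))
        - (t⁻¹ • (f n (x + t • v) - f n x)))
        (t⁻¹ • (f m (x + t • v) - f m x) - f' m x v)
    linarith
  have s3 : ∀ x ∈ ball y ρ, CauchySeq (fun n => f' n x) := by
    intro x hx
    let b := Module.finBasis ℝ (E d)
    obtain ⟨C, hC, hb⟩ := b.exists_opNorm_le (F := F)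
    rw [cauchySeq_iff_tendsto_dist_atTop_0]
    have h1 : Tendsto (fun p : ℕ × ℕ => C * ∑ i, dist (f' p.1 x (b i)) (f' p.2 x (b i))) atTop
        (𝓝 (C * ∑ i : Fin (Module.finrank ℝ (E d)), (0:ℝ))) := by
      apply Tendsto.const_mul
      apply tendsto_finsetSum
      intro i _
      exact cauchySeq_iff_tendsto_dist_atTop_0.mp (s2 x hx (b i))
    simp only [Finset.sum_const_zero, mul_zero] at h1
    refine squeeze_zero (fun _ => dist_nonneg) (fun p => ?_) h1
    rw [dist_eq_norm]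
    apply hb (Finset.sum_nonneg (fun _ _ => dist_nonneg))
    intro i
    rw [sub_apply, ← dist_eq_norm]
    exact Finset.single_le_sum (f := fun i => dist (f' p.1 x (b i)) (f' p.2 x (b i)))
      (fun _ _ => dist_nonneg) (Finset.mem_univ i)
  have hex : ∀ x, ∃ L : E d →L[ℝ] F, x ∈ ball y ρ → Tendsto (fun n => f' n x) atTop (𝓝 L) := by
    intro x
    by_cases hx : x ∈ ball y ρ
    · obtain ⟨L, hL⟩ := cauchySeq_tendsto_of_complete (s3 x hx)
      exact ⟨L, fun _ => hL⟩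
    · exact ⟨0, fun h => absurd h hx⟩
  choose g' hg' using hex
  have s4 : ∀ x ∈ ball y ρ, ∀ z ∈ ball y ρ,
      ‖g z - g x - g' x (z - x)‖ ≤ K * Real.sqrt ‖z - x‖ * ‖z - x‖ := by
    intro x hx z hz
    have hev : Tendsto (fun n => f' n x (z - x)) atTop (𝓝 (g' x (z - x))) :=
      ((ContinuousLinearMap.apply ℝ F (z - x)).continuous.tendsto (g' x)).comp (hg' x hx)
    have h := (((hlim z hz).sub (hlim x hx)).sub hev).norm
    exact le_of_tendsto h (Eventually.of_forall (fun n => s1 n x hx z hz))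
  refine ⟨g', hg', ?_, ?_⟩
  · intro x hx
    rw [hasFDerivAt_iff_isLittleO_nhds_zero, Asymptotics.isLittleO_iff]
    intro c hc
    have e1 : ∀ᶠ h : E d in 𝓝 0, K * Real.sqrt ‖h‖ < c := by
      have hc' : Continuous (fun h : E d => K * Real.sqrt ‖h‖) := by fun_prop
      have h2 := hc'.tendsto 0
      simp only [norm_zero, Real.sqrt_zero, mul_zero] at h2
      exact h2.eventually (gt_mem_nhds hc)
    have e2 : ∀ᶠ h : E d in 𝓝 0, x + h ∈ ball y ρ := by
      have hc' : Continuous (fun h : E d => x + h) := by fun_prop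
      have h2 := hc'.tendsto 0
      simp only [add_zero] at h2
      exact h2.eventually (isOpen_ball.mem_nhds hx)
    filter_upwards [e1, e2] with h he1 he2
    have h7 := s4 x hx (x + h) he2
    rw [add_sub_cancel_left] at h7
    exact h7.trans (mul_le_mul_of_nonneg_right he1.le (norm_nonneg _))
  · intro x hx x' hx'
    exact le_of_tendsto ((hg' x hx).sub (hg' x' hx')).norm
      (Eventually.of_forall (fun n => hK n x hx x' hx'))

theorem lim_C2 {d : ℕ} (y : E d) (ρ C : ℝ) (hρ : 0 < ρ) (us : ℕ → E d → ℝ) (u : E d → ℝ)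
    (h1 : ∀ n, ContDiffOn ℝ 2 (us n) (ball y ρ))
    (h2 : ∀ n, ∀ x ∈ ball y ρ, ‖fderiv ℝ (us n) x‖ ≤ C)
    (h3 : ∀ n, ∀ x ∈ ball y ρ, ‖fderiv ℝ (fderiv ℝ (us n)) x‖ ≤ C)
    (h4 : ∀ n, ∀ x ∈ ball y ρ, ∀ x' ∈ ball y ρ,
      ‖fderiv ℝ (fderiv ℝ (us n)) x - fderiv ℝ (fderiv ℝ (us n)) x'‖ ≤ C * Real.sqrt ‖x - x'‖)
    (h5 : ∀ x ∈ ball y ρ, Tendsto (fun n => us n x) atTop (𝓝 (u x))) :
    ContDiffOn ℝ 2 u (ball y ρ) ∧
      ∀ x ∈ ball y ρ, Tendsto (fun n => lap (us n) x) atTop (𝓝 (lap u x)) := by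
  have hC0 : 0 ≤ C := (norm_nonneg _).trans (h2 0 y (mem_ball_self hρ))
  have hd1 : ∀ n, ∀ x ∈ ball y ρ, HasFDerivAt (us n) (fderiv ℝ (us n) x) x := by
    intro n x hx
    exact (((h1 n).contDiffAt (isOpen_ball.mem_nhds hx)).differentiableAt
      (by norm_num)).hasFDerivAt
  have hd2 : ∀ n, ∀ x ∈ ball y ρ,
      HasFDerivAt (fderiv ℝ (us n)) (fderiv ℝ (fderiv ℝ (us n)) x) x := by
    intro n x hx
    have h := ((h1 n).contDiffAt (isOpen_ball.mem_nhds hx)).fderiv_right (m := 1) (by norm_num)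
    exact (h.differentiableAt (by norm_num)).hasFDerivAt
  have hK1 : ∀ n, ∀ x ∈ ball y ρ, ∀ x' ∈ ball y ρ,
      ‖fderiv ℝ (us n) x - fderiv ℝ (us n) x'‖ ≤ (C * Real.sqrt (2 * ρ)) * Real.sqrt ‖x - x'‖ := by
    intro n x hx x' hx'
    have h := (convex_ball y ρ).norm_image_sub_le_of_norm_hasFDerivWithin_le
      (fun z hz => (hd2 n z hz).hasFDerivWithinAt) (fun z hz => h3 n z hz) hx' hx
    have hle : ‖x - x'‖ ≤ Real.sqrt (2 * ρ) * Real.sqrt ‖x - x'‖ := by
      have h8 : ‖x - x'‖ ≤ 2 * ρ := by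
        have a := mem_ball_iff_norm.mp hx
        have b := mem_ball_iff_norm.mp hx'
        calc ‖x - x'‖ = ‖(x - y) - (x' - y)‖ := by congr 1; abel
          _ ≤ ‖x - y‖ + ‖x' - y‖ := norm_sub_le _ _
          _ ≤ 2 * ρ := by linarith
      calc ‖x - x'‖ = Real.sqrt ‖x - x'‖ * Real.sqrt ‖x - x'‖ :=
            (Real.mul_self_sqrt (norm_nonneg _)).symm
        _ ≤ Real.sqrt (2 * ρ) * Real.sqrt ‖x - x'‖ :=
            mul_le_mul_of_nonneg_right (Real.sqrt_le_sqrt h8) (Real.sqrt_nonneg _)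
    calc ‖fderiv ℝ (us n) x - fderiv ℝ (us n) x'‖ ≤ C * ‖x - x'‖ := h
      _ ≤ C * (Real.sqrt (2 * ρ) * Real.sqrt ‖x - x'‖) := mul_le_mul_of_nonneg_left hle hC0
      _ = _ := by ring
  obtain ⟨G, hG1, hG2, hG3⟩ := holder_lim y ρ (C * Real.sqrt (2 * ρ)) hρ
    (mul_nonneg hC0 (Real.sqrt_nonneg _)) us (fun n => fderiv ℝ (us n)) u hd1 hK1 h5
  obtain ⟨H, hH1, hH2, hH3⟩ := holder_lim y ρ C hρ hC0 (fun n => fderiv ℝ (us n))
    (fun n => fderiv ℝ (fderiv ℝ (us n))) G hd2 h4 hG1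
  have hfu : ∀ x ∈ ball y ρ, fderiv ℝ u x = G x := fun x hx => (hG2 x hx).fderiv
  have hfu2 : ∀ x ∈ ball y ρ, HasFDerivAt (fderiv ℝ u) (H x) x := by
    intro x hx
    refine (hH2 x hx).congr_of_eventuallyEq ?_
    filter_upwards [isOpen_ball.mem_nhds hx] with z hz
    exact hfu z hz
  have hHcont : ContinuousOn H (ball y ρ) := by
    intro x hx
    apply ContinuousAt.continuousWithinAt
    rw [ContinuousAt, tendsto_iff_norm_sub_tendsto_zero]
    have e1 : Tendsto (fun z : E d => C * Real.sqrt ‖z - x‖) (𝓝 x) (𝓝 0) := by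
      have hc' : Continuous (fun z : E d => C * Real.sqrt ‖z - x‖) := by fun_prop
      have h2 := hc'.tendsto x
      simp only [sub_self, norm_zero, Real.sqrt_zero, mul_zero] at h2
      exact h2
    refine squeeze_zero' (Eventually.of_forall (fun _ => norm_nonneg _)) ?_ e1
    filter_upwards [isOpen_ball.mem_nhds hx] with z hz
    exact hH3 z hz x hx
  refine ⟨?_, ?_⟩
  · rw [show (2 : WithTop ℕ∞) = 1 + 1 by norm_num, contDiffOn_succ_iff_fderiv_of_isOpen isOpen_ball]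
    refine ⟨fun x hx => (hG2 x hx).differentiableAt.differentiableWithinAt, by simp, ?_⟩
    rw [show (1 : WithTop ℕ∞) = 0 + 1 by norm_num, contDiffOn_succ_iff_fderiv_of_isOpen isOpen_ball]
    refine ⟨fun x hx => (hfu2 x hx).differentiableAt.differentiableWithinAt, by simp, ?_⟩
    rw [contDiffOn_zero]
    exact hHcont.congr (fun x hx => (hfu2 x hx).fderiv)
  · intro x hx
    unfold lap
    apply tendsto_finsetSum
    intro i _
    simp only [iteratedFDeriv_two_apply]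
    rw [(hfu2 x hx).fderiv]
    have hev : Tendsto (fun n => fderiv ℝ (fderiv ℝ (us n)) x (EuclideanSpace.single i (1 : ℝ)))
        atTop (𝓝 (H x (EuclideanSpace.single i (1 : ℝ)))) :=
      ((ContinuousLinearMap.apply ℝ (E d →L[ℝ] ℝ)
        (EuclideanSpace.single i (1 : ℝ) : E d)).continuous.tendsto (H x)).comp (hH1 x hx)
    exact ((ContinuousLinearMap.apply ℝ ℝ
        (EuclideanSpace.single i (1 : ℝ) : E d)).continuous.tendsto _).comp hev

end

end ExtStar
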