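import Pool.Agent.H631.EX.Defs
import Pool.Agent.H631.EX.Y14
import Pool.Agent.H631.EX.Y15
import Pool.Agent.H631.EX.Y16

open Set Metric Filter Topology MeasureTheory

namespace ExtStar

noncomputable section

/-! TARGET: prove the following -/

theorem interior_sol_loc {d : ℕ} (f : ℝ → ℝ) (L c ε c₁ : ℝ) (hf : React f) (hR : RC f L c ε c₁)
    (Ω : Set (E d)) (hΩ : IsOpen Ω) (a : E d → ℝ) (ha : ∀ x ∈ Ω, a x = 0) (us : ℕ → E d → ℝ)
    (hus : ∀ n, App f a n (us n)) (u : E d → ℝ)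
    (hu : ∀ x, Tendsto (fun n => us n x) atTop (𝓝 (u x))) (y : E d) (hy : y ∈ Ω) :
    ∃ s : ℝ, 0 < s ∧ ContDiffOn ℝ 2 u (ball y s) ∧ ∀ x ∈ ball y s, -lap u x = f (u x) := by
  obtain ⟨hL, _, _, _, _, hf0, _, hLip, _, _⟩ := hR
  obtain ⟨ρ, hρ, hball⟩ := Metric.isOpen_iff.1 hΩ y hy
  obtain ⟨C1, hC1, H1⟩ := int_lip2 d L ρ hL.le hρ
  obtain ⟨C2, hC2, H2⟩ := int_holder d L ρ hL.le hρ
  have heq : ∀ n, ∀ x ∈ ball y ρ, -lap (us n) x = f (us n x) := by
    intro n x hx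
    rw [(hus n).2.2 x, ha x (hball hx)]
    ring
  have hcd : ∀ n, ContDiffOn ℝ 2 (us n) (ball y ρ) := fun n => (hus n).1.contDiffOn
  have K1 := fun n => H1 f (us n) y (hcd n) (fun x _ => (hus n).2.1 x) hf0 hLip (heq n)
  have K2 := fun n => H2 f (us n) y (hcd n) (fun x _ => (hus n).2.1 x) hf0 hLip (heq n)
  have hsub : ball y (ρ / 16) ⊆ ball y ρ := ball_subset_ball (by linarith)
  have hsub2 : ball y (ρ / 16) ⊆ ball y (ρ / 2) := ball_subset_ball (by linarith)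
  have key := lim_C2 y (ρ / 16) (max C1 C2) (by positivity) us u
    (fun n => (hus n).1.contDiffOn)
    (fun n x hx => ((K1 n).1 x (hsub2 hx)).trans (le_max_left _ _))
    (fun n x hx => ((K2 n) x hx).1.trans (le_max_right _ _))
    (fun n x hx x' hx' => (((K2 n) x hx).2 x' hx').trans
      (mul_le_mul_of_nonneg_right (le_max_right _ _) (Real.sqrt_nonneg _)))
    (fun x _ => hu x)
  refine ⟨ρ / 16, by positivity, key.1, ?_⟩
  intro x hx
  have h1 : Tendsto (fun n => -lap (us n) x) atTop (𝓝 (-lap u x)) := (key.2 x hx).neg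
  have h2 : Tendsto (fun n => f (us n x)) atTop (𝓝 (f (u x))) :=
    (hf.1.continuous.tendsto (u x)).comp (hu x)
  have h3 : (fun n => -lap (us n) x) = fun n => f (us n x) := by
    funext n
    exact heq n x (hsub hx)
  rw [h3] at h1
  exact tendsto_nhds_unique h1 h2

theorem interior_sol {d : ℕ} (f : ℝ → ℝ) (L c ε c₁ : ℝ) (hf : React f) (hR : RC f L c ε c₁)
    (Ω : Set (E d)) (hΩ : IsOpen Ω) (a : E d → ℝ) (ha : ∀ x ∈ Ω, a x = 0) (us : ℕ → E d → ℝ)
    (hus : ∀ n, App f a n (us n)) (u : E d → ℝ)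
    (hu : ∀ x, Tendsto (fun n => us n x) atTop (𝓝 (u x))) :
    ContDiffOn ℝ 2 u Ω ∧ ∀ x ∈ Ω, -lap u x = f (u x) := by
  have loc := interior_sol_loc f L c ε c₁ hf hR Ω hΩ a ha us hus u hu
  constructor
  · intro x hx
    obtain ⟨s, hs, h1, _⟩ := loc x hx
    exact ((h1 x (mem_ball_self hs)).contDiffAt (ball_mem_nhds x hs)).contDiffWithinAt
  · intro x hx
    obtain ⟨s, hs, _, h2⟩ := loc x hx
    exact h2 x (mem_ball_self hs)

end

end ExtStar
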