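import Pool.Agent.H631.EX.Defs
import Pool.Agent.H631.ES.X03
import Pool.Agent.H631.ES.X05

open Set Metric Filter Topology MeasureTheory

namespace ExtStar

noncomputable section

/-! TARGET: prove the following -/

theorem low_quart (d : ℕ) (f : ℝ → ℝ) (hf : React f) : ∃ R₁ c₀ : ℝ, 0 < R₁ ∧ 0 < c₀ ∧
    ∀ x₀ : E d, ∃ ψ : E d → ℝ, ContDiff ℝ 2 ψ ∧ (∀ x ∈ closedBall x₀ R₁, 0 ≤ ψ x ∧ ψ x ≤ 1) ∧
      (∀ x, ‖x - x₀‖ = R₁ → ψ x = 0) ∧ (∀ x ∈ ball x₀ R₁, -lap ψ x ≤ f (ψ x)) ∧ ψ x₀ = c₀ := by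
  obtain ⟨hfc, hf0, -, -, -, -, hD⟩ := hf
  have hder : HasDerivAt f (deriv f 0) 0 :=
    (hfc.differentiable (by norm_num)).differentiableAt.hasDerivAt
  obtain ⟨a, ha, haD⟩ : ∃ a : ℝ, 0 < a ∧ deriv f 0 = 2 * a := ⟨deriv f 0 / 2, by linarith, by ring⟩
  rw [haD] at hder
  have hev := (hasDerivAt_iff_isLittleO.1 hder).def ha
  obtain ⟨δ, hδ, hball⟩ := Metric.eventually_nhds_iff.1 hev
  obtain ⟨ε, hε0, hε1, hεδ⟩ : ∃ ε : ℝ, 0 < ε ∧ ε ≤ 1 ∧ ε < δ :=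
    ⟨min (δ / 2) 1, lt_min (by linarith) one_pos, min_le_right _ _,
      lt_of_le_of_lt (min_le_left _ _) (by linarith)⟩
  have hfa : ∀ s : ℝ, 0 ≤ s → s ≤ ε → a * s ≤ f s := by
    intro s hs0 hs1
    have h1 := hball (y := s) (by
      rw [Real.dist_eq, sub_zero, abs_of_nonneg hs0]; linarith)
    rw [hf0, sub_zero, sub_zero, smul_eq_mul, Real.norm_eq_abs, Real.norm_eq_abs,
      abs_of_nonneg hs0] at h1
    have h2 := (abs_le.1 h1).1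
    linarith
  have hd0 : (0 : ℝ) ≤ d := Nat.cast_nonneg d
  set T : ℝ := 2 * (d : ℝ) * (d + 2) / a + 1 with hT
  have hq : 0 ≤ 2 * (d : ℝ) * (d + 2) / a := by positivity
  have hT0 : 0 < T := by linarith
  have hTa : 2 * (d : ℝ) * (d + 2) ≤ a * T := by
    have : a * T = 2 * (d : ℝ) * (d + 2) + a := by
      rw [hT]; field_simp
    linarith
  have hR : (Real.sqrt T) ^ 2 = T := Real.sq_sqrt hT0.le
  have hRpos : 0 < Real.sqrt T := Real.sqrt_pos.2 hT0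
  refine ⟨Real.sqrt T, ε, hRpos, hε0, fun x₀ => ?_⟩
  have hk0 : 0 ≤ ε / T ^ 2 := by positivity
  have hsm : ContDiff ℝ 2 (fun y : E d => ((Real.sqrt T) ^ 2 - ‖y - x₀‖ ^ 2) ^ 2) :=
    (contDiff_const.sub ((contDiff_id.sub contDiff_const).norm_sq ℝ)).pow 2
  have hw : ∀ x : E d, ‖x - x₀‖ ≤ Real.sqrt T → 0 ≤ T - ‖x - x₀‖ ^ 2 := by
    intro x hx
    have : ‖x - x₀‖ ^ 2 ≤ (Real.sqrt T) ^ 2 := pow_le_pow_left₀ (norm_nonneg _) hx 2
    rw [hR] at this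
    linarith
  have hbd : ∀ x : E d, ‖x - x₀‖ ≤ Real.sqrt T →
      0 ≤ ε / T ^ 2 * ((Real.sqrt T) ^ 2 - ‖x - x₀‖ ^ 2) ^ 2 ∧
      ε / T ^ 2 * ((Real.sqrt T) ^ 2 - ‖x - x₀‖ ^ 2) ^ 2 ≤ ε := by
    intro x hx
    refine ⟨mul_nonneg hk0 (sq_nonneg _), ?_⟩
    rw [hR]
    have h1 := hw x hx
    have h2 : (T - ‖x - x₀‖ ^ 2) ^ 2 ≤ T ^ 2 :=
      pow_le_pow_left₀ h1 (by have := sq_nonneg ‖x - x₀‖; linarith) 2
    calc ε / T ^ 2 * (T - ‖x - x₀‖ ^ 2) ^ 2 ≤ ε / T ^ 2 * T ^ 2 :=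
          mul_le_mul_of_nonneg_left h2 hk0
      _ = ε := by field_simp
  refine ⟨fun y => ε / T ^ 2 * ((Real.sqrt T) ^ 2 - ‖y - x₀‖ ^ 2) ^ 2, contDiff_const.mul hsm,
    ?_, ?_, ?_, ?_⟩
  · intro x hx
    have h1 := hbd x (by rw [mem_closedBall, dist_eq_norm] at hx; exact hx)
    exact ⟨h1.1, h1.2.trans hε1⟩
  · intro x hx
    simp only [hx, sub_self]
    ring
  · intro x hx
    have hx' : ‖x - x₀‖ ≤ Real.sqrt T := by
      rw [mem_ball, dist_eq_norm] at hx; exact hx.le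
    have h1 := hbd x hx'
    have h2 := hfa _ h1.1 h1.2
    refine le_trans ?_ h2
    rw [lap_smul _ _ _ hsm.contDiffAt, lap_quart, hR]
    have h3 := hw x hx'
    obtain ⟨w, hwdef⟩ : ∃ w : ℝ, w = T - ‖x - x₀‖ ^ 2 := ⟨_, rfl⟩
    have hn : ‖x - x₀‖ ^ 2 = T - w := by rw [hwdef]; ring
    have hwT : w ≤ T := by rw [hwdef]; have := sq_nonneg ‖x - x₀‖; linarith
    rw [← hwdef] at h3
    rw [← hwdef, hn]
    have key : 4 * (d : ℝ) * w - 8 * (T - w) ≤ a * w ^ 2 := by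
      by_cases hcase : (4 * (d : ℝ) + 8) * w ≤ 8 * T
      · have : 0 ≤ a * w ^ 2 := by positivity
        nlinarith
      · push Not at hcase
        have h5 : 4 * (d : ℝ) ≤ a * w := by
          have h6 : 0 < (d : ℝ) + 2 := by linarith
          by_contra hcon
          push Not at hcon
          have h7 : a * w * (d + 2) < 4 * d * (d + 2) := mul_lt_mul_of_pos_right hcon h6
          have h8 : a * (8 * T) < a * ((4 * (d : ℝ) + 8) * w) := mul_lt_mul_of_pos_left hcase ha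
          nlinarith
        nlinarith [mul_le_mul_of_nonneg_right h5 h3]
    have := mul_le_mul_of_nonneg_left key hk0
    linarith
  · simp only [sub_self, norm_zero]
    rw [hR]
    field_simp
    ring

end

end ExtStar
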