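import Pool.Agent.H631.EX.Defs
import Pool.Agent.H631.ES.X14
import Pool.Agent.H631.ES.X18

open Set Metric Filter Topology MeasureTheory

namespace ExtStar

noncomputable section

/-! TARGET: prove the following -/

theorem pos_star {d : ℕ} (L : ℝ) (hL : 0 ≤ L) (Ω : Set (E d)) (hΩ : IsOpen Ω) (hs : Star0 Ω)
    (u : E d → ℝ) (hQ : Quasi L Ω u) (R₁ c₀ : ℝ) (hR₁ : 0 < R₁) (hc₀ : 0 < c₀)
    (hlow : ∀ x, closedBall x R₁ ⊆ Ω → c₀ ≤ u x) : ∀ x ∈ Ω, 0 < u x := by
  intro x hx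
  obtain ⟨C, hC, hchain⟩ := chain d L hL
  obtain ⟨δ₀, hδ₀, hball₀⟩ := Metric.isOpen_iff.1 hΩ x hx
  set δ : ℝ := min δ₀ 1 with hδdef
  have hδ : 0 < δ := lt_min hδ₀ one_pos
  have hδ1 : δ ≤ 1 := min_le_right _ _
  have hball : ball x δ ⊆ Ω := (ball_subset_ball (min_le_left _ _)).trans hball₀
  set k : ℝ := R₁ / δ + 1 with hk
  have hk1 : 1 ≤ k := by
    have : 0 ≤ R₁ / δ := by positivity
    linarith
  have hkδ : k * δ = R₁ + δ := by
    rw [hk, add_mul, div_mul_cancel₀ _ hδ.ne', one_mul]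
  have h1 : closedBall (k • x) R₁ ⊆ Ω := by
    refine (closedBall_subset_ball ?_).trans (star_ball Ω hs x δ k hk1 hball)
    rw [hkδ]; linarith
  have h2 := hlow (k • x) h1
  have h3 := hchain u Ω (k • x) x δ hΩ hδ hδ1 hQ (by
    rintro w ⟨a, b, ha, hb, hab, rfl⟩
    have ht : a • k • x + b • x = (a * k + b) • x := by
      rw [smul_smul, ← add_smul]
    have ht1 : 1 ≤ a * k + b := by nlinarith
    rw [ht]
    refine (ball_subset_ball ?_).trans (star_ball Ω hs x δ (a * k + b) ht1 hball)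
    nlinarith)
  by_contra hcon
  push Not at hcon
  have h4 : Real.exp (C / δ * ‖k • x - x‖) * u x ≤ 0 :=
    mul_nonpos_of_nonneg_of_nonpos (Real.exp_pos _).le hcon
  linarith

end

end ExtStar
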