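import Pool.Agent.H631.EX.Defs
import Pool.Agent.H631.EX.Y09
import Pool.Agent.H631.EX.Y10
import Pool.Agent.H631.EX.Y12
import Pool.Agent.H631.EX.Y17
import Pool.Agent.H631.EX.Y18
import Pool.Agent.H631.EX.Y19

open Set Metric Filter Topology MeasureTheory

namespace ExtStar

noncomputable section

/-! TARGET: prove the following -/

theorem exists_sol {d : ℕ} (f : ℝ → ℝ) (L c ε c₁ : ℝ) (Ω : Set (E d)) (r : ℝ) (h : Ctx f L c ε c₁ Ω r) :
    ∃ u : E d → ℝ, Sol f Ω u := by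
  obtain ⟨hf, hR, hΩ, hs, hBC, hr, hr1⟩ := h
  obtain ⟨a, haC, ha1, ⟨Ma, hMa⟩, ha0, hapos⟩ := cutoff Ω
  choose us hus hmax hlow using fun n => approx f L c ε c₁ hf hR a haC ha1 Ma hMa n
  have hstep : ∀ n x, us (n + 1) x ≤ us n x := by
    intro n x
    refine hmax n (us (n + 1)) (hus (n + 1)).1 (hus (n + 1)).2.1 (fun y => ?_) x
    rw [(hus (n + 1)).2.2 y]
    have h1 : 0 ≤ a y * us (n + 1) y := mul_nonneg (ha1 y).1 ((hus (n + 1)).2.1 y).1
    push_cast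
    nlinarith [h1]
  have hanti : ∀ x, Antitone (fun n => us n x) := fun x =>
    antitone_nat_of_succ_le (fun n => hstep n x)
  set u : E d → ℝ := fun x => ⨅ n, us n x with hudef
  have hu : ∀ x, Tendsto (fun n => us n x) atTop (𝓝 (u x)) := by
    intro x
    refine tendsto_atTop_ciInf (hanti x) ⟨0, ?_⟩
    rintro _ ⟨n, rfl⟩
    exact ((hus n).2.1 x).1
  have hint := interior_sol f L c ε c₁ hf hR Ω hΩ a (fun x hx => ha0 x (subset_closure hx)) us hus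
    u hu
  have hbd : ∀ q ∈ frontier Ω, u q = 0 ∧ ContinuousAt u q := by
    intro q hq
    obtain ⟨ν, hν⟩ := hBC q hq
    exact bdry_lim f L c ε c₁ hR Ω r hr q ν hν a haC.continuous (fun x => (ha1 x).1) hapos us hus
      u hu
  have h0 : ∀ x, 0 ≤ u x := fun x => ge_of_tendsto' (hu x) (fun n => ((hus n).2.1 x).1)
  have h1 : ∀ x, u x ≤ 1 := fun x => le_of_tendsto' (hu x) (fun n => ((hus n).2.1 x).2)
  have hQ : Quasi L Ω u := by
    refine ⟨hint.1, fun x hx => ⟨h0 x, ?_⟩⟩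
    have h2 := hint.2 x hx
    have h3 := hR.2.2.2.2.2.2.2.1 (u x) ⟨h0 x, h1 x⟩ 0 ⟨le_rfl, zero_le_one⟩
    have hf0 : f 0 = 0 := hR.2.2.2.2.2.1
    rw [hf0, sub_zero, sub_zero, abs_of_nonneg (h0 x)] at h3
    rw [← abs_neg, h2]
    exact h3
  obtain ⟨R₁, c₀, hR₁, hc₀, hψ⟩ := low_quart d f hf
  have hlow' : ∀ x, closedBall x R₁ ⊆ Ω → c₀ ≤ u x := by
    intro x hx
    obtain ⟨ψ, e1, e2, e3, e4, e5⟩ := hψ x
    refine ge_of_tendsto' (hu x) (fun n => ?_)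
    rw [← e5]
    exact hlow n x R₁ ψ hR₁ (fun y hy => ha0 y (subset_closure (hx hy))) e1 e2 e3 e4 x
      (mem_closedBall_self hR₁.le)
  have hpos := pos_star L hR.1.le Ω hΩ hs u hQ R₁ c₀ hR₁ hc₀ hlow'
  refine ⟨u, hint.1, ?_, fun x hx => (hbd x hx).1, fun x hx => ⟨hpos x hx, h1 x⟩, hint.2⟩
  intro x hx
  by_cases hxΩ : x ∈ Ω
  · exact (hint.1.continuousOn.continuousAt (hΩ.mem_nhds hxΩ)).continuousWithinAt
  · have hfr : x ∈ frontier Ω := by
      rw [frontier, hΩ.interior_eq]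
      exact ⟨hx, hxΩ⟩
    exact (hbd x hfr).2.continuousWithinAt


end

end ExtStar
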