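import Pool.Agent.H631.EX.Y01
import Pool.Agent.H631.EX.Y02
import Pool.Agent.H631.EX.Y03
import Pool.Agent.H631.EX.Y04
import Pool.Agent.H631.EX.Y05
import Pool.Agent.H631.EX.Y06
import Pool.Agent.H631.EX.Y07
import Pool.Agent.H631.EX.Y08
import Pool.Agent.H631.EX.Y09
import Pool.Agent.H631.EX.Y10
import Pool.Agent.H631.EX.Y11
import Pool.Agent.H631.EX.Y12
import Pool.Agent.H631.EX.Y13
import Pool.Agent.H631.EX.Y14
import Pool.Agent.H631.EX.Y15
import Pool.Agent.H631.EX.Y16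
import Pool.Agent.H631.EX.Y17
import Pool.Agent.H631.EX.Y18
import Pool.Agent.H631.EX.Y19
import Pool.Agent.H631.EX.Y20
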