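import Pool.Agent.H631.ES.Defs

open Set Metric Filter Topology MeasureTheory

namespace ExtStar

noncomputable section

/-- Gaussian density, heat semigroup and resolvent -/
def gauss {d : ℕ} (z : E d) : ℝ := (2 * Real.pi) ^ (-(d : ℝ) / 2) * Real.exp (-(‖z‖ ^ 2) / 2)
def heat {d : ℕ} (t : ℝ) (g : E d → ℝ) (x : E d) : ℝ :=
  ∫ z : E d, gauss z * g (x + Real.sqrt (2 * t) • z)
def res {d : ℕ} (m : ℝ) (g : E d → ℝ) (x : E d) : ℝ :=
  ∫ t in Ioi (0 : ℝ), Real.exp (-(m * t)) * heat t g x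

/-- solution of the problem with absorption `n a(x)` -/
def App {d : ℕ} (f : ℝ → ℝ) (a : E d → ℝ) (n : ℕ) (u : E d → ℝ) : Prop :=
  ContDiff ℝ 2 u ∧ (∀ x, 0 ≤ u x ∧ u x ≤ 1) ∧ ∀ x, -lap u x = f (u x) - n * a x * u x

end

end ExtStar
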