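import Pool.Agent.H631.EX.All
import Pool.Agent.H631.ES.Final

open Set Metric Filter Topology MeasureTheory

namespace ExtStar

noncomputable section

theorem exists_pbs (d : ℕ) (γ : ℝ) (f : ℝ → ℝ) (Ω : Set (E d)) (_hγ : 0 < γ) (_hγ1 : γ ≤ 1)
    (hf : ContDiff ℝ 1 f ∧
      (∀ R : ℝ, ∃ C : ℝ, ∀ x y : ℝ, |x| ≤ R → |y| ≤ R → |deriv f x - deriv f y| ≤ C * |x - y| ^ γ) ∧
      f 0 = 0 ∧ f 1 = 0 ∧ (∀ s : ℝ, 1 < s → f s < 0) ∧ deriv f 1 < 0 ∧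
      (∀ s : ℝ, 0 < s → s < 1 → 0 < f s) ∧ 0 < deriv f 0) (hΩ : IsOpen Ω)
    (hC2 : ∃ r : ℝ, 0 < r ∧ ∃ M : ℝ, ∀ p ∈ frontier Ω, ∃ ν : E d, ‖ν‖ = 1 ∧
      ∃ φ : E d → ℝ, ContDiff ℝ 2 φ ∧
      (∀ (y : E d) (t : ℝ), φ (y + t • ν) = φ y) ∧
      (∀ y : E d, ‖iteratedFDeriv ℝ 1 φ y‖ ≤ M ∧ ‖iteratedFDeriv ℝ 2 φ y‖ ≤ M) ∧
      (∀ y z : E d, ‖iteratedFDeriv ℝ 2 φ y - iteratedFDeriv ℝ 2 φ z‖ ≤ M * ‖y - z‖ ^ γ) ∧
      ∀ x ∈ Metric.ball p r, (x ∈ Ω ↔ φ (x - p) < inner ℝ (x - p) ν))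
    (x₀ : E d) (hstar : StarConvex ℝ x₀ Ωᶜ) : ∃ u : E d → ℝ, PBS f Ω u := by
  obtain ⟨f1, f2, f3, f4, f5, f6, f7, f8⟩ := hf
  have hR : React f := ⟨f1, f3, f4, f5, f6, f7, f8⟩
  by_cases hne : (Ωᶜ).Nonempty
  · obtain ⟨y, hy⟩ := hne
    have hx₀ : x₀ ∈ Ωᶜ := by
      have := hstar hy (zero_le_one) (le_refl (0 : ℝ)) (by norm_num)
      simpa using this
    obtain ⟨r, hr, M, hg⟩ := hC2
    obtain ⟨L, c, ε, c₁, hRC⟩ := react_const f hR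
    obtain ⟨r', hr', hr'1, hBC⟩ := graph_BC Ω hΩ r M hr (fun p hp => by
      obtain ⟨ν, hν, φ, h1, h2, h3, h4, h5⟩ := hg p hp
      exact ⟨ν, hν, φ, h1, h2, h3, h5⟩)
    have hstar0 : Star0 ((fun x => x + x₀) ⁻¹' Ω) := by
      refine ⟨?_, ?_⟩
      · change ¬ ((0 : E d) + x₀ ∈ Ω)
        rw [zero_add]
        exact hx₀
      · intro y hy a b ha hb hab
        have h1 : y + x₀ ∈ Ωᶜ := hy
        have h2 := hstar h1 ha hb hab
        change ¬ (a • (0 : E d) + b • y + x₀ ∈ Ω)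
        have h3 : a • (0 : E d) + b • y + x₀ = a • x₀ + b • (y + x₀) := by
          have h4 : x₀ = (a + b) • x₀ := by rw [hab, one_smul]
          calc a • (0 : E d) + b • y + x₀ = b • y + x₀ := by rw [smul_zero, zero_add]
            _ = b • y + (a + b) • x₀ := by rw [← h4]
            _ = a • x₀ + b • (y + x₀) := by rw [add_smul, smul_add]; abel
        rw [h3]
        exact h2
    have hctx : Ctx f L c ε c₁ ((fun x => x + x₀) ⁻¹' Ω) r' :=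
      ⟨hR, hRC, hΩ.preimage (continuous_id.add continuous_const), hstar0, BC_shift Ω x₀ r' hBC,
        hr', hr'1⟩
    obtain ⟨w, hw⟩ := exists_sol f L c ε c₁ _ r' hctx
    have h1 := Sol_shift f _ (-x₀) w hw
    have h2 : (fun x => x + -x₀) ⁻¹' ((fun x => x + x₀) ⁻¹' Ω) = Ω := by
      ext x
      simp
    rw [h2] at h1
    obtain ⟨g1, g2, g3, g4, g5⟩ := h1
    refine ⟨_, g1, g2, g3, fun x hx => (g4 x hx).1, ⟨1, fun x hx => ?_⟩, g5⟩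
    rw [abs_of_pos (g4 x hx).1]
    exact (g4 x hx).2
  · have huniv : Ω = univ := by
      rw [Set.not_nonempty_iff_eq_empty] at hne
      exact Set.compl_empty_iff.mp hne
    subst huniv
    refine ⟨fun _ => 1, contDiffOn_const, continuousOn_const, ?_, fun _ _ => one_pos,
      ⟨1, fun _ _ => by simp⟩, ?_⟩
    · intro x hx
      rw [frontier_univ] at hx
      exact absurd hx (notMem_empty x)
    · intro x _
      rw [lap_const, f4, neg_zero]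

end

end ExtStar
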